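import Pool.Agent.DAE.Interface
import Pool.Agent.DAE.X.Frac
import Pool.Agent.DAE.X.DExt

/-!
# Multiplicative form of the valuations of the polynomial ring and their extension to the
field of rational functions
-/

set_option autoImplicit false

namespace Pool.Agent.DAE

open MvPolynomial Pool.Agent.H17Dyn

variable {d : ℕ}

/-- the field of rational functions; a `def`, so that instances of Ore localisations are not
seen (the integers act through `Ring.toIntAlgebra`, as in generic lemmas) -/
def KK (d : ℕ) : Type := FractionRing (Poly d)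

noncomputable instance : Field (KK d) := inferInstanceAs (Field (FractionRing (Poly d)))

noncomputable instance : Algebra (Poly d) (KK d) :=
  inferInstanceAs (Algebra (Poly d) (FractionRing (Poly d)))

instance : IsFractionRing (Poly d) (KK d) :=
  inferInstanceAs (IsFractionRing (Poly d) (FractionRing (Poly d)))

noncomputable instance : Algebra ℂ (KK d) :=
  ((algebraMap (Poly d) (KK d)).comp (algebraMap ℂ (Poly d))).toAlgebra

instance : IsScalarTower ℂ (Poly d) (KK d) := IsScalarTower.of_algebraMap_eq' rfl

instance : CharZero (KK d) :=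
  charZero_of_injective_algebraMap (R := ℂ) (algebraMap ℂ (KK d)).injective

open Classical in
/-- multiplicative form of a logarithmic valuation -/
noncomputable def mv (h : Poly d → ℝ) (P : Poly d) : ℝ := if P = 0 then 0 else Real.exp (h P)

/-- its extension to the field of rational functions -/
noncomputable def ext (h : Poly d → ℝ) (x : KK d) : ℝ :=
  mv h (IsLocalization.sec (nonZeroDivisors (Poly d)) x).1 /
    mv h ((IsLocalization.sec (nonZeroDivisors (Poly d)) x).2 : Poly d)

/-- inclusion of the polynomial ring into the field of rational functions -/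
noncomputable abbrev ι : Poly d →+* KK d := algebraMap (Poly d) (KK d)

lemma ι_inj : Function.Injective (ι : Poly d → KK d) := IsFractionRing.injective _ _

lemma mv_zero (h : Poly d → ℝ) : mv h 0 = 0 := if_pos rfl

lemma mv_of_ne (h : Poly d → ℝ) {P : Poly d} (hP : P ≠ 0) : mv h P = Real.exp (h P) := if_neg hP

lemma mv_nonneg (h : Poly d → ℝ) (P : Poly d) : 0 ≤ mv h P := by
  unfold mv
  split_ifs
  · exact le_rfl
  · exact (Real.exp_pos _).le

lemma continuous_mv (P : Poly d) : Continuous fun h : Poly d → ℝ => mv h P := by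
  unfold mv
  split_ifs
  · exact continuous_const
  · exact Real.continuous_exp.comp (continuous_apply P)

lemma continuous_ext (x : KK d) : Continuous fun h : Poly d → ℝ => ext h x := by
  unfold ext
  refine (continuous_mv _).div (continuous_mv _) fun h => ?_
  rw [mv_of_ne]
  · exact (Real.exp_pos _).ne'
  · exact nonZeroDivisors.ne_zero (IsLocalization.sec (nonZeroDivisors (Poly d)) x).2.2

lemma IsVal.nabs_mv {h : Poly d → ℝ} (hh : IsVal h) : NAbs (mv h) where
  nonneg := mv_nonneg h
  eq_zero x hx := by
    by_contra h0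
    rw [mv_of_ne h h0] at hx
    exact (Real.exp_pos _).ne' hx
  zero := mv_zero h
  mul x y := by
    rcases eq_or_ne x 0 with rfl | hx
    · rw [zero_mul, mv_zero, zero_mul]
    rcases eq_or_ne y 0 with rfl | hy
    · rw [mul_zero, mv_zero, mul_zero]
    rw [mv_of_ne h hx, mv_of_ne h hy, mv_of_ne h (mul_ne_zero hx hy), hh.mul x y hx hy,
      Real.exp_add]
  add x y := by
    rcases eq_or_ne x 0 with rfl | hx
    · rw [zero_add]
      exact le_max_right _ _
    rcases eq_or_ne y 0 with rfl | hy
    · rw [add_zero]
      exact le_max_left _ _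
    rcases eq_or_ne (x + y) 0 with hxy | hxy
    · rw [hxy, mv_zero]
      exact le_max_of_le_left (mv_nonneg h x)
    rw [mv_of_ne h hx, mv_of_ne h hy, mv_of_ne h hxy, ← Real.exp_monotone.map_max]
    exact Real.exp_le_exp.2 (hh.add x y hx hy hxy)
  nat n hn := by
    have h1 : (n : Poly d) = C (n : ℂ) := by simp
    have h2 : (n : ℂ) ≠ 0 := Nat.cast_ne_zero.2 hn
    rw [h1, mv_of_ne h ((map_ne_zero_iff _ (C_injective _ _)).2 h2), hh.const _ h2,
      Real.exp_zero]

lemma IsVal.mv_C {h : Poly d → ℝ} (hh : IsVal h) {c : ℂ} (hc : c ≠ 0) : mv h (C c) = 1 := by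
  rw [mv_of_ne h ((map_ne_zero_iff _ (C_injective _ _)).2 hc), hh.const _ hc, Real.exp_zero]

lemma IsVal.log_mv {h : Poly d → ℝ} (hh : IsVal h) (P : Poly d) : Real.log (mv h P) = h P := by
  rcases eq_or_ne P 0 with rfl | hP
  · rw [mv_zero, Real.log_zero, hh.zero]
  · rw [mv_of_ne h hP, Real.log_exp]

/-- passage from multiplicative to logarithmic form -/
lemma isVal_log {u : Poly d → ℝ} (hu : NAbs u) (hc : ∀ c : ℂ, c ≠ 0 → u (C c) = 1) :
    IsVal fun P => Real.log (u P) where
  zero := by rw [hu.zero, Real.log_zero]
  const c h := by rw [hc c h, Real.log_one]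
  mul P Q hP hQ := by rw [hu.mul, Real.log_mul (hu.ne_zero hP) (hu.ne_zero hQ)]
  add P Q hP hQ hPQ := by
    rw [le_max_iff]
    rcases le_max_iff.1 (hu.add P Q) with h | h
    · exact Or.inl (Real.log_le_log (hu.pos hPQ) h)
    · exact Or.inr (Real.log_le_log (hu.pos hPQ) h)

lemma mv_log {u : Poly d → ℝ} (hu : NAbs u) : mv (fun P => Real.log (u P)) = u := by
  funext P
  rcases eq_or_ne P 0 with rfl | hP
  · rw [mv_zero, hu.zero]
  · rw [mv_of_ne _ hP, Real.exp_log (hu.pos hP)]

lemma ext_div {h : Poly d → ℝ} (hh : IsVal h) (a : Poly d) {b : Poly d} (hb : b ≠ 0) :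
    ext h (ι a / ι b) = mv h a / mv h b := by
  have hv := hh.nabs_mv
  set x : KK d := ι a / ι b with hx
  set s := IsLocalization.sec (nonZeroDivisors (Poly d)) x with hs
  have hs2 : (s.2 : Poly d) ≠ 0 := nonZeroDivisors.ne_zero s.2.2
  have hb1 : (ι b : KK d) ≠ 0 := (map_ne_zero_iff _ ι_inj).2 hb
  have h1 : x * ι (s.2 : Poly d) = ι s.1 := IsLocalization.sec_spec _ x
  have h2 : a * (s.2 : Poly d) = s.1 * b := by
    apply ι_inj
    rw [map_mul, map_mul, ← h1, hx]
    field_simp
  have h3 := congrArg (mv h) h2
  rw [hv.mul, hv.mul] at h3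
  change mv h s.1 / mv h (s.2 : Poly d) = _
  rw [div_eq_div_iff (hv.ne_zero hs2) (hv.ne_zero hb), h3.symm]

lemma ext_ι {h : Poly d → ℝ} (hh : IsVal h) (a : Poly d) : ext h (ι a) = mv h a := by
  have h1 := ext_div hh a one_ne_zero
  rwa [map_one, div_one, hh.nabs_mv.one, div_one] at h1

lemma IsVal.nabs_ext {h : Poly d → ℝ} (hh : IsVal h) : NAbs (ext h) := by
  obtain ⟨w, hw, hwv⟩ := hh.nabs_mv.exists_frac (K := KK d)
  have h1 : ext h = w := by
    funext x
    obtain ⟨a, b, hb, rfl⟩ := IsFractionRing.div_surjective (A := Poly d) x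
    rw [ext_div hh a (nonZeroDivisors.ne_zero hb), hw.div, hwv, hwv]
  rw [h1]
  exact hw

lemma IsVal.ext_C {h : Poly d → ℝ} (hh : IsVal h) {c : ℂ} (hc : c ≠ 0) :
    ext h (ι (C c)) = 1 := by
  rw [ext_ι hh, hh.mv_C hc]

/-- the partial derivatives as derivations of the field of rational functions -/
lemma exists_pdK (i : Fin d) : ∃ D : Derivation ℤ (KK d) (KK d), ∀ a : Poly d,
    D (ι a) = ι (pderiv i a) :=
  exists_deriv_frac (A := Poly d) (K := KK d) (fun a => ι (pderiv i a))
    (fun x y => by rw [map_add, map_add])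
    (fun x y => by
      rw [Derivation.leibniz, smul_eq_mul, smul_eq_mul, map_add, map_mul, map_mul])

/-- the partial derivative `∂/∂x_i` on rational functions -/
noncomputable def pdK (i : Fin d) : Derivation ℤ (KK d) (KK d) := Classical.choose (exists_pdK i)

lemma pdK_ι (i : Fin d) (a : Poly d) : pdK i (ι a) = ι (pderiv i a) :=
  Classical.choose_spec (exists_pdK i) a

/-- fatness in multiplicative form -/
lemma IsFat.mv_jac_le {h : Poly d → ℝ} (hf : IsFat h) (P : Fin d → Poly d) :
    mv h (jac P) ≤ ∏ i, mv h (P i) := by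
  rcases eq_or_ne (jac P) 0 with h0 | h0
  · rw [h0, mv_zero]
    exact Finset.prod_nonneg fun i _ => mv_nonneg h _
  have h1 : ∀ i, P i ≠ 0 := by
    intro i hi
    apply h0
    rw [jac]
    exact Matrix.det_eq_zero_of_column_eq_zero i fun j => by
      rw [Matrix.of_apply, hi, map_zero]
  rw [mv_of_ne h h0, Finset.prod_congr rfl fun i _ => mv_of_ne h (h1 i), ← Real.exp_sum]
  exact Real.exp_le_exp.2 (hf P h0)

lemma isFat_log {u : Poly d → ℝ} (hu : NAbs u) (hf : ∀ P : Fin d → Poly d, u (jac P) ≤
    ∏ i, u (P i)) : IsFat fun P => Real.log (u P) := by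
  intro P h0
  have h1 : ∀ i, P i ≠ 0 := by
    intro i hi
    apply h0
    rw [jac]
    exact Matrix.det_eq_zero_of_column_eq_zero i fun j => by
      rw [Matrix.of_apply, hi, map_zero]
  rw [← Real.log_prod fun i _ => hu.ne_zero (h1 i)]
  exact Real.log_le_log (hu.pos h0) (hf P)

/-- the Jacobian determinant of rational functions -/
private noncomputable def JK (P : Fin d → KK d) : KK d := (Matrix.of fun i j => pdK i (P j)).det

private lemma JK_update (P : Fin d → KK d) (m : Fin d) (x : KK d) :
    JK (Function.update P m x) =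
      ((Matrix.of fun i j => pdK i (P j)).updateCol m fun i => pdK i x).det := by
  unfold JK
  congr 1
  ext i j
  rw [Matrix.updateCol_apply, Matrix.of_apply]
  split_ifs with hj
  · rw [hj, Function.update_self]
  · rw [Function.update_of_ne hj, Matrix.of_apply]

private lemma JK_mul (P : Fin d → KK d) (m : Fin d) (x y : KK d) :
    JK (Function.update P m (x * y)) =
      x * JK (Function.update P m y) + y * JK (Function.update P m x) := by
  rw [JK_update, JK_update, JK_update]
  have h1 : (fun i => pdK i (x * y)) = x • (fun i : Fin d => pdK i y) +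
      y • fun i : Fin d => pdK i x := by
    funext i
    rw [Derivation.leibniz]
    rfl
  rw [h1, Matrix.det_updateCol_add, Matrix.det_updateCol_smul, Matrix.det_updateCol_smul]

private lemma prod_update_ext (h : Poly d → ℝ) (P : Fin d → KK d) (m : Fin d) (x : KK d) :
    ∏ j, ext h (Function.update P m x j) = ext h x * ∏ j ∈ Finset.univ.erase m, ext h (P j) := by
  rw [← Finset.mul_prod_erase Finset.univ _ (Finset.mem_univ m), Function.update_self]
  congr 1
  refine Finset.prod_congr rfl fun j hj => ?_
  rw [Function.update_of_ne (Finset.ne_of_mem_erase hj)]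

/-- **fatness on rational functions** -/
theorem IsFat.ext_det_le {h : Poly d → ℝ} (hh : IsVal h) (hf : IsFat h) (P : Fin d → KK d) :
    ext h (Matrix.of fun i j => pdK i (P j)).det ≤ ∏ j, ext h (P j) := by
  classical
  have hv := hh.nabs_ext
  have key : ∀ (S : Finset (Fin d)) (P : Fin d → KK d), (∀ j, j ∉ S → ∃ p, P j = ι p) →
      ext h (JK P) ≤ ∏ j, ext h (P j) := by
    intro S
    induction S using Finset.induction_on with
    | empty =>
      intro P hP
      choose p hp using fun j => hP j (Finset.notMem_empty j)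
      have h1 : JK P = ι (jac p) := by
        unfold JK jac
        rw [RingHom.map_det]
        congr 1
        ext i j
        rw [RingHom.mapMatrix_apply, Matrix.map_apply, Matrix.of_apply, Matrix.of_apply, hp j,
          pdK_ι]
      rw [h1, ext_ι hh, Finset.prod_congr rfl fun j _ => by rw [hp j, ext_ι hh]]
      exact hf.mv_jac_le p
    | insert m S hm ih =>
      intro P hP
      obtain ⟨a, b, hb, hab⟩ := IsFractionRing.div_surjective (A := Poly d) (P m)
      have hb0 : b ≠ 0 := nonZeroDivisors.ne_zero hb
      have hιb : (ι b : KK d) ≠ 0 := (map_ne_zero_iff _ ι_inj).2 hb0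
      have hx : P m * ι b = ι a := by
        rw [← hab]
        exact div_mul_cancel₀ _ hιb
      have hPu : Function.update P m (P m) = P := Function.update_eq_self m P
      have ih' : ∀ p : Poly d, ext h (JK (Function.update P m (ι p))) ≤
          ext h (ι p) * ∏ j ∈ Finset.univ.erase m, ext h (P j) := by
        intro p
        rw [← prod_update_ext]
        refine ih _ fun j hj => ?_
        rcases eq_or_ne j m with rfl | hjm
        · exact ⟨p, by rw [Function.update_self]⟩
        · rw [Function.update_of_ne hjm]
          exact hP j fun hj' => by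
            rcases Finset.mem_insert.1 hj' with h2 | h2
            · exact hjm h2
            · exact hj h2
      set R : ℝ := ∏ j ∈ Finset.univ.erase m, ext h (P j) with hR
      have hmul := JK_mul P m (P m) (ι b)
      rw [hx, hPu] at hmul
      have hJ : ι b * JK P = JK (Function.update P m (ι a)) -
          P m * JK (Function.update P m (ι b)) := by
        rw [hmul]
        ring
      have h1 : ext h (ι b) * ext h (JK P) ≤ ext h (ι a) * R := by
        rw [← hv.mul, hJ]
        refine (hv.sub _ _).trans (max_le (ih' a) ?_)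
        rw [hv.mul, ← hx, hv.mul, mul_assoc]
        exact mul_le_mul_of_nonneg_left (ih' b) (hv.nonneg _)
      have h2 : ext h (ι a) = ext h (P m) * ext h (ι b) := by rw [← hx, hv.mul]
      have h3 : 0 < ext h (ι b) := hv.pos hιb
      rw [← Finset.mul_prod_erase Finset.univ _ (Finset.mem_univ m), ← hR]
      rw [h2] at h1
      have h4 : ext h (ι b) * ext h (JK P) ≤ ext h (ι b) * (ext h (P m) * R) := by
        calc ext h (ι b) * ext h (JK P) ≤ ext h (P m) * ext h (ι b) * R := h1
          _ = _ := by ring
      exact le_of_mul_le_mul_left h4 h3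
  exact key Finset.univ P fun j hj => absurd (Finset.mem_univ j) hj

end Pool.Agent.DAE
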