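import Pool.Agent.DAE.R.Basic

/-!
# Compactness of the space of normalised fat valuations
-/

set_option autoImplicit false

namespace Pool.Agent.DAE

open MvPolynomial Pool.Agent.H17Dyn

variable {d : ℕ}

/-! ### Auxiliary lemmas -/

private lemma compact_jac_update (j : Fin d) (Q : Poly d) :
    jac (Function.update (fun i : Fin d => (X i : Poly d)) j Q) = pderiv j Q := by
  have h : (Matrix.of fun i l => pderiv i
      (Function.update (fun i : Fin d => (X i : Poly d)) j Q l)) =
      (1 : Matrix (Fin d) (Fin d) (Poly d)).updateCol j (fun i => pderiv i Q) := by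
    ext i l : 2
    rw [Matrix.of_apply, Matrix.updateCol_apply]
    by_cases h : l = j
    · subst h
      rw [if_pos rfl, Function.update_self]
    · rw [if_neg h, Function.update_of_ne h, pderiv_X, Matrix.one_apply, Pi.single_apply]
      simp only [eq_comm]
  rw [jac, h, ← Matrix.cramer_apply, Matrix.cramer_one]
  rfl

private lemma compact_jac_X : jac (fun i : Fin d => (X i : Poly d)) = 1 := by
  have h : (Matrix.of fun i j : Fin d => pderiv i (X j : Poly d)) = 1 := by
    ext i j : 2
    rw [Matrix.of_apply, pderiv_X, Matrix.one_apply, Pi.single_apply]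
    simp only [eq_comm]
  rw [jac, h, Matrix.det_one]

private lemma compact_jac_apply (φ : Poly d ≃ₐ[ℂ] Poly d) (P : Fin d → Poly d) :
    jac (fun i => φ (P i)) = φ (jac P) * jac (fun i => φ (X i)) :=
  det_chain (fun i => pderiv i) (φ : Poly d →ₐ[ℂ] Poly d) P

private lemma compact_isUnit_jac (φ : Poly d ≃ₐ[ℂ] Poly d) :
    IsUnit (jac (fun i => φ (X i))) := by
  have h := compact_jac_apply φ (fun i => φ.symm (X i))
  simp only [AlgEquiv.apply_symm_apply] at h
  rw [compact_jac_X] at h
  exact IsUnit.of_mul_eq_one _ ((mul_comm _ _).trans h.symm)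

/-- the ultrametric upper bound -/
private lemma compact_val_le {h : Poly d → ℝ} (hh : IsVal h) {t : ℝ} (ht : 0 ≤ t)
    (hX : ∀ i, h (X i) ≤ t) (P : Poly d) : h P ≤ t * P.totalDegree := by
  rcases eq_or_ne P 0 with rfl | hP
  · rw [hh.zero]
    positivity
  have hv := hh.nabs_mv
  have h1 : mv h P ≤ Real.exp (t * P.totalDegree) := by
    rw [P.as_sum]
    conv_rhs => rw [← P.as_sum]
    refine hv.sum_le (Real.exp_pos _).le fun m hm => ?_
    have hc : coeff m P ≠ 0 := mem_support_iff.1 hm
    rw [monomial_eq, hv.mul, hh.mv_C hc, one_mul, Finsupp.prod, hv.prod]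
    have h2 : ∀ i ∈ m.support, mv h (X i ^ m i : Poly d) ≤ Real.exp (t * m i) := by
      intro i _
      rw [hv.pow, mv_of_ne h (X_ne_zero i), ← Real.exp_nat_mul]
      apply Real.exp_le_exp.2
      rw [mul_comm t]
      exact mul_le_mul_of_nonneg_left (hX i) (Nat.cast_nonneg _)
    refine (Finset.prod_le_prod (fun i _ => mv_nonneg h _) h2).trans ?_
    rw [← Real.exp_sum, ← Finset.mul_sum]
    apply Real.exp_le_exp.2
    refine mul_le_mul_of_nonneg_left ?_ ht
    have h3 := le_totalDegree hm
    rw [Finsupp.sum] at h3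
    exact_mod_cast h3
  rw [mv_of_ne h hP] at h1
  exact Real.exp_le_exp.1 h1

private lemma compact_pderiv (P : Poly d) (hP : P.totalDegree ≠ 0) :
    ∃ i : Fin d, pderiv i P ≠ 0 ∧ (pderiv i P).totalDegree + 1 ≤ P.totalDegree := by
  classical
  have h1 : ∃ m ∈ P.support, m ≠ 0 := by
    by_contra hcon
    push Not at hcon
    apply hP
    refine Nat.le_zero.1 (Finset.sup_le fun m hm => ?_)
    rw [hcon m hm, Finsupp.sum_zero_index]
  obtain ⟨m, hm, hm0⟩ := h1
  obtain ⟨i, hi⟩ := Finsupp.ne_iff.1 hm0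
  rw [Finsupp.zero_apply] at hi
  refine ⟨i, fun h0 => ?_, ?_⟩
  · have h2 : coeff (m - Finsupp.single i 1) (pderiv i P) = 0 := by rw [h0, coeff_zero]
    rw [coeff_pderiv] at h2
    have h3 : m - Finsupp.single i 1 + Finsupp.single i 1 = m := by
      apply tsub_add_cancel_of_le
      rw [Finsupp.single_le_iff]
      omega
    rw [h3] at h2
    rcases mul_eq_zero.1 h2 with h4 | h4
    · exact mem_support_iff.1 hm h4
    · have h5 : ((m - Finsupp.single i 1 : Fin d →₀ ℕ) i : ℂ) + 1 =
          (((m - Finsupp.single i 1 : Fin d →₀ ℕ) i + 1 : ℕ) : ℂ) := by push_cast; rfl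
      rw [h5] at h4
      exact absurd (Nat.cast_eq_zero.1 h4) (Nat.succ_ne_zero _)
  · have h2 : (pderiv i P).totalDegree ≤ P.totalDegree - 1 := by
      rw [totalDegree]
      refine Finset.sup_le fun m' hm' => ?_
      have h3 : coeff (m' + Finsupp.single i 1) P ≠ 0 := by
        intro h
        rw [mem_support_iff, coeff_pderiv, h, zero_mul] at hm'
        exact hm' rfl
      have h4 := le_totalDegree (mem_support_iff.2 h3)
      rw [Finsupp.sum_add_index' (fun _ => rfl) (fun _ _ _ => rfl),
        Finsupp.sum_single_index rfl] at h4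
      omega
    omega

private lemma compact_lower {h : Poly d → ℝ} (hh : IsVal h) {s : ℝ} (hs : 0 ≤ s)
    (hd : ∀ (i : Fin d) (P : Poly d), pderiv i P ≠ 0 → h (pderiv i P) ≤ h P + s) (n : ℕ) :
    ∀ P : Poly d, P.totalDegree ≤ n → -s * P.totalDegree ≤ h P := by
  induction n with
  | zero =>
    intro P hP
    have h1 := totalDegree_eq_zero_iff_eq_C.1 (Nat.le_zero.1 hP)
    rw [h1]
    by_cases hc : coeff 0 P = 0
    · rw [hc, C_0, hh.zero, totalDegree_zero, Nat.cast_zero, mul_zero]
    · rw [hh.const _ hc, totalDegree_C, Nat.cast_zero, mul_zero]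
  | succ n ih =>
    intro P hP
    by_cases h0 : P.totalDegree = 0
    · exact ih P (by omega)
    · obtain ⟨i, hi, hdeg⟩ := compact_pderiv P h0
      have h1 := ih (pderiv i P) (by omega)
      have h2 := hd i P hi
      have h3 : ((pderiv i P).totalDegree : ℝ) + 1 ≤ P.totalDegree := by exact_mod_cast hdeg
      nlinarith

private lemma compact_le_HH [NeZero d] (h : Poly d → ℝ) (i : Fin d) : h (X i) ≤ HH h :=
  Finset.le_sup' (fun i : Fin d => h (X i)) (Finset.mem_univ i)

/-- fatness for one polynomial and coordinates -/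
private lemma compact_fat {h : Poly d → ℝ} (hf : IsFat h) {t : ℝ} (ht : ∀ i, h (X i) ≤ t)
    (i : Fin d) {P : Poly d} (hP : pderiv i P ≠ 0) :
    h (pderiv i P) ≤ h P + ((d : ℝ) - 1) * t := by
  have h1 := hf (Function.update (fun i : Fin d => (X i : Poly d)) i P)
    (by rw [compact_jac_update]; exact hP)
  rw [compact_jac_update, ← Finset.add_sum_erase _ _ (Finset.mem_univ i),
    Function.update_self] at h1
  refine h1.trans (add_le_add_right ?_ _)
  have h2 : ∀ j ∈ Finset.univ.erase i,
      h (Function.update (fun i : Fin d => (X i : Poly d)) i P j) ≤ t := by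
    intro j hj
    rw [Function.update_of_ne (Finset.ne_of_mem_erase hj)]
    exact ht j
  have h3 := Finset.sum_le_card_nsmul _ _ _ h2
  rw [Finset.card_erase_of_mem (Finset.mem_univ i), Finset.card_univ, Fintype.card_fin,
    nsmul_eq_mul, Nat.cast_sub (Nat.succ_le_of_lt (Nat.pos_of_ne_zero (by
      rintro rfl
      exact i.elim0))), Nat.cast_one] at h3
  exact h3

/-- `h ≤ deg` if `h(x_i) ≤ 1` -/
theorem IsVal.le_totalDegree [NeZero d] {h : Poly d → ℝ} (hh : IsVal h) (h1 : HH h ≤ 1)
    (P : Poly d) : h P ≤ P.totalDegree := by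
  have h2 := compact_val_le hh zero_le_one (fun i => (compact_le_HH h i).trans h1) P
  rwa [one_mul] at h2

/-- differentiation increases a fat valuation by at most `d - 1` -/
theorem J1.pderiv_le [NeZero d] {h : Poly d → ℝ} (hh : h ∈ J1 d) (i : Fin d) {P : Poly d}
    (hP : pderiv i P ≠ 0) : h (pderiv i P) ≤ h P + ((d : ℝ) - 1) := by
  have h1 := compact_fat hh.1.2 (fun i => (compact_le_HH h i).trans hh.2.le) i hP
  rwa [mul_one] at h1

/-- lower bound -/
theorem J1.neg_le [NeZero d] {h : Poly d → ℝ} (hh : h ∈ J1 d) (P : Poly d) :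
    -((d : ℝ) - 1) * P.totalDegree ≤ h P := by
  have h1 : (1 : ℝ) ≤ d := by exact_mod_cast NeZero.one_le
  exact compact_lower hh.1.1 (by linarith) (fun i P hP => J1.pderiv_le hh i hP) _ P le_rfl

private lemma compact_continuous_HH [NeZero d] : Continuous (HH : (Poly d → ℝ) → ℝ) := by
  unfold HH
  exact Continuous.finset_sup'_apply _ fun i _ => continuous_apply _

private lemma compact_closed_val : IsClosed {h : Poly d → ℝ | IsVal h} := by
  have h1 : {h : Poly d → ℝ | IsVal h} = {h | h 0 = 0} ∩ ({h | ∀ c : ℂ, c ≠ 0 → h (C c) = 0} ∩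
      ({h | ∀ P Q : Poly d, P ≠ 0 → Q ≠ 0 → h (P * Q) = h P + h Q} ∩
        {h | ∀ P Q : Poly d, P ≠ 0 → Q ≠ 0 → P + Q ≠ 0 → h (P + Q) ≤ max (h P) (h Q)})) := by
    ext h
    exact ⟨fun H => ⟨H.zero, H.const, H.mul, H.add⟩, fun H => ⟨H.1, H.2.1, H.2.2.1, H.2.2.2⟩⟩
  rw [h1]
  refine (isClosed_eq (continuous_apply _) continuous_const).inter (IsClosed.inter ?_
    (IsClosed.inter ?_ ?_))
  · simp only [Set.ofPred_forall]
    exact isClosed_iInter fun c => isClosed_iInter fun _ =>
      isClosed_eq (continuous_apply _) continuous_const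
  · simp only [Set.ofPred_forall]
    exact isClosed_iInter fun P => isClosed_iInter fun Q => isClosed_iInter fun _ =>
      isClosed_iInter fun _ => isClosed_eq (continuous_apply (P * Q))
        (Continuous.add (f := fun h : Poly d → ℝ => h P) (g := fun h : Poly d → ℝ => h Q)
          (continuous_apply P) (continuous_apply Q))
  · simp only [Set.ofPred_forall]
    exact isClosed_iInter fun P => isClosed_iInter fun Q => isClosed_iInter fun _ =>
      isClosed_iInter fun _ => isClosed_iInter fun _ => isClosed_le (continuous_apply (P + Q))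
        (Continuous.max (f := fun h : Poly d → ℝ => h P) (g := fun h : Poly d → ℝ => h Q)
          (continuous_apply P) (continuous_apply Q))

private lemma compact_closed_fat : IsClosed {h : Poly d → ℝ | IsFat h} := by
  unfold IsFat
  simp only [Set.ofPred_forall]
  exact isClosed_iInter fun P => isClosed_iInter fun _ => isClosed_le (continuous_apply _)
    (continuous_finsetSum _ fun i _ => continuous_apply _)

theorem isClosed_J1 [NeZero d] : IsClosed (J1 d) := by
  have h1 : J1 d = ({h : Poly d → ℝ | IsVal h} ∩ {h : Poly d → ℝ | IsFat h}) ∩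
      {h : Poly d → ℝ | HH h = 1} := rfl
  rw [h1]
  exact (compact_closed_val.inter compact_closed_fat).inter
    (isClosed_eq compact_continuous_HH continuous_const)

theorem isCompact_J1 [NeZero d] : IsCompact (J1 d) := by
  have h1 : IsCompact (Set.pi Set.univ fun P : Poly d =>
      Set.Icc (-((d : ℝ) - 1) * P.totalDegree) (P.totalDegree : ℝ)) :=
    isCompact_univ_pi fun P => isCompact_Icc
  exact h1.of_isClosed_subset isClosed_J1 fun h hh P _ =>
    ⟨J1.neg_le hh P, hh.1.1.le_totalDegree hh.2.le P⟩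

/-- **Compactness of `J_1`** -/
theorem compactStatement (d : ℕ) [NeZero d] : CompactStatement d :=
  ⟨isCompact_J1, fun _ hh P => ⟨J1.neg_le hh P, hh.1.1.le_totalDegree hh.2.le P⟩⟩

/-- the trivial valuation and multiples: `J` is a cone -/
theorem smul_mem_J {h : Poly d → ℝ} (hh : h ∈ J d) {c : ℝ} (hc : 0 ≤ c) : c • h ∈ J d := by
  refine ⟨⟨?_, ?_, ?_, ?_⟩, ?_⟩
  · rw [Pi.smul_apply, hh.1.zero, smul_zero]
  · intro a ha
    rw [Pi.smul_apply, hh.1.const a ha, smul_zero]
  · intro P Q hP hQ
    rw [Pi.smul_apply, Pi.smul_apply, Pi.smul_apply, hh.1.mul P Q hP hQ, smul_add]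
  · intro P Q hP hQ hPQ
    rw [Pi.smul_apply, Pi.smul_apply, Pi.smul_apply, smul_eq_mul, smul_eq_mul, smul_eq_mul,
      ← mul_max_of_nonneg _ _ hc]
    exact mul_le_mul_of_nonneg_left (hh.1.add P Q hP hQ hPQ) hc
  · intro P hP
    simp only [Pi.smul_apply, smul_eq_mul]
    rw [← Finset.mul_sum]
    exact mul_le_mul_of_nonneg_left (hh.2 P hP) hc

/-- `J` is closed under nonzero limits and `H` is continuous -/
theorem continuous_HH [NeZero d] : Continuous (HH : (Poly d → ℝ) → ℝ) :=
  compact_continuous_HH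

/-- the action of an automorphism preserves `J` -/
theorem act_mem_J (φ : Poly d ≃ₐ[ℂ] Poly d) {h : Poly d → ℝ} (hh : h ∈ J d) :
    act φ h ∈ J d := by
  have hne : ∀ {P : Poly d}, P ≠ 0 → φ P ≠ 0 := fun {P} hP h0 =>
    hP ((map_eq_zero_iff φ φ.injective).1 h0)
  refine ⟨⟨?_, ?_, ?_, ?_⟩, ?_⟩
  · show h (φ 0) = 0
    rw [map_zero, hh.1.zero]
  · intro c hc
    show h (φ (C c)) = 0
    have h1 : φ (C c) = C c := φ.commutes c
    rw [h1, hh.1.const c hc]
  · intro P Q hP hQ
    show h (φ (P * Q)) = h (φ P) + h (φ Q)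
    rw [map_mul, hh.1.mul _ _ (hne hP) (hne hQ)]
  · intro P Q hP hQ hPQ
    show h (φ (P + Q)) ≤ max (h (φ P)) (h (φ Q))
    have h1 := hne hPQ
    rw [map_add] at h1 ⊢
    exact hh.1.add _ _ (hne hP) (hne hQ) h1
  · intro P hP
    show h (φ (jac P)) ≤ ∑ i, h (φ (P i))
    obtain ⟨c, hc, hc'⟩ := (MvPolynomial.isUnit_iff_eq_C_of_isReduced).1 (compact_isUnit_jac φ)
    have hc0 : c ≠ 0 := hc.ne_zero
    have hC0 : (C c : Poly d) ≠ 0 := (map_ne_zero_iff _ (C_injective _ _)).2 hc0
    have h1 := compact_jac_apply φ P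
    rw [hc'] at h1
    have h2 : jac (fun i => φ (P i)) ≠ 0 := by
      rw [h1]
      exact mul_ne_zero (hne hP) hC0
    have h3 := hh.2 _ h2
    rw [h1, hh.1.mul _ _ (hne hP) hC0, hh.1.const c hc0, add_zero] at h3
    exact h3

/-- if `H(h) ≤ 0` for `h ∈ J` then `h = 0` -/
theorem eq_zero_of_HH_le [NeZero d] {h : Poly d → ℝ} (hh : h ∈ J d) (h0 : HH h ≤ 0) : h = 0 := by
  have hX : ∀ i, h (X i) ≤ 0 := fun i => (compact_le_HH h i).trans h0
  funext P
  apply le_antisymm
  · have h1 := compact_val_le hh.1 le_rfl hX P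
    rwa [zero_mul] at h1
  · have h1 := compact_lower hh.1 le_rfl (fun i P hP => by
      have h2 := compact_fat hh.2 hX i hP
      rwa [mul_zero] at h2) _ P le_rfl
    rw [neg_zero, zero_mul] at h1
    exact h1

end Pool.Agent.DAE
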