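import Pool.Agent.DAE.X.NAbs

/-!
# The norm `sup_k h(D^k x) r^k` on a valued field with a derivation

`h` is an absolute value of residue characteristic 0, so the factorials of the Taylor
coefficients do not matter.
-/

set_option autoImplicit false

namespace Pool.Agent.DAE

variable {K : Type*} [Field K]

/-- the Taylor coefficients of `x` are bounded on the disc of radius `r` -/
def DBd (h : K → ℝ) (D : Derivation ℤ K K) (r : ℝ) (x : K) : Prop :=
  ∃ C, ∀ k : ℕ, h ((⇑D)^[k] x) * r ^ k ≤ C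

/-- sup norm of the Taylor series of `x` on the disc of radius `r` -/
noncomputable def dsup (h : K → ℝ) (D : Derivation ℤ K K) (r : ℝ) (x : K) : ℝ :=
  ⨆ k : ℕ, h ((⇑D)^[k] x) * r ^ k

/-- `n` is the largest index at which the norm is attained, strictly -/
def IsTop (h : K → ℝ) (D : Derivation ℤ K K) (r : ℝ) (x : K) (n : ℕ) : Prop :=
  h ((⇑D)^[n] x) * r ^ n = dsup h D r x ∧ ∀ k, n < k → h ((⇑D)^[k] x) * r ^ k < dsup h D r x

variable {h : K → ℝ} {D : Derivation ℤ K K} {r : ℝ} {x y : K}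

lemma DBd.le_dsup (hx : DBd h D r x) (k : ℕ) : h ((⇑D)^[k] x) * r ^ k ≤ dsup h D r x := by
  obtain ⟨C, hC⟩ := hx
  exact le_ciSup (f := fun k : ℕ => h ((⇑D)^[k] x) * r ^ k)
    ⟨C, by rintro _ ⟨k, rfl⟩; exact hC k⟩ k

lemma dsup_le {C : ℝ} (h1 : ∀ k : ℕ, h ((⇑D)^[k] x) * r ^ k ≤ C) : dsup h D r x ≤ C :=
  ciSup_le h1

lemma DBd.self_le (hx : DBd h D r x) : h x ≤ dsup h D r x := by
  simpa using hx.le_dsup 0

lemma iter_add (D : Derivation ℤ K K) (k : ℕ) (x y : K) :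
    (⇑D)^[k] (x + y) = (⇑D)^[k] x + (⇑D)^[k] y := by
  induction k generalizing x y with
  | zero => rfl
  | succ k ih => rw [Function.iterate_succ_apply, Function.iterate_succ_apply,
      Function.iterate_succ_apply, map_add, ih]

lemma iter_zero (D : Derivation ℤ K K) (k : ℕ) : (⇑D)^[k] (0 : K) = 0 := by
  induction k with
  | zero => rfl
  | succ k ih => rw [Function.iterate_succ_apply, map_zero, ih]

lemma iter_sum (D : Derivation ℤ K K) (k : ℕ) {ι : Type*} (s : Finset ι) (f : ι → K) :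
    (⇑D)^[k] (∑ i ∈ s, f i) = ∑ i ∈ s, (⇑D)^[k] (f i) := by
  classical
  induction s using Finset.induction_on with
  | empty => simpa using iter_zero D k
  | insert a s ha ih => rw [Finset.sum_insert ha, Finset.sum_insert ha, iter_add, ih]

/-- Leibniz rule for iterates -/
lemma iter_mul (D : Derivation ℤ K K) (n : ℕ) (x y : K) :
    (⇑D)^[n] (x * y) =
      ∑ i ∈ Finset.range (n + 1), (n.choose i : K) * ((⇑D)^[i] x * (⇑D)^[n - i] y) := by
  have key : ∀ n : ℕ, (⇑D)^[n] (x * y) =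
      ∑ p ∈ Finset.HasAntidiagonal.antidiagonal n, (n.choose p.1 : K) * ((⇑D)^[p.1] x * (⇑D)^[p.2] y) := by
    intro n
    induction n with
    | zero => simp
    | succ n ih =>
      rw [Function.iterate_succ_apply', ih, map_sum,
        Finset.sum_antidiagonal_choose_succ_mul
          (fun i j => (⇑D)^[i] x * (⇑D)^[j] y) n, ← Finset.sum_add_distrib]
      refine Finset.sum_congr rfl fun p hp => ?_
      have hp1 : p.1 + p.2 = n := Finset.HasAntidiagonal.mem_antidiagonal.1 hp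
      have hc : n.choose p.2 = n.choose p.1 := (Nat.choose_symm_of_eq_add hp1.symm).symm
      rw [hc, Derivation.leibniz, Derivation.leibniz, Derivation.map_natCast,
        Function.iterate_succ_apply', Function.iterate_succ_apply']
      simp only [smul_eq_mul]
      ring
  rw [key n, Finset.Nat.sum_antidiagonal_eq_sum_range_succ
    (fun i j => (n.choose i : K) * ((⇑D)^[i] x * (⇑D)^[j] y))]

lemma DBd.zero (hh : NAbs h) : DBd h D r 0 := ⟨0, fun k => by rw [iter_zero, hh.zero, zero_mul]⟩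

lemma dsup_zero (hh : NAbs h) : dsup h D r 0 = 0 := by
  have h1 : ∀ k : ℕ, h ((⇑D)^[k] (0 : K)) * r ^ k = 0 := fun k => by
    rw [iter_zero, hh.zero, zero_mul]
  unfold dsup
  simp only [h1, ciSup_const]

lemma dsup_nonneg (hh : NAbs h) (hr : 0 ≤ r) : 0 ≤ dsup h D r x :=
  Real.iSup_nonneg fun k => mul_nonneg (hh.nonneg _) (pow_nonneg hr k)

private lemma dnorm_add_term (hh : NAbs h) (hr : 0 ≤ r) (hx : DBd h D r x) (hy : DBd h D r y)
    (k : ℕ) : h ((⇑D)^[k] (x + y)) * r ^ k ≤ max (dsup h D r x) (dsup h D r y) := by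
  rw [iter_add]
  rcases le_max_iff.1 (hh.add ((⇑D)^[k] x) ((⇑D)^[k] y)) with h1 | h1
  · exact ((mul_le_mul_of_nonneg_right h1 (pow_nonneg hr k)).trans (hx.le_dsup k)).trans
      (le_max_left _ _)
  · exact ((mul_le_mul_of_nonneg_right h1 (pow_nonneg hr k)).trans (hy.le_dsup k)).trans
      (le_max_right _ _)

private lemma dnorm_sum_le (hh : NAbs h) {ι : Type*} {s : Finset ι} {f : ι → K} {c C : ℝ}
    (hc : 0 ≤ c) (hC : 0 ≤ C) (h1 : ∀ i ∈ s, h (f i) * c ≤ C) : h (∑ i ∈ s, f i) * c ≤ C := by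
  rcases hc.eq_or_lt with h2 | h2
  · rw [← h2, mul_zero]
    exact hC
  · rw [← le_div_iff₀ h2]
    exact hh.sum_le (div_nonneg hC hc) fun i hi => (le_div_iff₀ h2).2 (h1 i hi)

private lemma dnorm_sum_lt (hh : NAbs h) {ι : Type*} {s : Finset ι} {f : ι → K} {c C : ℝ}
    (hc : 0 < c) (hC : 0 < C) (h1 : ∀ i ∈ s, h (f i) * c < C) : h (∑ i ∈ s, f i) * c < C := by
  rw [← lt_div_iff₀ hc]
  exact hh.sum_lt (div_pos hC hc) fun i hi => (lt_div_iff₀ hc).2 (h1 i hi)

private lemma dnorm_term (hh : NAbs h) (hr : 0 ≤ r) {n i : ℕ} (hi : i ≤ n) :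
    h ((n.choose i : K) * ((⇑D)^[i] x * (⇑D)^[n - i] y)) * r ^ n
      = (h ((⇑D)^[i] x) * r ^ i) * (h ((⇑D)^[n - i] y) * r ^ (n - i)) := by
  rw [hh.nat_mul (Nat.choose_pos hi).ne', hh.mul]
  have h1 : r ^ n = r ^ i * r ^ (n - i) := by
    rw [← pow_add, Nat.add_sub_cancel' hi]
  rw [h1]
  ring

private lemma dnorm_mul_term (hh : NAbs h) (hr : 0 ≤ r) (hx : DBd h D r x) (hy : DBd h D r y)
    (n : ℕ) : h ((⇑D)^[n] (x * y)) * r ^ n ≤ dsup h D r x * dsup h D r y := by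
  rw [iter_mul]
  refine dnorm_sum_le hh (pow_nonneg hr n) (mul_nonneg (dsup_nonneg hh hr) (dsup_nonneg hh hr)) ?_
  intro i hi
  rw [dnorm_term hh hr (Nat.lt_succ_iff.1 (Finset.mem_range.1 hi))]
  exact mul_le_mul (hx.le_dsup _) (hy.le_dsup _)
    (mul_nonneg (hh.nonneg _) (pow_nonneg hr _)) (dsup_nonneg hh hr)

lemma DBd.add (hh : NAbs h) (hr : 0 ≤ r) (hx : DBd h D r x) (hy : DBd h D r y) :
    DBd h D r (x + y) := ⟨_, dnorm_add_term hh hr hx hy⟩

lemma dsup_add_le (hh : NAbs h) (hr : 0 ≤ r) (hx : DBd h D r x) (hy : DBd h D r y) :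
    dsup h D r (x + y) ≤ max (dsup h D r x) (dsup h D r y) :=
  dsup_le (dnorm_add_term hh hr hx hy)

lemma DBd.mul (hh : NAbs h) (hr : 0 ≤ r) (hx : DBd h D r x) (hy : DBd h D r y) :
    DBd h D r (x * y) := ⟨_, dnorm_mul_term hh hr hx hy⟩

private lemma dnorm_deriv_eq (hr : 0 < r) (k : ℕ) :
    h ((⇑D)^[k] (D x)) * r ^ k = r⁻¹ * (h ((⇑D)^[k + 1] x) * r ^ (k + 1)) := by
  rw [Function.iterate_succ_apply, pow_succ]
  field_simp

private lemma dnorm_deriv_term (hr : 0 < r) (hx : DBd h D r x) (k : ℕ) :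
    h ((⇑D)^[k] (D x)) * r ^ k ≤ r⁻¹ * dsup h D r x := by
  rw [dnorm_deriv_eq hr]
  exact mul_le_mul_of_nonneg_left (hx.le_dsup _) (inv_nonneg.2 hr.le)

lemma DBd.deriv (hr : 0 < r) (hx : DBd h D r x) : DBd h D r (D x) :=
  ⟨_, dnorm_deriv_term hr hx⟩

/-- `|D x| ≤ r⁻¹ |x|` for the sup norm -/
lemma dsup_deriv_le (hr : 0 < r) (hx : DBd h D r x) :
    dsup h D r (D x) ≤ r⁻¹ * dsup h D r x :=
  dsup_le (dnorm_deriv_term hr hx)

/-- constants -/
lemma dsup_of_deriv_eq_zero (hh : NAbs h) (hx : D x = 0) :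
    DBd h D r x ∧ dsup h D r x = h x := by
  have h1 : ∀ k : ℕ, h ((⇑D)^[k] x) * r ^ k ≤ h x := by
    intro k
    cases k with
    | zero => simp
    | succ k =>
      rw [Function.iterate_succ_apply, hx, iter_zero, hh.zero, zero_mul]
      exact hh.nonneg x
  have h2 : DBd h D r x := ⟨_, h1⟩
  exact ⟨h2, le_antisymm (dsup_le h1) h2.self_le⟩

private lemma dnorm_exists_bot (hh : NAbs h) (hx : DBd h D r x) (h0 : x ≠ 0) {s : ℝ} (hs : 0 < s)
    (hsr : s < r) : ∃ k : ℕ, (∀ j, h ((⇑D)^[j] x) * s ^ j ≤ h ((⇑D)^[k] x) * s ^ k) ∧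
      ∀ j, j < k → h ((⇑D)^[j] x) * s ^ j < h ((⇑D)^[k] x) * s ^ k := by
  classical
  have hr : 0 < r := hs.trans hsr
  have hq0 : 0 ≤ s / r := (div_pos hs hr).le
  have hq1 : s / r < 1 := (div_lt_one hr).2 hsr
  have hle : ∀ j : ℕ, h ((⇑D)^[j] x) * s ^ j ≤ dsup h D r x * (s / r) ^ j := by
    intro j
    have h1 : h ((⇑D)^[j] x) * s ^ j = (h ((⇑D)^[j] x) * r ^ j) * (s / r) ^ j := by
      rw [div_pow]
      have : r ^ j ≠ 0 := (pow_pos hr j).ne'
      field_simp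
    rw [h1]
    exact mul_le_mul_of_nonneg_right (hx.le_dsup j) (pow_nonneg hq0 j)
  have ht : Filter.Tendsto (fun j : ℕ => dsup h D r x * (s / r) ^ j) Filter.atTop (nhds 0) := by
    have := (tendsto_pow_atTop_nhds_zero_of_lt_one hq0 hq1).const_mul (dsup h D r x)
    simpa using this
  have hpos : 0 < h x := hh.pos h0
  obtain ⟨N, hN⟩ := Filter.eventually_atTop.1 (ht.eventually_lt_const hpos)
  have hex : ∃ k : ℕ, ∀ j, h ((⇑D)^[j] x) * s ^ j ≤ h ((⇑D)^[k] x) * s ^ k := by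
    obtain ⟨k, -, hk⟩ := Finset.exists_max_image (Finset.range (N + 1))
      (fun j => h ((⇑D)^[j] x) * s ^ j) ⟨0, Finset.mem_range.2 (Nat.succ_pos N)⟩
    refine ⟨k, fun j => ?_⟩
    rcases lt_or_ge j (N + 1) with h1 | h1
    · exact hk j (Finset.mem_range.2 h1)
    · have h2 := (hle j).trans_lt (hN j (by omega))
      have h3 := hk 0 (Finset.mem_range.2 (Nat.succ_pos N))
      have h4 : h x = h ((⇑D)^[0] x) * s ^ 0 := by simp
      exact (h2.le.trans h4.le).trans h3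
  refine ⟨Nat.find hex, Nat.find_spec hex, fun j hj => ?_⟩
  have h1 := Nat.find_min hex hj
  push Not at h1
  obtain ⟨i, hi⟩ := h1
  exact hi.trans_le (Nat.find_spec hex i)

private lemma dnorm_le_mul (hh : NAbs h) (hx : DBd h D r x) (hy : DBd h D r y) (hx0 : x ≠ 0)
    (hy0 : y ≠ 0) (hxy : DBd h D r (x * y)) {s : ℝ} (hs : 0 < s) (hsr : s < r) (k l : ℕ) :
    (h ((⇑D)^[k] x) * s ^ k) * (h ((⇑D)^[l] y) * s ^ l) ≤ dsup h D r (x * y) := by
  obtain ⟨k0, hk0, hk1⟩ := dnorm_exists_bot hh hx hx0 hs hsr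
  obtain ⟨l0, hl0, hl1⟩ := dnorm_exists_bot hh hy hy0 hs hsr
  have hnx : ∀ j, 0 ≤ h ((⇑D)^[j] x) * s ^ j := fun j => mul_nonneg (hh.nonneg _) (pow_nonneg hs.le _)
  have hny : ∀ j, 0 ≤ h ((⇑D)^[j] y) * s ^ j := fun j => mul_nonneg (hh.nonneg _) (pow_nonneg hs.le _)
  have hpx : 0 < h ((⇑D)^[k0] x) * s ^ k0 := by
    have h1 := hk0 0
    simp only [Function.iterate_zero, id_eq, pow_zero, mul_one] at h1
    exact (hh.pos hx0).trans_le h1
  have hpy : 0 < h ((⇑D)^[l0] y) * s ^ l0 := by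
    have h1 := hl0 0
    simp only [Function.iterate_zero, id_eq, pow_zero, mul_one] at h1
    exact (hh.pos hy0).trans_le h1
  have hsn : 0 < s ^ (k0 + l0) := pow_pos hs _
  have hmem : k0 ∈ Finset.range (k0 + l0 + 1) := Finset.mem_range.2 (by omega)
  have hdom : h (∑ i ∈ Finset.range (k0 + l0 + 1), ((k0 + l0).choose i : K) *
      ((⇑D)^[i] x * (⇑D)^[k0 + l0 - i] y))
      = h (((k0 + l0).choose k0 : K) * ((⇑D)^[k0] x * (⇑D)^[k0 + l0 - k0] y)) := by
    refine hh.sum_eq_of_dominated (f := fun i => ((k0 + l0).choose i : K) *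
      ((⇑D)^[i] x * (⇑D)^[k0 + l0 - i] y)) hmem fun j hj hjk => ?_
    have hj1 : j ≤ k0 + l0 := Nat.lt_succ_iff.1 (Finset.mem_range.1 hj)
    refine lt_of_mul_lt_mul_right ?_ hsn.le
    rw [dnorm_term hh hs.le hj1, dnorm_term hh hs.le (Nat.le_add_right k0 l0),
      Nat.add_sub_cancel_left]
    rcases lt_or_gt_of_ne hjk with h1 | h1
    · exact mul_lt_mul_of_lt_of_le_of_nonneg_of_pos (hk1 j h1) (hl0 _) (hnx j) hpy
    · exact (mul_le_mul_of_nonneg_right (hk0 j) (hny _)).trans_lt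
        (mul_lt_mul_of_pos_left (hl1 _ (by omega)) hpx)
  have h1 : (h ((⇑D)^[k0] x) * s ^ k0) * (h ((⇑D)^[l0] y) * s ^ l0)
      = h ((⇑D)^[k0 + l0] (x * y)) * s ^ (k0 + l0) := by
    rw [iter_mul, hdom, dnorm_term hh hs.le (Nat.le_add_right k0 l0), Nat.add_sub_cancel_left]
  calc (h ((⇑D)^[k] x) * s ^ k) * (h ((⇑D)^[l] y) * s ^ l)
      ≤ (h ((⇑D)^[k0] x) * s ^ k0) * (h ((⇑D)^[l0] y) * s ^ l0) :=
        mul_le_mul (hk0 k) (hl0 l) (hny l) (hnx k0)
    _ = h ((⇑D)^[k0 + l0] (x * y)) * s ^ (k0 + l0) := h1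
    _ ≤ h ((⇑D)^[k0 + l0] (x * y)) * r ^ (k0 + l0) :=
        mul_le_mul_of_nonneg_left (pow_le_pow_left₀ hs.le hsr.le _) (hh.nonneg _)
    _ ≤ dsup h D r (x * y) := hxy.le_dsup _

/-- **Gauss lemma: the sup norm is multiplicative.** -/
theorem dsup_mul (hh : NAbs h) (hr : 0 < r) (hx : DBd h D r x) (hy : DBd h D r y) :
    dsup h D r (x * y) = dsup h D r x * dsup h D r y := by
  refine le_antisymm (dsup_le (dnorm_mul_term hh hr.le hx hy)) ?_
  rcases eq_or_ne x 0 with hx0 | hx0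
  · rw [hx0, dsup_zero hh, zero_mul]
    exact dsup_nonneg hh hr.le
  rcases eq_or_ne y 0 with hy0 | hy0
  · rw [hy0, dsup_zero hh, mul_zero]
    exact dsup_nonneg hh hr.le
  have hxy := DBd.mul hh hr.le hx hy
  have key : ∀ k l : ℕ, (h ((⇑D)^[k] x) * r ^ k) * (h ((⇑D)^[l] y) * r ^ l)
      ≤ dsup h D r (x * y) := by
    intro k l
    have hc : Filter.Tendsto (fun s : ℝ => (h ((⇑D)^[k] x) * s ^ k) * (h ((⇑D)^[l] y) * s ^ l))
        (nhdsWithin r (Set.Iio r)) (nhds ((h ((⇑D)^[k] x) * r ^ k) * (h ((⇑D)^[l] y) * r ^ l))) := by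
      refine (Continuous.tendsto ?_ r).mono_left nhdsWithin_le_nhds
      fun_prop
    refine le_of_tendsto hc ?_
    filter_upwards [Ioo_mem_nhdsLT hr] with s hs
    exact dnorm_le_mul hh hx hy hx0 hy0 hxy hs.1 hs.2 k l
  have h2 : ∀ l : ℕ, dsup h D r x * (h ((⇑D)^[l] y) * r ^ l) ≤ dsup h D r (x * y) := by
    intro l
    unfold dsup
    rw [Real.iSup_mul_of_nonneg (mul_nonneg (hh.nonneg _) (pow_nonneg hr.le _))]
    exact ciSup_le fun k => key k l
  have h3 : dsup h D r x * (⨆ l : ℕ, h ((⇑D)^[l] y) * r ^ l) ≤ dsup h D r (x * y) := by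
    rw [Real.mul_iSup_of_nonneg (dsup_nonneg hh hr.le)]
    exact ciSup_le h2
  exact h3

/-- the sup norm on a ring of bounded elements is an absolute value -/
theorem nabs_dsup (hh : NAbs h) (hr : 0 < r) {A : Type*} [CommRing A] (i : A →+* K)
    (hi : Function.Injective i) (hb : ∀ a, DBd h D r (i a)) : NAbs fun a => dsup h D r (i a) where
  nonneg a := dsup_nonneg hh hr.le
  eq_zero a ha := by
    have h1 : h (i a) ≤ 0 := (hb a).self_le.trans ha.le
    exact (map_eq_zero_iff i hi).1 (hh.eq_zero _ (le_antisymm h1 (hh.nonneg _)))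
  zero := by
    rw [map_zero]
    exact dsup_zero hh
  mul a b := by
    rw [map_mul]
    exact dsup_mul hh hr (hb a) (hb b)
  add a b := by
    rw [map_add]
    exact dsup_add_le hh hr.le (hb a) (hb b)
  nat n hn := by
    rw [map_natCast, (dsup_of_deriv_eq_zero hh (Derivation.map_natCast D n)).2]
    exact hh.nat n hn

private lemma IsTop.dnorm_pos (hh : NAbs h) (hr : 0 < r) {n : ℕ} (hn : IsTop h D r x n) :
    0 < dsup h D r x :=
  lt_of_le_of_lt (mul_nonneg (hh.nonneg _) (pow_nonneg hr.le _)) (hn.2 (n + 1) (Nat.lt_succ_self n))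

/-- top indices add up -/
theorem IsTop.mul (hh : NAbs h) (hr : 0 < r) (hx : DBd h D r x) (hy : DBd h D r y) {n m : ℕ}
    (hn : IsTop h D r x n) (hm : IsTop h D r y m) : IsTop h D r (x * y) (n + m) := by
  have hpx := hn.dnorm_pos hh hr
  have hpy := hm.dnorm_pos hh hr
  have hnx : ∀ j, 0 ≤ h ((⇑D)^[j] x) * r ^ j := fun j => mul_nonneg (hh.nonneg _) (pow_nonneg hr.le _)
  have hny : ∀ j, 0 ≤ h ((⇑D)^[j] y) * r ^ j := fun j => mul_nonneg (hh.nonneg _) (pow_nonneg hr.le _)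
  have hlt : ∀ i j : ℕ, n < i ∨ m < j → (h ((⇑D)^[i] x) * r ^ i) * (h ((⇑D)^[j] y) * r ^ j)
      < dsup h D r x * dsup h D r y := by
    intro i j hij
    rcases hij with h1 | h1
    · exact mul_lt_mul_of_lt_of_le_of_nonneg_of_pos (hn.2 i h1) (hy.le_dsup j) (hnx i) hpy
    · exact (mul_le_mul_of_nonneg_right (hx.le_dsup i) (hny j)).trans_lt
        (mul_lt_mul_of_pos_left (hm.2 j h1) hpx)
  refine ⟨?_, fun k hk => ?_⟩
  · rw [dsup_mul hh hr hx hy]
    have hmem : n ∈ Finset.range (n + m + 1) := Finset.mem_range.2 (by omega)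
    have hdom : h (∑ i ∈ Finset.range (n + m + 1), ((n + m).choose i : K) *
        ((⇑D)^[i] x * (⇑D)^[n + m - i] y))
        = h (((n + m).choose n : K) * ((⇑D)^[n] x * (⇑D)^[n + m - n] y)) := by
      refine hh.sum_eq_of_dominated (f := fun i => ((n + m).choose i : K) *
        ((⇑D)^[i] x * (⇑D)^[n + m - i] y)) hmem fun j hj hjk => ?_
      have hj1 : j ≤ n + m := Nat.lt_succ_iff.1 (Finset.mem_range.1 hj)
      refine lt_of_mul_lt_mul_right ?_ (pow_pos hr (n + m)).le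
      rw [dnorm_term hh hr.le hj1, dnorm_term hh hr.le (Nat.le_add_right n m),
        Nat.add_sub_cancel_left, hn.1, hm.1]
      exact hlt j (n + m - j) (by omega)
    rw [iter_mul, hdom, dnorm_term hh hr.le (Nat.le_add_right n m), Nat.add_sub_cancel_left,
      hn.1, hm.1]
  · rw [dsup_mul hh hr hx hy, iter_mul]
    refine dnorm_sum_lt hh (pow_pos hr k) (mul_pos hpx hpy) fun i hi => ?_
    rw [dnorm_term hh hr.le (Nat.lt_succ_iff.1 (Finset.mem_range.1 hi))]
    have hi1 := Finset.mem_range.1 hi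
    exact hlt i (k - i) (by omega)

/-- top indices exist for elements killed by a power of `D` -/
theorem exists_isTop (hh : NAbs h) (hr : 0 < r) (hx : x ≠ 0) (hn : ∃ n : ℕ, (⇑D)^[n] x = 0) :
    DBd h D r x ∧ ∃ n, IsTop h D r x n := by
  classical
  obtain ⟨n, hn⟩ := hn
  have hz : ∀ k, n ≤ k → h ((⇑D)^[k] x) * r ^ k = 0 := by
    intro k hk
    obtain ⟨j, rfl⟩ := Nat.exists_eq_add_of_le' hk
    rw [Function.iterate_add_apply, hn, iter_zero, hh.zero, zero_mul]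
  have hn0 : 0 < n := by
    rcases Nat.eq_zero_or_pos n with h1 | h1
    · rw [h1] at hn
      exact absurd hn hx
    · exact h1
  obtain ⟨k1, hk1, hmax⟩ := Finset.exists_max_image (Finset.range n)
    (fun j => h ((⇑D)^[j] x) * r ^ j) ⟨0, Finset.mem_range.2 hn0⟩
  have hle : ∀ k, h ((⇑D)^[k] x) * r ^ k ≤ h ((⇑D)^[k1] x) * r ^ k1 := by
    intro k
    rcases lt_or_ge k n with h1 | h1
    · exact hmax k (Finset.mem_range.2 h1)
    · rw [hz k h1]
      exact mul_nonneg (hh.nonneg _) (pow_nonneg hr.le _)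
  have hb : DBd h D r x := ⟨_, hle⟩
  have hs : dsup h D r x = h ((⇑D)^[k1] x) * r ^ k1 := le_antisymm (dsup_le hle) (hb.le_dsup k1)
  have hpos : 0 < dsup h D r x := (hh.pos hx).trans_le hb.self_le
  refine ⟨hb, ?_⟩
  set S := (Finset.range n).filter (fun k => h ((⇑D)^[k] x) * r ^ k = dsup h D r x) with hS
  have hne : S.Nonempty := ⟨k1, Finset.mem_filter.2 ⟨hk1, hs.symm⟩⟩
  refine ⟨S.max' hne, (Finset.mem_filter.1 (S.max'_mem hne)).2, fun k hk => ?_⟩
  rcases lt_or_ge k n with h1 | h1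
  · refine lt_of_le_of_ne (hb.le_dsup k) fun h2 => ?_
    exact absurd (S.le_max' k (Finset.mem_filter.2 ⟨Finset.mem_range.2 h1, h2⟩)) (not_le.2 hk)
  · rw [hz k h1]
    exact hpos

lemma IsTop.unique {n m : ℕ} (hn : IsTop h D r x n) (hm : IsTop h D r x m) : n = m := by
  rcases lt_trichotomy n m with h1 | h1 | h1
  · exact absurd hm.1 (hn.2 m h1).ne
  · exact h1
  · exact absurd hn.1 (hm.2 n h1).ne

/-- if the top index is positive then `|D x| = r⁻¹ |x|` -/
theorem IsTop.dsup_deriv (hh : NAbs h) (hr : 0 < r) (hx : DBd h D r x) {n : ℕ}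
    (hn : IsTop h D r x n) (h1 : 1 ≤ n) : dsup h D r (D x) = r⁻¹ * dsup h D r x := by
  refine le_antisymm (dsup_deriv_le hr hx) ?_
  obtain ⟨k, rfl⟩ : ∃ k, n = k + 1 := ⟨n - 1, by omega⟩
  rw [← hn.1, ← dnorm_deriv_eq hr]
  exact (DBd.deriv hr hx).le_dsup k

/-- if some derivative of positive order attains the norm then the top index is positive -/
theorem IsTop.pos {n k : ℕ} (hn : IsTop h D r x n) (hk : 1 ≤ k)
    (h1 : h ((⇑D)^[k] x) * r ^ k = dsup h D r x) : 1 ≤ n := by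
  by_contra h2
  have h3 := hn.2 k (by omega)
  exact h3.ne h1

/-- the norm does not decrease with the radius -/
theorem dsup_mono (hh : NAbs h) {r' : ℝ} (hr : 0 ≤ r) (hr' : r ≤ r') (hx : DBd h D r' x) :
    DBd h D r x ∧ dsup h D r x ≤ dsup h D r' x := by
  have h1 : ∀ k : ℕ, h ((⇑D)^[k] x) * r ^ k ≤ dsup h D r' x := fun k =>
    (mul_le_mul_of_nonneg_left (pow_le_pow_left₀ hr hr' k) (hh.nonneg _)).trans (hx.le_dsup k)
  exact ⟨⟨_, h1⟩, dsup_le h1⟩

end Pool.Agent.DAE
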