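import Pool.Agent.DAE.R.GaussC

/-!
# Decomposition of a polynomial into monomials in the upper variables
-/

set_option autoImplicit false

namespace Pool.Agent.DAE

open MvPolynomial Pool.Agent.H17Dyn

variable {d : ℕ}

/-- `F` is a combination of monomials in the variables `j > l` with coefficients from `Q`,
which involve only the variables `j ≤ l` -/
def Decomp (l : Fin d) (Q : Set (Poly d)) (F : Poly d) : Prop :=
  ∃ (Γ : Finset (Fin d →₀ ℕ)) (f : (Fin d →₀ ℕ) → Poly d),
    (∀ γ ∈ Γ, ∀ j, j ≤ l → γ j = 0) ∧ (∀ γ ∈ Γ, f γ ∈ Low l ∧ f γ ∈ Q) ∧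
    F = ∑ γ ∈ Γ, f γ * monomial γ 1

private lemma decomp_low {l : Fin d} {s : Fin d →₀ ℕ} (hs : ∀ j, l < j → s j = 0) (a : ℂ) :
    (monomial s a : Poly d) ∈ Low l := by
  rw [monomial_eq]
  refine Subalgebra.mul_mem _ (Subalgebra.algebraMap_mem _ a) ?_
  refine Subalgebra.prod_mem _ fun j hj => Subalgebra.pow_mem _ (X_mem_supported.2 ?_) _
  show j ≤ l
  by_contra h
  exact (Finsupp.mem_support_iff.1 hj) (hs j (not_le.1 h))

theorem exists_decomp (l : Fin d) (F : Poly d) :
    ∃ Q : Finset (Poly d), (∀ q ∈ Q, q ∈ Low l ∧ q ≠ 0) ∧ Decomp l (Q : Set (Poly d)) F := by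
  classical
  obtain ⟨up, hup⟩ : ∃ up : (Fin d →₀ ℕ) → (Fin d →₀ ℕ),
      up = fun e => e.filter fun j => l < j := ⟨_, rfl⟩
  obtain ⟨lo, hlo⟩ : ∃ lo : (Fin d →₀ ℕ) → (Fin d →₀ ℕ),
      lo = fun e => e.filter fun j => ¬ l < j := ⟨_, rfl⟩
  have hsum : ∀ e, up e + lo e = e := by
    intro e
    rw [hup, hlo]
    exact Finsupp.filter_add_filter_not e _
  have hlo0 : ∀ e j, l < j → lo e j = 0 := by
    intro e j hj
    rw [hlo]
    exact Finsupp.filter_apply_neg _ _ (not_not.2 hj)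
  have hup0 : ∀ e j, j ≤ l → up e j = 0 := by
    intro e j hj
    rw [hup]
    exact Finsupp.filter_apply_neg _ _ (not_lt.2 hj)
  obtain ⟨f, hf⟩ : ∃ f : (Fin d →₀ ℕ) → Poly d,
      f = fun γ => ∑ e ∈ F.support with up e = γ, monomial (lo e) (coeff e F) := ⟨_, rfl⟩
  have hfl : ∀ γ, f γ ∈ Low l := by
    intro γ
    rw [hf]
    exact Subalgebra.sum_mem _ fun e _ => decomp_low (hlo0 e) _
  refine ⟨(F.support.image up).image f, ?_, F.support.image up, f, ?_, ?_, ?_⟩
  · intro q hq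
    obtain ⟨γ, hγ, rfl⟩ := Finset.mem_image.1 hq
    obtain ⟨e₀, he₀, rfl⟩ := Finset.mem_image.1 hγ
    refine ⟨hfl _, fun h0 => ?_⟩
    have h1 := congrArg (coeff (lo e₀)) h0
    rw [hf, coeff_zero] at h1
    simp only [coeff_sum, coeff_monomial] at h1
    rw [Finset.sum_eq_single e₀] at h1
    · rw [if_pos rfl] at h1
      exact (mem_support_iff.1 he₀) h1
    · intro e he hne
      rw [if_neg]
      intro h2
      apply hne
      rw [← hsum e, ← hsum e₀, h2, (Finset.mem_filter.1 he).2]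
    · intro h2
      exact (h2 (Finset.mem_filter.2 ⟨he₀, rfl⟩)).elim
  · intro γ hγ j hj
    obtain ⟨e, -, rfl⟩ := Finset.mem_image.1 hγ
    exact hup0 e j hj
  · intro γ hγ
    exact ⟨hfl γ, Finset.mem_coe.2 (Finset.mem_image_of_mem _ hγ)⟩
  · conv_lhs => rw [F.as_sum]
    rw [← Finset.sum_fiberwise_of_maps_to (t := F.support.image up) (g := up)
      fun e he => Finset.mem_image_of_mem _ he]
    refine Finset.sum_congr rfl fun γ _ => ?_
    rw [hf, Finset.sum_mul]
    refine Finset.sum_congr rfl fun e he => ?_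
    rw [monomial_mul, mul_one, ← (Finset.mem_filter.1 he).2, add_comm (lo e), hsum]

theorem Decomp.mono {l : Fin d} {Q Q' : Set (Poly d)} {F : Poly d} (hF : Decomp l Q F)
    (h : Q ⊆ Q') : Decomp l Q' F := by
  obtain ⟨Γ, f, h1, h2, h3⟩ := hF
  exact ⟨Γ, f, h1, fun γ hγ => ⟨(h2 γ hγ).1, h (h2 γ hγ).2⟩, h3⟩

theorem Decomp.map {l : Fin d} {Q : Set (Poly d)} {F : Poly d} (hF : Decomp l Q F)
    (τ : Poly d →ₐ[ℂ] Poly d) (h1 : ∀ j, l < j → τ (X j) = X j)
    (h2 : ∀ G, G ∈ Low l → τ G ∈ Low l) : Decomp l (τ '' Q) (τ F) := by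
  obtain ⟨Γ, f, h3, h4, rfl⟩ := hF
  refine ⟨Γ, fun γ => τ (f γ), h3,
    fun γ hγ => ⟨h2 _ (h4 γ hγ).1, Set.mem_image_of_mem _ (h4 γ hγ).2⟩, ?_⟩
  rw [map_sum]
  refine Finset.sum_congr rfl fun γ hγ => ?_
  rw [map_mul]
  congr 1
  rw [monomial_eq, map_mul, C_1, map_one, Finsupp.prod, map_prod]
  congr 1
  refine Finset.prod_congr rfl fun j hj => ?_
  rw [map_pow, h1]
  by_contra h
  exact (Finsupp.mem_support_iff.1 hj) (h3 γ hγ j (not_lt.1 h))

private lemma decomp_compAt_sum (i : Fin d) (m : ℕ) {ι' : Type*} (s : Finset ι')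
    (f : ι' → Poly d) : compAt i m (∑ a ∈ s, f a) = ∑ a ∈ s, compAt i m (f a) := by
  classical
  induction s using Finset.induction_on with
  | empty => rw [Finset.sum_empty, Finset.sum_empty, compAt_zero]
  | insert a s ha ih => rw [Finset.sum_insert ha, Finset.sum_insert ha, compAt_add, ih]

private lemma decomp_compAt {l i : Fin d} (hi : l < i) (m : ℕ) {G : Poly d} (hG : G ∈ Low l)
    (γ : Fin d →₀ ℕ) :
    compAt i m (G * monomial γ 1) = if γ i = m then G * monomial γ 1 else 0 := by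
  classical
  have key : ∀ e, coeff e (G * monomial γ (1 : ℂ)) ≠ 0 → e i = γ i := by
    intro e he
    rw [coeff_mul_monomial'] at he
    by_cases h1 : γ ≤ e
    · rw [if_pos h1, mul_one] at he
      have h2 : (e - γ) i = 0 := by
        by_contra h3
        have h4 : i ∈ G.vars := (mem_vars_iff_mem_support i).2 ⟨e - γ, mem_support_iff.2 he,
          Finsupp.mem_support_iff.2 h3⟩
        have h5 : i ≤ l := (mem_supported.1 hG) (Finset.mem_coe.2 h4)
        exact absurd hi (not_lt.2 h5)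
      rw [Finsupp.tsub_apply] at h2
      exact le_antisymm (Nat.sub_eq_zero_iff_le.1 h2) (h1 i)
    · rw [if_neg h1] at he
      exact absurd rfl he
  ext e
  rw [coeff_compAt]
  by_cases h1 : γ i = m
  · rw [if_pos h1]
    split_ifs with h2
    · rfl
    · by_contra h3
      exact h2 ((key e (Ne.symm h3)).trans h1)
  · rw [if_neg h1, coeff_zero]
    split_ifs with h2
    · by_contra h3
      exact h1 ((key e h3).symm.trans h2)
    · rfl

/-- with the Gauss property in the variables `j > l` the value of `F(y)` is at least the value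
of every term of a decomposition -/
theorem Decomp.le {y : Fin d → Poly d} {l : Fin d} {h : Poly d → ℝ}
    (hg : ∀ i, l < i → GaussAt y i h) {F : Poly d} {Γ : Finset (Fin d →₀ ℕ)}
    {f : (Fin d →₀ ℕ) → Poly d} (h1 : ∀ γ ∈ Γ, ∀ j, j ≤ l → γ j = 0)
    (h2 : ∀ γ ∈ Γ, f γ ∈ Low l) (hF : F = ∑ γ ∈ Γ, f γ * monomial γ 1) {γ : Fin d →₀ ℕ}
    (hγ : γ ∈ Γ) : mv h (aeval y (f γ * monomial γ 1)) ≤ mv h (aeval y F) := by
  classical
  have key : ∀ T : Finset (Fin d), (∀ i ∈ T, l < i) →
      mv h (aeval y (∑ γ' ∈ Γ with (∀ i ∈ T, γ' i = γ i), f γ' * monomial γ' 1)) ≤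
        mv h (aeval y F) := by
    intro T
    induction T using Finset.induction_on with
    | empty =>
      intro _
      rw [hF, Finset.filter_true_of_mem fun γ' _ i hi => absurd hi (Finset.notMem_empty i)]
    | insert a T ha ih =>
      intro hT
      have h3 := ih fun i hi => hT i (Finset.mem_insert_of_mem hi)
      refine le_trans (le_of_eq ?_) ((hg a (hT a (Finset.mem_insert_self a T)) _ (γ a)).trans h3)
      congr 2
      rw [decomp_compAt_sum]
      have h4 : ∀ γ' ∈ Γ.filter (fun γ' => ∀ i ∈ T, γ' i = γ i),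
          compAt a (γ a) (f γ' * monomial γ' 1) =
            if γ' a = γ a then f γ' * monomial γ' 1 else 0 := by
        intro γ' hγ'
        exact decomp_compAt (hT a (Finset.mem_insert_self a T)) _
          (h2 γ' (Finset.mem_filter.1 hγ').1) γ'
      rw [Finset.sum_congr rfl h4, ← Finset.sum_filter, Finset.filter_filter]
      refine Finset.sum_congr ?_ fun _ _ => rfl
      ext γ'
      simp only [Finset.mem_filter, Finset.mem_insert, forall_eq_or_imp]
      tauto
  have h3 := key (Finset.univ.filter fun i => l < i) fun i hi => (Finset.mem_filter.1 hi).2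
  have h4 : Γ.filter (fun γ' => ∀ i ∈ Finset.univ.filter (fun i => l < i), γ' i = γ i) =
      {γ} := by
    ext γ'
    rw [Finset.mem_filter, Finset.mem_singleton]
    constructor
    · rintro ⟨h5, h6⟩
      ext i
      by_cases hi : l < i
      · exact h6 i (Finset.mem_filter.2 ⟨Finset.mem_univ i, hi⟩)
      · rw [h1 γ' h5 i (not_lt.1 hi), h1 γ hγ i (not_lt.1 hi)]
    · rintro rfl
      exact ⟨hγ, fun i _ => rfl⟩
  rw [h4, Finset.sum_singleton] at h3
  exact h3

end Pool.Agent.DAE
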