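import Pool.Agent.DAE.R.Basic

/-!
# Frames: algebraic facts
-/

set_option autoImplicit false

namespace Pool.Agent.DAE

open MvPolynomial Pool.Agent.H17Dyn

variable {d : ℕ} {y : Fin d → Poly d}

/-- the subalgebra `ℂ[y_1, ..., y_d]` of the field of rational functions -/
noncomputable def BB (y : Fin d → Poly d) : Subalgebra ℂ (KK d) :=
  Algebra.adjoin ℂ (Set.range fun j => (ι (y j) : KK d))

/-- the subfield `ℂ(y_1, ..., y_d)` of the field of rational functions -/
noncomputable def FF (y : Fin d → Poly d) : IntermediateField ℂ (KK d) :=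
  IntermediateField.adjoin ℂ (Set.range fun j => (ι (y j) : KK d))

private lemma frameA_aeval (F : Poly d) :
    aeval (fun j => (ι (y j) : KK d)) F = ι (aeval y F) :=
  MvPolynomial.aeval_algebraMap_apply (KK d) y F

/-- elements of `ℂ[y]` are the `F(y)` -/
lemma mem_BB {x : KK d} : x ∈ BB y ↔ ∃ F : Poly d, x = ι (aeval y F) := by
  unfold BB
  rw [Algebra.adjoin_range_eq_range_aeval, AlgHom.mem_range]
  constructor
  · rintro ⟨F, hF⟩
    exact ⟨F, by rw [← hF, frameA_aeval]⟩
  · rintro ⟨F, hF⟩
    exact ⟨F, by rw [hF, frameA_aeval]⟩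

/-- elements of `ℂ(y)` are quotients -/
lemma mem_FF {x : KK d} : x ∈ FF y ↔ ∃ F G : Poly d, x = ι (aeval y F) / ι (aeval y G) := by
  unfold FF
  rw [IntermediateField.mem_adjoin_range_iff]
  simp only [frameA_aeval]

private lemma frameA_integral (hy : Frame y) {R' T : Type*} [CommRing R'] [CommRing T]
    [Algebra R' T] (f : Poly d →+* R') (g : Poly d →+* T)
    (h : (algebraMap R' T).comp f = g.comp (aeval y : Poly d →ₐ[ℂ] Poly d).toRingHom)
    (a : Poly d) : IsIntegral R' (g a) := by
  obtain ⟨p, hp, h0⟩ := hy a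
  refine ⟨p.map f, hp.map f, ?_⟩
  rw [Polynomial.eval₂_map, h, ← Polynomial.hom_eval₂, h0, map_zero]

/-- parameters are algebraically independent -/
theorem Frame.algInd (hy : Frame y) : AlgebraicIndependent ℂ y := by
  have hmem : ∀ F : Poly d, (aeval y : Poly d →ₐ[ℂ] Poly d).toRingHom F ∈
      Algebra.adjoin ℂ (Set.range y) := fun F => by
    rw [Algebra.adjoin_range_eq_range_aeval]
    exact ⟨F, rfl⟩
  have hint : Algebra.IsIntegral (Algebra.adjoin ℂ (Set.range y)) (Poly d) := by
    refine ⟨fun a => ?_⟩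
    exact frameA_integral hy ((aeval y : Poly d →ₐ[ℂ] Poly d).toRingHom.codRestrict
      (Algebra.adjoin ℂ (Set.range y)) hmem) (RingHom.id _) (RingHom.ext fun F => rfl) a
  have halg : Algebra.IsAlgebraic (Algebra.adjoin ℂ (Set.range y)) (Poly d) := inferInstance
  refine (Algebra.IsAlgebraic.isTranscendenceBasis_of_lift_le_trdeg_of_finite ℂ y ?_).1
  rw [MvPolynomial.trdeg_of_isDomain]
  simp

lemma Frame.aeval_ne_zero (hy : Frame y) {F : Poly d} (hF : F ≠ 0) : aeval y F ≠ 0 := fun h =>
  hF (hy.algInd (by rw [h, map_zero]))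

/-- rational functions are algebraic over `ℂ(y)` -/
theorem Frame.isAlgebraic (hy : Frame y) : Algebra.IsAlgebraic (FF y) (KK d) := by
  have hmem : ∀ F : Poly d, (ι.comp (aeval y : Poly d →ₐ[ℂ] Poly d).toRingHom) F ∈ FF y :=
    fun F => mem_FF.2 ⟨F, 1, by
      rw [map_one, map_one, div_one]
      rfl⟩
  have hint : ∀ a : Poly d, IsIntegral (FF y) (ι a : KK d) := fun a =>
    frameA_integral hy ((ι.comp (aeval y : Poly d →ₐ[ℂ] Poly d).toRingHom).codRestrict
      (FF y) hmem) ι (RingHom.ext fun F => rfl) a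
  refine ⟨fun x => ?_⟩
  obtain ⟨a, b, hb, rfl⟩ := IsFractionRing.div_surjective (A := Poly d) x
  rw [div_eq_mul_inv]
  exact (hint a).isAlgebraic.mul (hint b).isAlgebraic.inv

open scoped IntermediateField.algebraAdjoinAdjoin in
private lemma frameA_minpoly (hy : Frame y)
    (hind : AlgebraicIndependent ℂ (fun j => (ι (y j) : KK d))) (P : Poly d) (i : ℕ) :
    ∃ F : Poly d, (((minpoly (IntermediateField.adjoin ℂ
      (Set.range fun j => (ι (y j) : KK d))) (ι P : KK d)).coeff i :
      IntermediateField.adjoin ℂ (Set.range fun j => (ι (y j) : KK d))) : KK d) =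
      ι (aeval y F) := by
  have hic : IsIntegrallyClosed (Algebra.adjoin ℂ (Set.range fun j => (ι (y j) : KK d))) :=
    IsIntegrallyClosed.of_equiv hind.aevalEquiv.toRingEquiv
  have hmem : ∀ F : Poly d, (ι.comp (aeval y : Poly d →ₐ[ℂ] Poly d).toRingHom) F ∈
      Algebra.adjoin ℂ (Set.range fun j => (ι (y j) : KK d)) := fun F => mem_BB.2 ⟨F, rfl⟩
  have hint : IsIntegral (Algebra.adjoin ℂ (Set.range fun j => (ι (y j) : KK d)))
      (ι P : KK d) :=
    frameA_integral hy ((ι.comp (aeval y : Poly d →ₐ[ℂ] Poly d).toRingHom).codRestrict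
      (Algebra.adjoin ℂ (Set.range fun j => (ι (y j) : KK d))) hmem) ι
      (RingHom.ext fun F => rfl) P
  rw [minpoly.isIntegrallyClosed_eq_field_fractions'
    (IntermediateField.adjoin ℂ (Set.range fun j => (ι (y j) : KK d))) hint,
    Polynomial.coeff_map, IntermediateField.algebraAdjoinAdjoin.coe_algebraMap]
  exact mem_BB.1 (SetLike.coe_mem _)

/-- `ℂ[y]` is integrally closed: the minimal polynomial of a polynomial over `ℂ(y)` has
coefficients in `ℂ[y]` -/
theorem Frame.minpoly_coeff (hy : Frame y) (P : Poly d) (i : ℕ) :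
    ∃ F : Poly d, (((minpoly (FF y) (ι P : KK d)).coeff i : FF y) : KK d) = ι (aeval y F) := by
  have hind : AlgebraicIndependent ℂ (fun j => (ι (y j) : KK d)) :=
    hy.algInd.map' (f := IsScalarTower.toAlgHom ℂ (Poly d) (KK d)) ι_inj
  exact frameA_minpoly hy hind P i

/-- every nonzero polynomial divides a nonzero element of `ℂ[y]` -/
theorem Frame.exists_dvd (hy : Frame y) {P : Poly d} (hP : P ≠ 0) :
    ∃ G : Poly d, aeval y G ≠ 0 ∧ P ∣ aeval y G := by
  obtain ⟨p, hp, h0⟩ := hy P
  set f : Poly d →+* Poly d := (aeval y : Poly d →ₐ[ℂ] Poly d).toRingHom with hf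
  have hq : p.map f ≠ 0 := (hp.map f).ne_zero
  obtain ⟨r, hr, hr0⟩ := Polynomial.exists_eq_pow_rootMultiplicity_mul_and_not_dvd
    (p.map f) hq 0
  set n := Polynomial.rootMultiplicity 0 (p.map f) with hn
  rw [Polynomial.C_0, sub_zero] at hr hr0
  have h1 : r.coeff 0 = aeval y (p.coeff n) := by
    have h2 : (p.map f).coeff n = r.coeff 0 := by
      rw [hr]
      have := Polynomial.coeff_X_pow_mul r n 0
      rwa [zero_add] at this
    rw [← h2, Polynomial.coeff_map]
    rfl
  have h3 : (p.map f).eval P = 0 := by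
    rw [Polynomial.eval_map]
    exact h0
  rw [hr, Polynomial.eval_mul, Polynomial.eval_pow, Polynomial.eval_X] at h3
  have h4 : r.eval P = 0 := (mul_eq_zero.1 h3).resolve_left (pow_ne_zero _ hP)
  refine ⟨p.coeff n, ?_, ?_⟩
  · rw [← h1]
    exact fun h => hr0 (Polynomial.X_dvd_iff.2 h)
  · rw [← h1]
    have h5 := Polynomial.sub_dvd_eval_sub P 0 r
    rw [sub_zero, h4, zero_sub, dvd_neg, ← Polynomial.coeff_zero_eq_eval_zero] at h5
    exact h5

/-- a derivation of the field of rational functions over `ℂ` which kills the parameters is zero -/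
theorem Frame.deriv_eq_zero (hy : Frame y) (E : Derivation ℤ (KK d) (KK d))
    (hC : ∀ c : ℂ, E (ι (C c)) = 0) (hE : ∀ j, E (ι (y j)) = 0) (x : KK d) : E x = 0 := by
  have h1 : ∀ F : Poly d, E (ι (aeval y F)) = 0 := by
    intro F
    induction F using MvPolynomial.induction_on with
    | C c =>
      rw [MvPolynomial.aeval_C, MvPolynomial.algebraMap_eq]
      exact hC c
    | add p q hp hq => rw [map_add, map_add, map_add, hp, hq, add_zero]
    | mul_X p j hp =>
      rw [map_mul, map_mul, MvPolynomial.aeval_X, Derivation.leibniz, hp, hE, smul_zero,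
        smul_zero, add_zero]
  have h2 : ∀ z : FF y, E (algebraMap (FF y) (KK d) z) = 0 := by
    intro z
    obtain ⟨F, G, hz⟩ := mem_FF.1 z.2
    have hz' : algebraMap (FF y) (KK d) z = ι (aeval y F) / ι (aeval y G) := hz
    rw [hz', Derivation.leibniz_div, h1, h1, smul_zero, smul_zero, sub_zero, smul_zero]
  have hch : CharZero (FF y) :=
    charZero_of_injective_algebraMap (R := ℂ) (algebraMap ℂ (FF y)).injective
  have halg := hy.isAlgebraic
  refine deriv_ext_unique (F := FF y) (E := KK d) (L := KK d) (RingHom.id _) (fun x => E x)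
    (fun _ => 0) (fun x y => map_add E x y) (fun x y => (add_zero 0).symm) (fun x y => ?_)
    (fun x y => ?_) (fun z => h2 z) x (halg.isAlgebraic x)
  · show E (x * y) = x * E y + y * E x
    rw [Derivation.leibniz, smul_eq_mul, smul_eq_mul]
  · rw [mul_zero, mul_zero, add_zero]

/-- the Jacobian determinant of parameters is not zero -/
theorem Frame.jac_ne_zero (hy : Frame y) : jac y ≠ 0 := by
  intro h0
  set M : Matrix (Fin d) (Fin d) (KK d) := Matrix.of fun i j => pdK i (ι (y j)) with hM
  have hdet : M.det = 0 := by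
    have h1 : M = (Matrix.of fun i j : Fin d => pderiv i (y j)).map (ι : Poly d →+* KK d) := by
      ext i j
      exact pdK_ι i (y j)
    have h2 : (ι (jac y) : KK d) = M.det := by
      rw [h1, jac]
      exact RingHom.map_det ι _
    rw [← h2, h0, map_zero]
  obtain ⟨c, hc, hcM⟩ := Matrix.exists_vecMul_eq_zero_iff.2 hdet
  set E : Derivation ℤ (KK d) (KK d) := ∑ i, c i • pdK i with hEdef
  have hE : ∀ x, E x = ∑ i, c i * pdK i x := by
    intro x
    have h := congrFun (map_sum (Derivation.coeFnAddMonoidHom (R := ℤ) (A := KK d) (M := KK d))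
      (fun i => c i • pdK i) Finset.univ) x
    rw [Finset.sum_apply] at h
    exact h
  have h3 : ∀ x, E x = 0 := by
    refine hy.deriv_eq_zero E (fun a => ?_) (fun j => ?_)
    · rw [hE]
      refine Finset.sum_eq_zero fun i _ => ?_
      rw [pdK_ι, pderiv_C, map_zero, mul_zero]
    · rw [hE]
      exact congrFun hcM j
  apply hc
  funext i
  have h4 := h3 (ι (X i))
  rw [hE, Finset.sum_eq_single i] at h4
  · rw [pdK_ι, pderiv_X_self, map_one, mul_one] at h4
    exact h4
  · intro j _ hj
    rw [pdK_ι, pderiv_X_of_ne hj.symm, map_zero, mul_zero]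
  · intro h
    exact absurd (Finset.mem_univ i) h

/-- coordinate change: `ψ` an automorphism of the polynomial ring -/
theorem Frame.comp (hy : Frame y) (ψ : Poly d ≃ₐ[ℂ] Poly d) :
    Frame (fun j => aeval y (ψ (X j))) := by
  have h1 : (aeval (fun j => aeval y (ψ (X j))) : Poly d →ₐ[ℂ] Poly d) =
      (aeval y : Poly d →ₐ[ℂ] Poly d).comp (ψ : Poly d →ₐ[ℂ] Poly d) := by
    refine MvPolynomial.algHom_ext fun j => ?_
    rw [aeval_X]
    rfl
  unfold Frame
  rw [h1]
  exact RingHom.IsIntegral.trans (ψ : Poly d →ₐ[ℂ] Poly d).toRingHom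
    (aeval y : Poly d →ₐ[ℂ] Poly d).toRingHom
    (RingHom.isIntegral_of_surjective _ ψ.surjective) hy

/-- the coordinates are parameters -/
theorem frame_X : Frame (fun j : Fin d => (X j : Poly d)) := by
  refine RingHom.isIntegral_of_surjective _ fun F => ⟨F, ?_⟩
  exact MvPolynomial.aeval_X_left_apply F

end Pool.Agent.DAE
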