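import Pool.Agent.DAE.R.FrameA
import Pool.Agent.DAE.R.DNorm

/-!
# Partial derivatives with respect to a system of parameters
-/

set_option autoImplicit false

namespace Pool.Agent.DAE

open MvPolynomial Pool.Agent.H17Dyn

variable {d : ℕ} {y : Fin d → Poly d}

/-- the Jacobian matrix of `y` over the field of rational functions -/
noncomputable def jmat (y : Fin d → Poly d) : Matrix (Fin d) (Fin d) (KK d) :=
  Matrix.of fun i j => ι (pderiv i (y j))

/-- the derivation `∂/∂y_l` of the field of rational functions -/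
noncomputable def dd (y : Fin d → Poly d) (l : Fin d) : Derivation ℤ (KK d) (KK d) :=
  ∑ i, (jmat y)⁻¹ l i • pdK i

private lemma frameD_jmat (y : Fin d → Poly d) :
    jmat y = (Matrix.of fun i j => pderiv i (y j)).map (ι : Poly d →+* KK d) := by
  ext i j
  rfl

lemma det_jmat (y : Fin d → Poly d) : (jmat y).det = ι (jac y) := by
  rw [frameD_jmat, jac]
  exact (RingHom.map_det ι _).symm

private lemma frameD_apply (y : Fin d → Poly d) (l : Fin d) (x : KK d) :
    dd y l x = ∑ i, (jmat y)⁻¹ l i * pdK i x := by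
  have h1 : ∀ s : Finset (Fin d), (∑ i ∈ s, (jmat y)⁻¹ l i • pdK i : Derivation ℤ (KK d) (KK d)) x =
      ∑ i ∈ s, (jmat y)⁻¹ l i * pdK i x := by
    intro s
    induction s using Finset.induction_on with
    | empty => simp
    | insert a s ha ih =>
      rw [Finset.sum_insert ha, Finset.sum_insert ha, Derivation.add_apply, ih,
        Derivation.smul_apply, smul_eq_mul]
  exact h1 Finset.univ

lemma dd_C (y : Fin d → Poly d) (l : Fin d) (c : ℂ) : dd y l (ι (C c)) = 0 := by
  rw [frameD_apply]
  refine Finset.sum_eq_zero fun i _ => ?_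
  rw [pdK_ι, pderiv_C, map_zero, mul_zero]

private lemma frameD_isUnit (hy : Frame y) : IsUnit (jmat y).det := by
  rw [det_jmat, isUnit_iff_ne_zero]
  exact (map_ne_zero_iff _ ι_inj).2 hy.jac_ne_zero

private lemma frameD_y (hy : Frame y) (l j : Fin d) :
    dd y l (ι (y j)) = (1 : Matrix (Fin d) (Fin d) (KK d)) l j := by
  rw [frameD_apply, ← Matrix.nonsing_inv_mul _ (frameD_isUnit hy), Matrix.mul_apply]
  refine Finset.sum_congr rfl fun i _ => ?_
  rw [pdK_ι]
  rfl

/-- the chain rule for derivations of the field of rational functions -/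
private lemma frameD_chain (D : Derivation ℤ (KK d) (KK d)) (hC : ∀ c : ℂ, D (ι (C c)) = 0)
    (F : Poly d) :
    D (ι (aeval y F)) = ∑ j, ι (aeval y (pderiv j F)) * D (ι (y j)) := by
  classical
  induction F using MvPolynomial.induction_on with
  | C a =>
    have h1 : (aeval y (C a) : Poly d) = C a := by rw [aeval_C]; rfl
    rw [h1, hC]
    simp
  | add p q hp hq =>
    rw [map_add, map_add, map_add, hp, hq, ← Finset.sum_add_distrib]
    refine Finset.sum_congr rfl fun l _ => ?_
    rw [map_add, map_add, map_add]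
    ring
  | mul_X p i hp =>
    rw [map_mul, map_mul, Derivation.leibniz, hp, smul_eq_mul, smul_eq_mul, Finset.mul_sum,
      aeval_X]
    have h2 : ∀ l, (ι (aeval y (pderiv l (p * X i))) : KK d) * D (ι (y l)) =
        ι (y i) * (ι (aeval y (pderiv l p)) * D (ι (y l))) +
        (if l = i then ι (aeval y p) * D (ι (y l)) else 0) := by
      intro l
      rw [pderiv_mul, map_add, map_mul, map_mul, map_add, map_mul, map_mul, aeval_X, pderiv_X]
      by_cases h : l = i
      · subst h
        rw [if_pos rfl, Pi.single_eq_same, map_one, map_one]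
        ring
      · rw [if_neg h, Pi.single_eq_of_ne (fun h' => h h'.symm), map_zero, map_zero]
        ring
    rw [Finset.sum_congr rfl fun l _ => h2 l, Finset.sum_add_distrib]
    simp [add_comm]

/-- `∂/∂y_l` on `ℂ[y]` -/
theorem dd_aeval (hy : Frame y) (l : Fin d) (F : Poly d) :
    dd y l (ι (aeval y F)) = ι (aeval y (pderiv l F)) := by
  rw [frameD_chain (dd y l) (dd_C y l), Finset.sum_eq_single l]
  · rw [frameD_y hy, Matrix.one_apply_eq, mul_one]
  · intro j _ hj
    rw [frameD_y hy, Matrix.one_apply_ne hj.symm, mul_zero]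
  · intro h
    exact absurd (Finset.mem_univ l) h

lemma dd_iter_aeval (hy : Frame y) (l : Fin d) (F : Poly d) (k : ℕ) :
    (⇑(dd y l))^[k] (ι (aeval y F)) = ι (aeval y ((⇑(pderiv l))^[k] F)) := by
  induction k generalizing F with
  | zero => rfl
  | succ k ih => rw [Function.iterate_succ_apply, Function.iterate_succ_apply, dd_aeval hy, ih]

private lemma frameD_iter_zero (l : Fin d) (k : ℕ) : (⇑(pderiv l))^[k] (0 : Poly d) = 0 := by
  induction k with
  | zero => rfl
  | succ k ih => rw [Function.iterate_succ_apply, map_zero, ih]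

private lemma frameD_iter_add (l : Fin d) (k : ℕ) (p q : Poly d) :
    (⇑(pderiv l))^[k] (p + q) = (⇑(pderiv l))^[k] p + (⇑(pderiv l))^[k] q := by
  induction k generalizing p q with
  | zero => rfl
  | succ k ih => rw [Function.iterate_succ_apply, Function.iterate_succ_apply,
      Function.iterate_succ_apply, map_add, ih]

private lemma frameD_mono (l : Fin d) (n : ℕ) : ∀ (s : Fin d →₀ ℕ) (a : ℂ), s l ≤ n →
    (⇑(pderiv l))^[n + 1] (monomial s a : Poly d) = 0 := by
  induction n with
  | zero =>
    intro s a hs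
    rw [Function.iterate_succ_apply, pderiv_monomial, Nat.le_zero.1 hs]
    simp
  | succ n ih =>
    intro s a hs
    rw [Function.iterate_succ_apply, pderiv_monomial]
    refine ih _ _ ?_
    rw [Finsupp.tsub_apply, Finsupp.single_eq_same]
    omega

private lemma frameD_nil (l : Fin d) (F : Poly d) :
    ∃ n : ℕ, ∀ k, n ≤ k → (⇑(pderiv l))^[k] F = 0 := by
  induction F using MvPolynomial.induction_on' with
  | monomial s a =>
    refine ⟨s l + 1, fun k hk => ?_⟩
    obtain ⟨j, rfl⟩ := Nat.exists_eq_add_of_le hk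
    rw [add_comm, Function.iterate_add_apply, frameD_mono l (s l) s a le_rfl,
      frameD_iter_zero]
  | add p q hp hq =>
    obtain ⟨n, hn⟩ := hp
    obtain ⟨m, hm⟩ := hq
    refine ⟨max n m, fun k hk => ?_⟩
    rw [frameD_iter_add, hn k (le_of_max_le_left hk), hm k (le_of_max_le_right hk), add_zero]

/-- elements of `ℂ[y]` are killed by a power of `∂/∂y_l` -/
theorem dd_nilpotent (hy : Frame y) (l : Fin d) (F : Poly d) :
    ∃ n : ℕ, ∀ k, n ≤ k → (⇑(dd y l))^[k] (ι (aeval y F)) = 0 := by
  obtain ⟨n, hn⟩ := frameD_nil l F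
  refine ⟨n, fun k hk => ?_⟩
  rw [dd_iter_aeval hy, hn k hk, map_zero, map_zero]

/-- the partial derivatives commute -/
theorem dd_comm (hy : Frame y) (l m : Fin d) (x : KK d) :
    dd y l (dd y m x) = dd y m (dd y l x) := by
  have h1 := hy.deriv_eq_zero ⁅dd y l, dd y m⁆ (fun c => ?_) (fun j => ?_) x
  · rw [Derivation.commutator_apply] at h1
    exact sub_eq_zero.1 h1
  · rw [Derivation.commutator_apply, dd_C, dd_C, map_zero, map_zero, sub_zero]
  · rw [Derivation.commutator_apply, frameD_y hy, frameD_y hy]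
    have h2 : ∀ a b c : Fin d,
        dd y a ((1 : Matrix (Fin d) (Fin d) (KK d)) b c) = 0 := by
      intro a b c
      rw [Matrix.one_apply]
      split_ifs
      · exact Derivation.map_one_eq_zero _
      · exact map_zero _
    rw [h2, h2, sub_zero]

private lemma frameD_adj (hy : Frame y) (l : Fin d) (c : Poly d) :
    ∃ b : Poly d, ι (jac y) * dd y l (ι c) = ι b := by
  refine ⟨∑ i, (Matrix.of fun i j => pderiv i (y j)).adjugate l i * pderiv i c, ?_⟩
  have hJ : (ι (jac y) : KK d) ≠ 0 := (map_ne_zero_iff _ ι_inj).2 hy.jac_ne_zero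
  rw [frameD_apply, map_sum, Finset.mul_sum]
  refine Finset.sum_congr rfl fun i _ => ?_
  rw [pdK_ι, map_mul, ← mul_assoc]
  congr 1
  have h1 : (jmat y).adjugate l i =
      ι ((Matrix.of fun i j => pderiv i (y j)).adjugate l i) := by
    rw [frameD_jmat]
    have h2 := RingHom.map_adjugate (ι : Poly d →+* KK d) (Matrix.of fun i j => pderiv i (y j))
    exact (congrFun (congrFun h2 l) i).symm
  rw [Matrix.inv_def, Matrix.smul_apply, Ring.inverse_eq_inv', det_jmat, smul_eq_mul, h1,
    ← mul_assoc, mul_inv_cancel₀ hJ, one_mul]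

/-- denominators of iterated derivatives of polynomials are powers of the Jacobian -/
theorem dd_den (hy : Frame y) (l : Fin d) (a : Poly d) (k : ℕ) :
    ∃ (m : ℕ) (b : Poly d), ι (jac y) ^ m * (⇑(dd y l))^[k] (ι a) = ι b := by
  induction k with
  | zero => exact ⟨0, a, by rw [pow_zero, one_mul]; rfl⟩
  | succ k ih =>
    obtain ⟨m, b, hb⟩ := ih
    obtain ⟨b', hb'⟩ := frameD_adj hy l b
    obtain ⟨j', hj'⟩ := frameD_adj hy l (jac y)
    refine ⟨m + 2, jac y * b' - (m : Poly d) * j' * b, ?_⟩
    rw [Function.iterate_succ_apply']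
    set x : KK d := (⇑(dd y l))^[k] (ι a) with hx
    set J : KK d := ι (jac y) with hJ
    have h1 : dd y l (J ^ m * x) = J ^ m * dd y l x + x * dd y l (J ^ m) := by
      rw [Derivation.leibniz, smul_eq_mul, smul_eq_mul]
    have h2 : J * dd y l (J ^ m) = (m : KK d) * J ^ m * dd y l J := by
      rw [Derivation.leibniz_pow, nsmul_eq_mul, smul_eq_mul]
      rcases m with _ | m
      · simp
      · rw [Nat.add_sub_cancel]
        push_cast
        ring
    rw [map_sub, map_mul, map_mul, map_mul, map_natCast, ← hb', ← hj', ← hb, h1, ← hJ]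
    linear_combination (-J * x) * h2

/-- the partial derivatives in terms of the `∂/∂y_l` -/
private lemma frameD_pdK (hy : Frame y) (i : Fin d) (x : KK d) :
    pdK i x = ∑ l, jmat y i l * dd y l x := by
  have h1 : ∀ l, jmat y i l * dd y l x = ∑ i', jmat y i l * (jmat y)⁻¹ l i' * pdK i' x := by
    intro l
    rw [frameD_apply, Finset.mul_sum]
    exact Finset.sum_congr rfl fun i' _ => by rw [mul_assoc]
  rw [Finset.sum_congr rfl fun l _ => h1 l, Finset.sum_comm]
  have h2 : ∀ i', ∑ l, jmat y i l * (jmat y)⁻¹ l i' * pdK i' x =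
      (1 : Matrix (Fin d) (Fin d) (KK d)) i i' * pdK i' x := by
    intro i'
    rw [← Finset.sum_mul, ← Matrix.mul_nonsing_inv _ (frameD_isUnit hy), Matrix.mul_apply]
  rw [Finset.sum_congr rfl fun i' _ => h2 i', Finset.sum_eq_single i]
  · rw [Matrix.one_apply_eq, one_mul]
  · intro j _ hj
    rw [Matrix.one_apply_ne hj.symm, zero_mul]
  · intro h
    exact absurd (Finset.mem_univ i) h

/-- chain rule for Jacobian determinants -/
theorem det_pdK (hy : Frame y) (P : Fin d → KK d) :
    (Matrix.of fun i j => pdK i (P j)).det =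
      ι (jac y) * (Matrix.of fun i j => dd y i (P j)).det := by
  have h1 : (Matrix.of fun i j => pdK i (P j)) =
      jmat y * (Matrix.of fun i j => dd y i (P j)) := by
    ext i j
    rw [Matrix.of_apply, Matrix.mul_apply, frameD_pdK hy]
    rfl
  rw [h1, Matrix.det_mul, det_jmat]

/-- derivative of a Jacobian determinant -/
theorem dd_det (hy : Frame y) (l : Fin d) (P : Fin d → KK d) :
    dd y l (Matrix.of fun i j => dd y i (P j)).det =
      ∑ m, (Matrix.of fun i j => dd y i (Function.update P m (dd y l (P m)) j)).det := by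
  classical
  have h1 : ∀ (m : Fin d) (σ : Equiv.Perm (Fin d)),
      ∏ j, dd y (σ j) (Function.update P m (dd y l (P m)) j) =
      dd y l (dd y (σ m) (P m)) * ∏ j ∈ Finset.univ.erase m, dd y (σ j) (P j) := by
    intro m σ
    rw [← Finset.mul_prod_erase _ _ (Finset.mem_univ m), Function.update_self, dd_comm hy]
    congr 1
    refine Finset.prod_congr rfl fun j hj => ?_
    rw [Function.update_of_ne (Finset.ne_of_mem_erase hj)]
  have h2 : ∀ (σ : Equiv.Perm (Fin d)) (z : KK d),
      dd y l (((Equiv.Perm.sign σ : ℤ) : KK d) * z) =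
        ((Equiv.Perm.sign σ : ℤ) : KK d) * dd y l z := by
    intro σ z
    rw [← zsmul_eq_mul, map_zsmul, zsmul_eq_mul]
  rw [Matrix.det_apply', map_sum]
  simp only [Matrix.det_apply', Matrix.of_apply, h1, h2]
  rw [Finset.sum_comm]
  refine Finset.sum_congr rfl fun σ _ => ?_
  rw [deriv_prod, Finset.mul_sum]

/-- **Noise preserves fatness**: bound for the derivatives of a Jacobian determinant.
`h` satisfies the fatness inequality on rational functions. -/
theorem iter_dd_det_le (hy : Frame y) (l : Fin d) {h : Poly d → ℝ} (hh : IsVal h) (hf : IsFat h)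
    {r : ℝ} (hr : 0 < r) (n : ℕ) (P : Fin d → KK d) (C : Fin d → ℝ)
    (hC : ∀ j k, ext h ((⇑(dd y l))^[k] (P j)) * r ^ k ≤ C j) :
    ext h ((⇑(dd y l))^[n] (Matrix.of fun i j => dd y i (P j)).det) * r ^ n ≤
      (∏ j, C j) / ext h (ι (jac y)) := by
  classical
  have hv := hh.nabs_ext
  have hJ : 0 < ext h (ι (jac y)) := hv.pos ((map_ne_zero_iff _ ι_inj).2 hy.jac_ne_zero)
  induction n generalizing P C with
  | zero =>
    have h0 : ∀ j, ext h (P j) ≤ C j := fun j => by simpa using hC j 0
    rw [pow_zero, mul_one, Function.iterate_zero_apply, le_div_iff₀ hJ, mul_comm, ← hv.mul,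
      ← det_pdK hy]
    refine (hf.ext_det_le hh P).trans ?_
    exact Finset.prod_le_prod (fun j _ => hv.nonneg _) fun j _ => h0 j
  | succ n ih =>
    have hC0 : ∀ j, 0 ≤ C j := fun j =>
      (hv.nonneg (P j)).trans (by simpa using hC j 0)
    rw [Function.iterate_succ_apply, dd_det hy, iter_sum, ← le_div_iff₀ (pow_pos hr _)]
    refine hv.sum_le (div_nonneg (div_nonneg (Finset.prod_nonneg fun j _ => hC0 j) hJ.le)
      (pow_pos hr _).le) fun m _ => ?_
    rw [le_div_iff₀ (pow_pos hr _)]
    have h1 := ih (Function.update P m (dd y l (P m))) (Function.update C m (C m / r)) ?_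
    · have h2 : ∏ j, Function.update C m (C m / r) j = (∏ j, C j) / r := by
        rw [← Finset.mul_prod_erase _ _ (Finset.mem_univ m), Function.update_self,
          ← Finset.mul_prod_erase _ C (Finset.mem_univ m), div_mul_eq_mul_div]
        congr 2
        refine Finset.prod_congr rfl fun j hj => ?_
        rw [Function.update_of_ne (Finset.ne_of_mem_erase hj)]
      rw [h2] at h1
      have h3 := mul_le_mul_of_nonneg_right h1 hr.le
      have h4 : (∏ j, C j) / r / ext h (ι (jac y)) * r = (∏ j, C j) / ext h (ι (jac y)) := by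
        field_simp
      rw [h4] at h3
      rw [pow_succ, ← mul_assoc]
      exact h3
    · intro j k
      by_cases hj : j = m
      · subst hj
        rw [Function.update_self, Function.update_self, le_div_iff₀ hr,
          ← Function.iterate_succ_apply, mul_assoc, ← pow_succ]
        exact hC j (k + 1)
      · rw [Function.update_of_ne hj, Function.update_of_ne hj]
        exact hC j k

end Pool.Agent.DAE
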