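import Pool.Agent.DAE.R.Basic

/-!
# Parts of a polynomial with a given exponent in one variable
-/

set_option autoImplicit false

namespace Pool.Agent.DAE

open MvPolynomial Pool.Agent.H17Dyn

variable {d : ℕ}

/-- the part of `F` with exponent `m` in the variable `i` -/
noncomputable def compAt (i : Fin d) (m : ℕ) (F : Poly d) : Poly d :=
  ∑ e ∈ F.support.filter (fun e => e i = m), monomial e (coeff e F)

lemma coeff_compAt (i : Fin d) (m : ℕ) (F : Poly d) (e : Fin d →₀ ℕ) :
    coeff e (compAt i m F) = if e i = m then coeff e F else 0 := by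
  rw [compAt, coeff_sum]
  simp only [coeff_monomial]
  rw [Finset.sum_ite_eq']
  simp only [Finset.mem_filter, mem_support_iff]
  by_cases h1 : coeff e F = 0
  · simp [h1]
  · simp [h1]

lemma compAt_zero (i : Fin d) (m : ℕ) : compAt i m (0 : Poly d) = 0 := by
  ext e
  simp [coeff_compAt]

lemma compAt_add (i : Fin d) (m : ℕ) (F G : Poly d) :
    compAt i m (F + G) = compAt i m F + compAt i m G := by
  ext e
  simp only [coeff_compAt, coeff_add]
  split_ifs <;> simp

lemma compAt_C_mul (i : Fin d) (m : ℕ) (c : ℂ) (F : Poly d) :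
    compAt i m (C c * F) = C c * compAt i m F := by
  ext e
  simp only [coeff_compAt, coeff_C_mul]
  split_ifs <;> simp

lemma sum_compAt (i : Fin d) (F : Poly d) {n : ℕ} (hn : degreeOf i F ≤ n) :
    ∑ m ∈ Finset.range (n + 1), compAt i m F = F := by
  ext e
  rw [coeff_sum]
  simp only [coeff_compAt]
  rw [Finset.sum_ite_eq]
  split_ifs with h
  · rfl
  · by_contra hc
    apply h
    have h1 : e ∈ F.support := mem_support_iff.2 fun h0 => hc h0.symm
    have h2 := le_degreeOf_of_mem_support i h1
    rw [Finset.mem_range]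
    omega

lemma compAt_eq_zero (i : Fin d) (F : Poly d) {m : ℕ} (hm : degreeOf i F < m) :
    compAt i m F = 0 := by
  ext e
  rw [coeff_compAt, coeff_zero]
  split_ifs with h
  · by_contra hc
    have h2 := le_degreeOf_of_mem_support i (mem_support_iff.2 hc)
    omega
  · rfl

/-- components of components commute -/
lemma compAt_compAt (i j : Fin d) (m n : ℕ) (F : Poly d) :
    compAt i m (compAt j n F) = compAt j n (compAt i m F) := by
  ext e
  simp only [coeff_compAt]
  split_ifs <;> rfl

lemma pderiv_compAt_of_ne {i l : Fin d} (hil : l ≠ i) (m : ℕ) (F : Poly d) :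
    pderiv l (compAt i m F) = compAt i m (pderiv l F) := by
  ext e
  have h : (e + Finsupp.single l 1 : Fin d →₀ ℕ) i = e i := by
    rw [Finsupp.add_apply, Finsupp.single_eq_of_ne (Ne.symm hil), add_zero]
  rw [coeff_pderiv, coeff_compAt, coeff_compAt, coeff_pderiv, h]
  split_ifs <;> simp

lemma pderiv_compAt_self (l : Fin d) (m : ℕ) (F : Poly d) :
    pderiv l (compAt l (m + 1) F) = compAt l m (pderiv l F) := by
  ext e
  have h : (e + Finsupp.single l 1 : Fin d →₀ ℕ) l = e l + 1 := by
    rw [Finsupp.add_apply, Finsupp.single_eq_same]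
  rw [coeff_pderiv, coeff_compAt, coeff_compAt, coeff_pderiv, h]
  simp only [add_left_inj]
  split_ifs <;> simp

lemma X_mul_pderiv_compAt (l : Fin d) (m : ℕ) (F : Poly d) :
    X l * pderiv l (compAt l m F) = (m : Poly d) * compAt l m F := by
  ext e
  have hm : (m : Poly d) = C (m : ℂ) := (map_natCast C m).symm
  rw [hm, coeff_C_mul, coeff_X_mul', coeff_compAt]
  by_cases hl : l ∈ e.support
  · rw [if_pos hl, coeff_pderiv]
    have h1 : e l ≠ 0 := Finsupp.mem_support_iff.1 hl
    have h2 : e - Finsupp.single l 1 + Finsupp.single l 1 = e := by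
      refine tsub_add_cancel_of_le ?_
      rw [Finsupp.single_le_iff]
      omega
    have h3 : (e - Finsupp.single l 1 : Fin d →₀ ℕ) l = e l - 1 := by
      rw [Finsupp.tsub_apply, Finsupp.single_eq_same]
    rw [h2, h3, coeff_compAt]
    split_ifs with h4
    · subst h4
      have h5 : ((e l - 1 : ℕ) : ℂ) + 1 = (e l : ℂ) := by
        rw [← Nat.cast_add_one]
        congr 1
        omega
      rw [h5, mul_comm]
    · simp
  · rw [if_neg hl]
    have h1 : e l = 0 := Finsupp.notMem_support_iff.1 hl
    rw [h1]
    split_ifs with h4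
    · rw [← h4, Nat.cast_zero, zero_mul]
    · rw [mul_zero]

/-- polynomials in the variables `j ≤ l` -/
noncomputable def Low (l : Fin d) : Subalgebra ℂ (Poly d) := supported ℂ {j | j ≤ l}

/-- polynomials in the variables `j < l` -/
noncomputable def Low' (l : Fin d) : Subalgebra ℂ (Poly d) := supported ℂ {j | j < l}

private lemma GaussA_mul_X_self_zero (i : Fin d) (G : Poly d) : compAt i 0 (G * X i) = 0 := by
  ext e
  rw [coeff_compAt, coeff_mul_X', coeff_zero]
  split_ifs with h1 h2
  · exact absurd h1 (Finsupp.mem_support_iff.1 h2)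
  · rfl
  · rfl

private lemma GaussA_mul_X_self (i : Fin d) (m : ℕ) (G : Poly d) :
    compAt i (m + 1) (G * X i) = compAt i m G * X i := by
  ext e
  rw [coeff_compAt, coeff_mul_X', coeff_mul_X', coeff_compAt]
  have h3 : (e - Finsupp.single i 1 : Fin d →₀ ℕ) i = e i - 1 := by
    rw [Finsupp.tsub_apply, Finsupp.single_eq_same]
  by_cases h2 : i ∈ e.support
  · have h1 : e i ≠ 0 := Finsupp.mem_support_iff.1 h2
    have h4 : (e i = m + 1) ↔ (e i - 1 = m) := by omega
    rw [if_pos h2, if_pos h2, h3]
    simp only [h4]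
  · rw [if_neg h2, if_neg h2]
    split_ifs <;> rfl

private lemma GaussA_mul_X_of_ne {i j : Fin d} (hij : j ≠ i) (m : ℕ) (G : Poly d) :
    compAt i m (G * X j) = compAt i m G * X j := by
  ext e
  rw [coeff_compAt, coeff_mul_X', coeff_mul_X', coeff_compAt]
  have h3 : (e - Finsupp.single j 1 : Fin d →₀ ℕ) i = e i := by
    rw [Finsupp.tsub_apply, Finsupp.single_eq_of_ne (Ne.symm hij), tsub_zero]
  rw [h3]
  split_ifs <;> rfl

private lemma GaussA_mul_supported {i : Fin d} {H : Poly d}
    (hH : H ∈ supported ℂ {j | j ≠ i}) : ∀ (m : ℕ) (G : Poly d),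
      compAt i m (G * H) = compAt i m G * H := by
  rw [supported_eq_adjoin_X] at hH
  induction hH using Algebra.adjoin_induction with
  | mem x hx =>
    obtain ⟨j, hj, rfl⟩ := hx
    exact fun m G => GaussA_mul_X_of_ne hj m G
  | algebraMap c =>
    intro m G
    rw [algebraMap_eq, mul_comm, compAt_C_mul, mul_comm]
  | add x y _ _ hx hy =>
    intro m G
    rw [mul_add, compAt_add, hx, hy, mul_add]
  | mul x y _ _ hx hy =>
    intro m G
    rw [← mul_assoc, hy, hx, mul_assoc]

/-- substitutions which do not touch the variable `i` commute with `compAt i` -/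
theorem compAt_comm (i : Fin d) (ψ : Poly d →ₐ[ℂ] Poly d) (hi : ψ (X i) = X i)
    (hj : ∀ j, j ≠ i → ψ (X j) ∈ supported ℂ {j | j ≠ i}) (m : ℕ) (F : Poly d) :
    compAt i m (ψ F) = ψ (compAt i m F) := by
  induction F using MvPolynomial.induction_on generalizing m with
  | C a =>
    have h1 : compAt i m (C a) = if m = 0 then C a else 0 := by
      ext e
      rw [coeff_compAt, coeff_C]
      rcases eq_or_ne m 0 with rfl | hm
      · rw [if_pos rfl, coeff_C]
        split_ifs with h1 h2 h2
        · rfl
        · rfl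
        · subst h2
          exact absurd rfl h1
        · rfl
      · rw [if_neg hm, coeff_zero]
        split_ifs with h1 h2
        · subst h2
          exact absurd h1.symm hm
        · rfl
        · rfl
    have h2 : ψ (C a) = C a := ψ.commutes a
    rw [h2, h1]
    split_ifs
    · exact h2.symm
    · rw [map_zero]
  | add p q hp hq => rw [map_add, compAt_add, compAt_add, map_add, hp, hq]
  | mul_X p j hp =>
    rw [map_mul]
    rcases eq_or_ne j i with rfl | hji
    · rw [hi]
      rcases m with _ | m
      · rw [GaussA_mul_X_self_zero, GaussA_mul_X_self_zero, map_zero]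
      · rw [GaussA_mul_X_self, GaussA_mul_X_self, map_mul, hi, hp]
    · rw [GaussA_mul_supported (hj j hji), GaussA_mul_X_of_ne hji, map_mul, hp]

end Pool.Agent.DAE
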