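import Pool.Agent.DAE.X.Tame
import Pool.Agent.DAE.R.DNorm

/-!
# Boundedness of Taylor coefficients (transfer from the generic disc)
-/

set_option autoImplicit false

namespace Pool.Agent.DAE

open Polynomial

/-- the coefficients of a product of linear factors with small roots -/
private theorem lemN_coeff {Ω : Type*} [Field Ω] {w : Ω → ℝ} (hw : NAbs w) {H : ℝ} (hH : 0 < H)
    (s : Multiset Ω) (hs : ∀ β ∈ s, w β < H) :
    ∀ i, i < Multiset.card s →
      w ((s.map fun β => (X - C β : Polynomial Ω)).prod.coeff i) < H ^ (Multiset.card s - i) := by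
  induction s using Multiset.induction_on with
  | empty =>
    intro i hi
    exact absurd hi (by simp)
  | cons a s ih =>
    intro i hi
    have ih' := ih (fun β hβ => hs β (Multiset.mem_cons_of_mem hβ))
    have ha : w a < H := hs a (Multiset.mem_cons_self a s)
    rw [Multiset.card_cons] at hi ⊢
    rw [Multiset.map_cons, Multiset.prod_cons]
    have hmonic : ((s.map fun β => (X - C β : Polynomial Ω)).prod).Monic :=
      monic_multiset_prod_of_monic _ _ fun β _ => monic_X_sub_C β
    have hdeg : ((s.map fun β => (X - C β : Polynomial Ω)).prod).natDegree = Multiset.card s :=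
      natDegree_multiset_prod_X_sub_C_eq_card s
    generalize (s.map fun β => (X - C β : Polynomial Ω)).prod = p at ih' hmonic hdeg ⊢
    have hle : ∀ j, j ≤ Multiset.card s → w (p.coeff j) ≤ H ^ (Multiset.card s - j) := by
      intro j hj
      rcases hj.lt_or_eq with h | h
      · exact (ih' j h).le
      · have h1 : p.coeff j = 1 := by
          rw [h, ← hdeg]
          exact hmonic.coeff_natDegree
        rw [h1, hw.one, h, Nat.sub_self, pow_zero]
    have h2 : w (a * p.coeff i) < H ^ (Multiset.card s + 1 - i) := by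
      have h3 : Multiset.card s + 1 - i = (Multiset.card s - i) + 1 := by omega
      rw [hw.mul, h3, pow_succ, mul_comm]
      have h4 := hle i (by omega)
      have h5 : 0 < H ^ (Multiset.card s - i) := pow_pos hH _
      calc w (p.coeff i) * w a ≤ H ^ (Multiset.card s - i) * w a :=
            mul_le_mul_of_nonneg_right h4 (hw.nonneg a)
        _ < H ^ (Multiset.card s - i) * H := mul_lt_mul_of_pos_left ha h5
    rw [sub_mul, coeff_sub, coeff_C_mul]
    refine (hw.sub _ _).trans_lt (max_lt ?_ h2)
    rcases i with _ | i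
    · rw [coeff_X_mul_zero, hw.zero]
      exact pow_pos hH _
    · rw [coeff_X_mul]
      have h3 : Multiset.card s + 1 - (i + 1) = Multiset.card s - i := by omega
      rw [h3]
      exact ih' i (by omega)

/-- some conjugate is at least as large -/
private theorem lemN_conj {F K Ω : Type*} [Field F] [Field K] [Algebra F K]
    [Algebra.IsAlgebraic F K] [Field Ω] [IsAlgClosed Ω] [Algebra F Ω]
    {h : K → ℝ} (hh : NAbs h) {v : F → ℝ} {w : Ω → ℝ} (hw : NAbs w)
    (hwv : ∀ x, w (algebraMap F Ω x) = v x) {P : K}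
    (hA : ∀ i, h (algebraMap F K ((minpoly F P).coeff i)) ≤ v ((minpoly F P).coeff i)) :
    ∃ σ : K →ₐ[F] Ω, h P ≤ w (σ P) := by
  by_contra hcon
  push Not at hcon
  have hint : IsIntegral F P := Algebra.IsIntegral.isIntegral P
  have σ₀ : K →ₐ[F] Ω := IsAlgClosed.lift
  have hH : 0 < h P := (hw.nonneg _).trans_lt (hcon σ₀)
  -- all roots are small
  have hsplits : ((minpoly F P).map (algebraMap F Ω)).Splits := IsAlgClosed.splits _
  have hmon : ((minpoly F P).map (algebraMap F Ω)).Monic := (minpoly.monic hint).map _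
  have hroots : ∀ β ∈ ((minpoly F P).map (algebraMap F Ω)).roots, w β < h P := by
    intro β hβ
    have h1 : aeval β (minpoly F P) = 0 := by
      have h2 := (mem_roots hmon.ne_zero).1 hβ
      rw [IsRoot, eval_map_algebraMap] at h2
      exact h2
    obtain ⟨σ, hσ⟩ := IntermediateField.exists_algHom_of_splits_of_aeval
      (F := F) (E := K) (K := Ω) (fun s => ⟨Algebra.IsIntegral.isIntegral s,
        IsAlgClosed.splits _⟩) h1
    rw [← hσ]
    exact hcon σ
  have hn : (minpoly F P).natDegree =
      Multiset.card ((minpoly F P).map (algebraMap F Ω)).roots := by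
    rw [← hsplits.natDegree_eq_card_roots, natDegree_map]
  have hco : ∀ i, i < (minpoly F P).natDegree →
      v ((minpoly F P).coeff i) < h P ^ ((minpoly F P).natDegree - i) := by
    intro i hi
    have h1 := lemN_coeff hw hH _ hroots i (by rwa [← hn])
    rw [← hsplits.eq_prod_roots_of_monic hmon, coeff_map, hwv, ← hn] at h1
    exact h1
  -- the equation
  have heq : aeval P (minpoly F P) = 0 := minpoly.aeval F P
  rw [aeval_eq_sum_range, Finset.sum_range_succ] at heq
  have hlead : (minpoly F P).coeff (minpoly F P).natDegree = 1 :=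
    (minpoly.monic hint).coeff_natDegree
  rw [hlead, one_smul] at heq
  have h1 : h (P ^ (minpoly F P).natDegree) < h P ^ (minpoly F P).natDegree := by
    rw [← neg_eq_of_add_eq_zero_right heq, hh.neg]
    refine hh.sum_lt (pow_pos hH _) fun i hi => ?_
    have hi' := Finset.mem_range.1 hi
    rw [Algebra.smul_def, hh.mul, hh.pow]
    have h3 : h P ^ (minpoly F P).natDegree =
        h P ^ ((minpoly F P).natDegree - i) * h P ^ i := by
      rw [← pow_add]
      congr 1
      omega
    rw [h3]
    exact mul_lt_mul_of_pos_right ((hA i).trans_lt (hco i hi')) (pow_pos hH _)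
  rw [hh.pow] at h1
  exact lt_irrefl _ h1

/-- **Transfer.** `K/F` algebraic, `h` an absolute value of `K`, `v` an absolute value of `F`,
`D` a derivation of `K` which maps `F` to itself with norm at most `c` for `v`. `A ⊆ K` is a set
of elements whose minimal polynomials have coefficients `b` with `h b ≤ v b`, and
`δ * D^k P ∈ A` for some `δ ∈ F` with `h δ = v δ ≠ 0`. Then the Taylor coefficients of all
elements of `A` are bounded. -/
theorem exists_bound {F K : Type*} [Field F] [Field K] [Algebra F K] [Algebra.IsAlgebraic F K]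
    {h : K → ℝ} (hh : NAbs h) {v : F → ℝ} (hv : NAbs v) (D : Derivation ℤ K K)
    (DF : Derivation ℤ F F) (hD : ∀ x, D (algebraMap F K x) = algebraMap F K (DF x)) {c : ℝ}
    (hc : ∀ x : F, v (DF x) ≤ c * v x) (A : Set K)
    (hA : ∀ P ∈ A, ∀ i, h (algebraMap F K ((minpoly F P).coeff i)) ≤ v ((minpoly F P).coeff i))
    (hδ : ∀ P ∈ A, ∀ k : ℕ, ∃ δ : F, v δ ≠ 0 ∧ h (algebraMap F K δ) = v δ ∧
      algebraMap F K δ * (⇑D)^[k] P ∈ A) :
    ∀ P ∈ A, ∃ C, ∀ k : ℕ, h ((⇑D)^[k] P) ≤ C * c ^ k := by
  classical
  intro P hP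
  have hchar : CharZero F := hv.charZero
  obtain ⟨Ω, hF, hcl, hAlg, w, hw, hwv, hext⟩ := hv.exists_closure
  obtain ⟨D', hD', hD'c⟩ := hext DF c hc
  have hint : ∀ x : K, IsIntegral F x := fun x => Algebra.IsIntegral.isIntegral x
  have hc0 : 0 ≤ c := by
    have h1 := hc 1
    rw [hv.one, mul_one] at h1
    exact (hv.nonneg _).trans h1
  -- embeddings commute with the derivations
  have hcomm : ∀ (σ : K →ₐ[F] Ω) (x : K), σ (D x) = D' (σ x) := by
    intro σ x
    refine deriv_ext_unique (F := F) (σ : K →+* Ω) (fun y => σ (D y)) (fun y => D' (σ y))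
      ?_ ?_ ?_ ?_ ?_ x (Algebra.IsAlgebraic.isAlgebraic x)
    · intro y z
      rw [map_add, map_add]
    · intro y z
      rw [map_add, map_add]
    · intro y z
      change _ = σ y * _ + σ z * _
      rw [← map_mul, ← map_mul, ← map_add]
      congr 1
      exact D.leibniz _ _
    · intro y z
      rw [map_mul]
      exact D'.leibniz _ _
    · intro a
      change σ (D (algebraMap F K a)) = D' (σ (algebraMap F K a))
      rw [hD, AlgHom.commutes, AlgHom.commutes, hD']
  have hiter : ∀ (σ : K →ₐ[F] Ω) (x : K) (k : ℕ), w (σ ((⇑D)^[k] x)) ≤ c ^ k * w (σ x) := by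
    intro σ x k
    induction k with
    | zero => rw [Function.iterate_zero, id, pow_zero, one_mul]
    | succ k ih =>
      rw [Function.iterate_succ_apply', hcomm, pow_succ, mul_comm (c ^ k) c, mul_assoc]
      exact (hD'c _).trans (mul_le_mul_of_nonneg_left ih hc0)
  -- a bound for the conjugates of `P`
  let R := ((minpoly F P).map (algebraMap F Ω)).roots.toFinset
  have hmem : ∀ σ : K →ₐ[F] Ω, σ P ∈ R := by
    intro σ
    rw [Multiset.mem_toFinset, mem_roots ((minpoly.monic (hint P)).map _).ne_zero, IsRoot,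
      eval_map_algebraMap, aeval_algHom_apply, minpoly.aeval, map_zero]
  refine ⟨∑ β ∈ R, w β, fun k => ?_⟩
  obtain ⟨δ, hδ1, hδ2, hδ3⟩ := hδ P hP k
  obtain ⟨σ, hσ⟩ := lemN_conj hh hw hwv (hA _ hδ3)
  rw [hh.mul, hδ2, map_mul, AlgHom.commutes, hw.mul, hwv] at hσ
  have hδ0 : 0 < v δ := lt_of_le_of_ne (hv.nonneg δ) (Ne.symm hδ1)
  have h1 := le_of_mul_le_mul_left hσ hδ0
  have h2 : w (σ P) ≤ ∑ β ∈ R, w β :=
    Finset.single_le_sum (f := w) (fun β _ => hw.nonneg β) (hmem σ)
  calc h ((⇑D)^[k] P) ≤ w (σ ((⇑D)^[k] P)) := h1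
    _ ≤ c ^ k * w (σ P) := hiter σ P k
    _ ≤ c ^ k * ∑ β ∈ R, w β := mul_le_mul_of_nonneg_left h2 (pow_nonneg hc0 k)
    _ = (∑ β ∈ R, w β) * c ^ k := mul_comm _ _

end Pool.Agent.DAE
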