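import Pool.Agent.DAE.R.FrameD
import Pool.Agent.DAE.R.LemN

/-!
# One noise step in the coordinate `y_l` of a system of parameters (Lemma N)
-/

set_option autoImplicit false

namespace Pool.Agent.DAE

open MvPolynomial Pool.Agent.H17Dyn

variable {d : ℕ} {y : Fin d → Poly d} {l : Fin d} {h : Poly d → ℝ} {r : ℝ}

/-- the noise is invisible on the polynomial `P` -/
def Still (y : Fin d → Poly d) (l : Fin d) (r : ℝ) (h : Poly d → ℝ) (P : Poly d) : Prop :=
  ∀ k : ℕ, ext h ((⇑(dd y l))^[k] (ι P)) * r ^ k ≤ ext h (ι P)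

/-- the noise of size `r` in direction `y_l` -/
noncomputable def stp (y : Fin d → Poly d) (l : Fin d) (r : ℝ) (h : Poly d → ℝ) : Poly d → ℝ :=
  fun P => Real.log (dsup (ext h) (dd y l) r (ι P))

/-- a still element of `ℂ[y]` divisible by the Jacobian determinant of `y` -/
def StillJac (y : Fin d → Poly d) (l : Fin d) (r : ℝ) (h : Poly d → ℝ) : Prop :=
  ∃ G : Poly d, aeval y G ≠ 0 ∧ jac y ∣ aeval y G ∧ Still y l r h (aeval y G)

/-- restriction of a derivation to a subfield -/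
private lemma exists_restrict_deriv {F K : Type*} [Field F] [Field K] [Algebra F K]
    (D : Derivation ℤ K K) (hD : ∀ x : F, ∃ z : F, D (algebraMap F K x) = algebraMap F K z) :
    ∃ DF : Derivation ℤ F F, ∀ x, D (algebraMap F K x) = algebraMap F K (DF x) := by
  choose f hf using hD
  have hi := (algebraMap F K).injective
  have ha : ∀ x y, f (x + y) = f x + f y := fun x y => hi (by
    rw [← hf, map_add, map_add, hf, hf, map_add])
  have hm : ∀ x y, f (x * y) = x * f y + y * f x := fun x y => hi (by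
    rw [← hf, map_mul, D.leibniz, smul_eq_mul, smul_eq_mul, hf, hf, map_add, map_mul, map_mul])
  exact ⟨Derivation.mk' (AddMonoidHom.mk' f ha).toIntLinearMap fun x y => by
    rw [smul_eq_mul, smul_eq_mul]; exact hm x y, hf⟩

/-- generic form of `dbd_of_stillJac` -/
private lemma bound_core {B F K : Type*} [CommRing B] [IsDomain B] [Field F] [Field K]
    [Algebra B F] [IsFractionRing B F] [Algebra F K] [Algebra.IsAlgebraic F K] {h : K → ℝ}
    (hh : NAbs h) (D : Derivation ℤ K K) {r : ℝ} (hr : 0 < r) (i : B →+* K)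
    (hi : ∀ b, i b = algebraMap F K (algebraMap B F b)) (hDB : ∀ b : B, ∃ b' : B, D (i b) = i b')
    (hbd : ∀ b, DBd h D r (i b)) (A : Set K)
    (hA : ∀ P ∈ A, ∀ j, ∃ b : B, algebraMap B F b = (minpoly F P).coeff j)
    (hδ : ∀ P ∈ A, ∀ k : ℕ, ∃ (c : B) (m : ℕ), i c ≠ 0 ∧ h (i c) = dsup h D r (i c) ∧
      i c ^ m * (⇑D)^[k] P ∈ A) : ∀ P ∈ A, DBd h D r P := by
  have hinj : Function.Injective i := by
    intro a b hab
    rw [hi, hi] at hab
    exact IsFractionRing.injective B F ((algebraMap F K).injective hab)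
  have hu := nabs_dsup hh hr i hinj hbd
  obtain ⟨v, hv, hvB⟩ := hu.exists_frac (K := F)
  have hstep : ∀ b : B, ∃ b' : B, D (algebraMap F K (algebraMap B F b)) =
      algebraMap F K (algebraMap B F b') := fun b => by
    obtain ⟨b', hb'⟩ := hDB b
    exact ⟨b', by rw [← hi, ← hi, hb']⟩
  have hDF : ∀ x : F, ∃ z : F, D (algebraMap F K x) = algebraMap F K z := by
    intro x
    obtain ⟨a, b, hb, rfl⟩ := IsFractionRing.div_surjective (A := B) x
    have hb0 : algebraMap B F b ≠ 0 :=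
      (map_ne_zero_iff _ (IsFractionRing.injective B F)).2 (nonZeroDivisors.ne_zero hb)
    obtain ⟨a', ha'⟩ := hstep a
    obtain ⟨b', hb'⟩ := hstep b
    refine ⟨(algebraMap B F a' - algebraMap B F a / algebraMap B F b * algebraMap B F b') /
      algebraMap B F b, ?_⟩
    have hb1 : algebraMap F K (algebraMap B F b) ≠ 0 :=
      (map_ne_zero_iff _ (algebraMap F K).injective).2 hb0
    have h1 : D (algebraMap F K (algebraMap B F a)) =
        D (algebraMap F K (algebraMap B F a / algebraMap B F b) *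
          algebraMap F K (algebraMap B F b)) := by
      rw [← map_mul, div_mul_cancel₀ _ hb0]
    rw [D.leibniz, smul_eq_mul, smul_eq_mul, ha', hb'] at h1
    have h2 : D (algebraMap F K (algebraMap B F a / algebraMap B F b)) =
        (algebraMap F K (algebraMap B F a') - algebraMap F K (algebraMap B F a /
          algebraMap B F b) * algebraMap F K (algebraMap B F b')) /
          algebraMap F K (algebraMap B F b) := by
      rw [eq_div_iff hb1, h1]
      ring
    rw [h2, ← map_mul, ← map_sub, ← map_div₀]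
  obtain ⟨DF, hDF'⟩ := exists_restrict_deriv D hDF
  have hc : ∀ x : F, v (DF x) ≤ r⁻¹ * v x := by
    refine hv.deriv_frac (A := B) DF fun a => ?_
    obtain ⟨b, hb⟩ := hstep a
    have h1 : DF (algebraMap B F a) = algebraMap B F b :=
      (algebraMap F K).injective (by rw [← hDF', hb])
    rw [h1, hvB, hvB]
    have h2 := dsup_deriv_le hr (hbd a)
    rwa [hi, hb, ← hi, ← hi] at h2
  have key := exists_bound hh hv D DF hDF' hc A (fun P hP j => by
      obtain ⟨b, hb⟩ := hA P hP j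
      rw [← hb, hvB, ← hi]
      exact (hbd b).self_le) (fun P hP k => by
      obtain ⟨c, m, h0, h1, h2⟩ := hδ P hP k
      refine ⟨algebraMap B F c ^ m, ?_, ?_, ?_⟩
      · rw [hv.pow, hvB, ← h1]
        exact pow_ne_zero _ (hh.ne_zero h0)
      · rw [hv.pow, hvB, map_pow, ← hi, hh.pow, h1]
      · rw [map_pow, ← hi]
        exact h2)
  intro P hP
  obtain ⟨C, hC⟩ := key P hP
  refine ⟨C, fun k => ?_⟩
  have h1 := mul_le_mul_of_nonneg_right (hC k) (pow_pos hr k).le
  rwa [mul_assoc, ← mul_pow, inv_mul_cancel₀ hr.ne', one_pow, mul_one] at h1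

private lemma dbd_of_nilp {K : Type*} [Field K] {h : K → ℝ} (hh : NAbs h) {D : Derivation ℤ K K}
    {r : ℝ} {x : K} (hn : ∃ n : ℕ, ∀ k, n ≤ k → (⇑D)^[k] x = 0) : DBd h D r x := by
  obtain ⟨n, hn⟩ := hn
  have h1 : (Set.range fun k : ℕ => h ((⇑D)^[k] x) * r ^ k).Finite := by
    refine ((Finset.finite_toSet (Finset.image (fun k : ℕ => h ((⇑D)^[k] x) * r ^ k)
      (Finset.range n))).union (Set.finite_singleton 0)).subset ?_
    rintro _ ⟨k, rfl⟩
    rcases lt_or_ge k n with hk | hk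
    · exact Or.inl (Finset.mem_coe.2 (Finset.mem_image_of_mem _ (Finset.mem_range.2 hk)))
    · right
      simp only [hn k hk, hh.zero, zero_mul, Set.mem_singleton_iff]
  obtain ⟨C, hC⟩ := h1.bddAbove
  exact ⟨C, fun k => hC ⟨k, rfl⟩⟩

/-- boundedness of all Taylor series (from `exists_bound`) -/
theorem dbd_of_stillJac (hy : Frame y) (hh : IsVal h) (hr : 0 < r) (hs : StillJac y l r h)
    (P : Poly d) : DBd (ext h) (dd y l) r (ι P) := by
  have hv := hh.nabs_ext
  have hbd : ∀ F : Poly d, DBd (ext h) (dd y l) r (ι (aeval y F)) := fun F =>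
    dbd_of_nilp hv (dd_nilpotent hy l F)
  have hle : BB y ≤ (FF y).toSubalgebra := IntermediateField.algebra_adjoin_le_adjoin ℂ _
  let _ : Algebra (BB y) (FF y) := (Subalgebra.inclusion hle).toRingHom.toAlgebra
  have hmap : ∀ b : BB y, ((algebraMap (BB y) (FF y) b : FF y) : KK d) = b := fun b => rfl
  have hfr : IsFractionRing (BB y) (FF y) := by
    have : FaithfulSMul (BB y) (FF y) := (faithfulSMul_iff_algebraMap_injective _ _).2
      fun a b hab => Subtype.ext (by rw [← hmap, ← hmap, hab])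
    refine IsFractionRing.of_field _ _ fun z => ?_
    obtain ⟨F, G, hFG⟩ := mem_FF.1 z.2
    refine ⟨⟨ι (aeval y F), mem_BB.2 ⟨F, rfl⟩⟩, ⟨ι (aeval y G), mem_BB.2 ⟨G, rfl⟩⟩, Subtype.ext ?_⟩
    exact hFG
  have := hy.isAlgebraic
  obtain ⟨G, hG0, ⟨q, hq⟩, hst⟩ := hs
  refine bound_core (B := BB y) (F := FF y) (K := KK d) hv (dd y l) hr
    ((BB y).val : BB y →ₐ[ℂ] KK d).toRingHom (fun b => (hmap b).symm) ?_ ?_ (Set.range ι) ?_ ?_
    (ι P) ⟨P, rfl⟩
  · rintro ⟨b, hb⟩
    obtain ⟨F, rfl⟩ := mem_BB.1 hb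
    exact ⟨⟨ι (aeval y (pderiv l F)), mem_BB.2 ⟨_, rfl⟩⟩, dd_aeval hy l F⟩
  · rintro ⟨b, hb⟩
    obtain ⟨F, rfl⟩ := mem_BB.1 hb
    exact hbd F
  · rintro _ ⟨P, rfl⟩ j
    obtain ⟨F, hF⟩ := hy.minpoly_coeff P j
    exact ⟨⟨ι (aeval y F), mem_BB.2 ⟨_, rfl⟩⟩, Subtype.ext hF.symm⟩
  · rintro _ ⟨a, rfl⟩ k
    obtain ⟨m, b, hb⟩ := dd_den hy l a k
    refine ⟨⟨ι (aeval y G), mem_BB.2 ⟨_, rfl⟩⟩, m, (map_ne_zero_iff _ ι_inj).2 hG0, ?_,
      q ^ m * b, ?_⟩
    · exact le_antisymm (hbd G).self_le (dsup_le hst)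
    · change ι (q ^ m * b) = ι (aeval y G) ^ m * _
      rw [hq, map_mul, map_mul, mul_pow, ← hb, map_pow]
      ring

/-- the noise is an absolute value -/
theorem nabs_stp (hy : Frame y) (hh : IsVal h) (hr : 0 < r) (hs : StillJac y l r h) :
    NAbs fun P : Poly d => dsup (ext h) (dd y l) r (ι P) :=
  nabs_dsup hh.nabs_ext hr (ι : Poly d →+* KK d) ι_inj (dbd_of_stillJac hy hh hr hs)

lemma isVal_stp (hy : Frame y) (hh : IsVal h) (hr : 0 < r) (hs : StillJac y l r h) :
    IsVal (stp y l r h) :=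
  isVal_log (nabs_stp hy hh hr hs) fun c hc => by
    rw [(dsup_of_deriv_eq_zero hh.nabs_ext (dd_C y l c)).2, hh.ext_C hc]

lemma mv_stp (hy : Frame y) (hh : IsVal h) (hr : 0 < r) (hs : StillJac y l r h) (P : Poly d) :
    mv (stp y l r h) P = dsup (ext h) (dd y l) r (ι P) :=
  congrFun (mv_log (nabs_stp hy hh hr hs)) P

/-- noise increases the valuation -/
lemma le_stp (hy : Frame y) (hh : IsVal h) (hr : 0 < r) (hs : StillJac y l r h) (P : Poly d) :
    h P ≤ stp y l r h P := by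
  rcases eq_or_ne P 0 with rfl | hP
  · rw [hh.zero, (isVal_stp hy hh hr hs).zero]
  · have h1 := (dbd_of_stillJac hy hh hr hs P).self_le
    rw [ext_ι hh, mv_of_ne h hP] at h1
    rw [← Real.log_exp (h P)]
    exact Real.log_le_log (Real.exp_pos _) h1

/-- noise does not change the values of still elements -/
lemma stp_of_still (hh : IsVal h) {P : Poly d} (hP : Still y l r h P) : stp y l r h P = h P := by
  have hb : DBd (ext h) (dd y l) r (ι P) := ⟨_, hP⟩
  have h1 : dsup (ext h) (dd y l) r (ι P) = ext h (ι P) := le_antisymm (dsup_le hP) hb.self_le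
  unfold stp
  rw [h1, ext_ι hh, hh.log_mv]

/-- norm trick: noise does not change the values of divisors of still elements -/
theorem stp_of_dvd (hy : Frame y) (hh : IsVal h) (hr : 0 < r) (hs : StillJac y l r h)
    {P Q : Poly d} (hQ : Q ≠ 0) (hPQ : P ∣ Q) (hst : Still y l r h Q) : stp y l r h P = h P := by
  obtain ⟨S, rfl⟩ := hPQ
  have hP : P ≠ 0 := left_ne_zero_of_mul hQ
  have hS : S ≠ 0 := right_ne_zero_of_mul hQ
  have h1 := stp_of_still hh hst
  rw [(isVal_stp hy hh hr hs).mul P S hP hS, hh.mul P S hP hS] at h1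
  have h2 := le_stp hy hh hr hs P
  have h3 := le_stp hy hh hr hs S
  linarith

/-- **noise preserves fatness** -/
theorem isFat_stp (hy : Frame y) (hh : IsVal h) (hf : IsFat h) (hr : 0 < r)
    (hs : StillJac y l r h) : IsFat (stp y l r h) := by
  have hv := hh.nabs_ext
  refine isFat_log (nabs_stp hy hh hr hs) fun P => ?_
  have hjac : dsup (ext h) (dd y l) r (ι (jac y)) = ext h (ι (jac y)) := by
    obtain ⟨G, hG0, hdvd, hst⟩ := hs
    have hs' : StillJac y l r h := ⟨G, hG0, hdvd, hst⟩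
    have hj : jac y ≠ 0 := hy.jac_ne_zero
    rw [← mv_stp hy hh hr hs', mv_of_ne _ hj, stp_of_dvd hy hh hr hs' hG0 hdvd hst, ext_ι hh,
      mv_of_ne _ hj]
  have hjpos : 0 < ext h (ι (jac y)) := hv.pos ((map_ne_zero_iff _ ι_inj).2 hy.jac_ne_zero)
  have hprod : (0 : ℝ) ≤ ∏ i, dsup (ext h) (dd y l) r (ι (P i)) :=
    Finset.prod_nonneg fun i _ => dsup_nonneg hv hr.le
  have hdet : ι (jac P) = ι (jac y) * (Matrix.of fun i j => dd y i (ι (P j))).det := by
    rw [← det_pdK hy, jac, RingHom.map_det]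
    congr 1
    ext i j
    exact (pdK_ι i (P j)).symm
  change dsup (ext h) (dd y l) r (ι (jac P)) ≤ _
  refine dsup_le fun n => ?_
  rw [hdet, iter_mul, ← le_div_iff₀ (pow_pos hr n)]
  refine hv.sum_le (div_nonneg hprod (pow_pos hr n).le) fun a ha => ?_
  have han : a ≤ n := Nat.lt_succ_iff.1 (Finset.mem_range.1 ha)
  refine (hv.nat_mul_le _ _).trans ?_
  rw [hv.mul, le_div_iff₀ (pow_pos hr n)]
  have h1 : ext h ((⇑(dd y l))^[a] (ι (jac y))) * r ^ a ≤ ext h (ι (jac y)) := by
    rw [← hjac]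
    exact (dbd_of_stillJac hy hh hr hs (jac y)).le_dsup a
  have h2 := iter_dd_det_le hy l hh hf hr (n - a) (fun j => ι (P j))
    (fun j => dsup (ext h) (dd y l) r (ι (P j)))
    (fun j k => (dbd_of_stillJac hy hh hr hs (P j)).le_dsup k)
  have h3 : r ^ n = r ^ a * r ^ (n - a) := by rw [← pow_add, Nat.add_sub_cancel' han]
  calc ext h ((⇑(dd y l))^[a] (ι (jac y))) *
        ext h ((⇑(dd y l))^[n - a] (Matrix.of fun i j => dd y i (ι (P j))).det) * r ^ n
      = (ext h ((⇑(dd y l))^[a] (ι (jac y))) * r ^ a) *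
        (ext h ((⇑(dd y l))^[n - a] (Matrix.of fun i j => dd y i (ι (P j))).det) *
          r ^ (n - a)) := by rw [h3]; ring
    _ ≤ ext h (ι (jac y)) * ((∏ j, dsup (ext h) (dd y l) r (ι (P j))) / ext h (ι (jac y))) :=
        mul_le_mul h1 h2 (mul_nonneg (hv.nonneg _) (pow_pos hr _).le) hjpos.le
    _ = ∏ j, dsup (ext h) (dd y l) r (ι (P j)) := by
        rw [mul_div_cancel₀ _ hjpos.ne']

/-- a valuation which is at least `h`, where `h` is monomial in parameters `g`, and has the same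
values on `g`, is equal to `h` -/
theorem eq_of_isMono {g : Fin d → Poly d} (hg : Frame g) {h' : Poly d → ℝ} (hh : IsVal h)
    (hh' : IsVal h') (hm : IsMono g h) (hle : ∀ P, h P ≤ h' P) (heq : ∀ i, h' (g i) = h (g i)) :
    h' = h := by
  have hv' := hh'.nabs_mv
  have hg0 : ∀ i, g i ≠ 0 := fun i hi => by
    have h1 := hg.aeval_ne_zero (F := X i) (X_ne_zero i)
    rw [aeval_X] at h1
    exact h1 hi
  have key : ∀ F : Poly d, aeval g F ≠ 0 → h' (aeval g F) = h (aeval g F) := by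
    intro F hF
    refine le_antisymm ?_ (hle _)
    have h1 : mv h' (aeval g F) ≤ mv h (aeval g F) := by
      have h2 : aeval g F = ∑ m ∈ F.support, C (F.coeff m) * ∏ i, g i ^ m i := by
        rw [aeval_def, eval₂_eq', algebraMap_eq]
      rw [h2]
      refine hv'.sum_le (mv_nonneg _ _) fun m hmF => ?_
      rw [← h2, hv'.mul, hh'.mv_C (mem_support_iff.1 hmF), one_mul, hv'.prod]
      have h3 : ∀ i ∈ Finset.univ, mv h' (g i ^ m i) = Real.exp ((m i : ℝ) * h (g i)) :=
        fun i _ => by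
          rw [hv'.pow, mv_of_ne _ (hg0 i), heq, ← Real.exp_nat_mul]
      rw [Finset.prod_congr rfl h3, ← Real.exp_sum, mv_of_ne _ hF]
      exact Real.exp_le_exp.2 (hm F m hmF)
    rw [mv_of_ne _ hF, mv_of_ne _ hF] at h1
    exact Real.exp_le_exp.1 h1
  funext P
  rcases eq_or_ne P 0 with rfl | hP
  · rw [hh.zero, hh'.zero]
  · obtain ⟨G, hG0, S, hS⟩ := hg.exists_dvd hP
    have h1 := key G hG0
    rw [hS] at h1 hG0
    have hS0 : S ≠ 0 := right_ne_zero_of_mul hG0
    rw [hh'.mul P S hP hS0, hh.mul P S hP hS0] at h1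
    have h2 := hle P
    have h3 := hle S
    linarith

end Pool.Agent.DAE
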