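import Pool.Agent.DAE.R.Decomp
import Pool.Agent.DAE.R.Step

/-!
# The Gauss property under noise
-/

set_option autoImplicit false

namespace Pool.Agent.DAE

open MvPolynomial Pool.Agent.H17Dyn

variable {d : ℕ} {y : Fin d → Poly d} {l : Fin d} {h : Poly d → ℝ} {r : ℝ}

private lemma gaussB_iter_const {K : Type*} [Field K] (D : Derivation ℤ K K) {z : K}
    (hz : D z = 0) (k : ℕ) (x : K) : (⇑D)^[k] (x * z) = (⇑D)^[k] x * z := by
  induction k generalizing x with
  | zero => rfl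
  | succ k ih =>
    rw [Function.iterate_succ_apply, Function.iterate_succ_apply, D.leibniz, hz, smul_zero,
      zero_add, smul_eq_mul, mul_comm z, ih]

/-- stillness of a polynomial follows from stillness of its coefficients -/
theorem still_of_decomp (hy : Frame y) (hh : IsVal h) (hr : 0 < r)
    (hg : ∀ i, l < i → GaussAt y i h) {Q : Set (Poly d)} {F : Poly d} (hF : Decomp l Q F)
    (hQ : ∀ q ∈ Q, Still y l r h (aeval y q)) : Still y l r h (aeval y F) := by
  obtain ⟨Γ, f, h1, h2, h3⟩ := hF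
  have hv := hh.nabs_ext
  intro k
  have h4 : (ι (aeval y F) : KK d) =
      ∑ γ ∈ Γ, ι (aeval y (f γ)) * ι (aeval y (monomial γ (1 : ℂ))) := by
    rw [h3, map_sum, map_sum]
    exact Finset.sum_congr rfl fun γ _ => by rw [map_mul, map_mul]
  have h5 : (⇑(dd y l))^[k] (ι (aeval y F)) =
      ∑ γ ∈ Γ, (⇑(dd y l))^[k] (ι (aeval y (f γ))) * ι (aeval y (monomial γ (1 : ℂ))) := by
    rw [h4, iter_sum]
    refine Finset.sum_congr rfl fun γ hγ => gaussB_iter_const _ ?_ _ _
    rw [dd_aeval hy, pderiv_monomial, h1 γ hγ l le_rfl]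
    simp
  rw [h5, ← le_div_iff₀ (pow_pos hr k)]
  refine hv.sum_le (div_nonneg (hv.nonneg _) (pow_pos hr k).le) fun γ hγ => ?_
  rw [le_div_iff₀ (pow_pos hr k), hv.mul]
  calc ext h ((⇑(dd y l))^[k] (ι (aeval y (f γ)))) * ext h (ι (aeval y (monomial γ (1 : ℂ)))) * r ^ k
      = (ext h ((⇑(dd y l))^[k] (ι (aeval y (f γ)))) * r ^ k) *
          ext h (ι (aeval y (monomial γ (1 : ℂ)))) := by ring
    _ ≤ ext h (ι (aeval y (f γ))) * ext h (ι (aeval y (monomial γ (1 : ℂ)))) :=
        mul_le_mul_of_nonneg_right (hQ _ (h2 γ hγ).2 k) (hv.nonneg _)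
    _ = mv h (aeval y (f γ * monomial γ 1)) := by
        rw [← hv.mul, ← map_mul, ← map_mul, ext_ι hh]
    _ ≤ mv h (aeval y F) := Decomp.le hg h1 (fun γ' hγ' => (h2 γ' hγ').1) h3 hγ
    _ = ext h (ι (aeval y F)) := (ext_ι hh _).symm

/-- noise in another direction preserves the Gauss property -/
theorem GaussAt.stp {i : Fin d} (hy : Frame y) (hh : IsVal h) (hr : 0 < r)
    (hs : StillJac y l r h) (hil : l ≠ i) (hg : GaussAt y i h) : GaussAt y i (stp y l r h) := by
  intro F m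
  rw [mv_stp hy hh hr hs, mv_stp hy hh hr hs]
  refine dsup_le fun k => ?_
  have h1 : ∀ (k : ℕ) (G : Poly d), (⇑(pderiv l))^[k] (compAt i m G) =
      compAt i m ((⇑(pderiv l))^[k] G) := by
    intro k
    induction k with
    | zero => exact fun G => rfl
    | succ k ih =>
      intro G
      rw [Function.iterate_succ_apply, Function.iterate_succ_apply, pderiv_compAt_of_ne hil, ih]
  have h2 := (dbd_of_stillJac hy hh hr hs (aeval y F)).le_dsup k
  refine le_trans ?_ h2
  refine mul_le_mul_of_nonneg_right ?_ (pow_pos hr k).le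
  rw [dd_iter_aeval hy, dd_iter_aeval hy, h1, ext_ι hh, ext_ι hh]
  exact hg _ m

/-- the product of the still polynomials has maximal derivative after the noise as soon as one of
them has a dominating derivative of positive order -/
theorem dsup_deriv_prod (hy : Frame y) (hh : IsVal h) (hr : 0 < r) (Q : Finset (Poly d))
    (hQ0 : ∀ q ∈ Q, q ≠ 0) (hQ : ∀ q ∈ Q, Still y l r h (aeval y q)) {q : Poly d} (hq : q ∈ Q)
    {k : ℕ} (hk : 1 ≤ k)
    (heq : ext h ((⇑(dd y l))^[k] (ι (aeval y q))) * r ^ k = ext h (ι (aeval y q))) :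
    dsup (ext h) (dd y l) r (dd y l (ι (aeval y (∏ q ∈ Q, q)))) =
      r⁻¹ * dsup (ext h) (dd y l) r (ι (aeval y (∏ q ∈ Q, q))) := by
  classical
  have hv := hh.nabs_ext
  have htop : ∀ q : Poly d, ∃ n : ℕ, q ∈ Q →
      DBd (ext h) (dd y l) r (ι (aeval y q)) ∧ IsTop (ext h) (dd y l) r (ι (aeval y q)) n := by
    intro q
    by_cases hq : q ∈ Q
    · obtain ⟨n, hn⟩ := dd_nilpotent hy l q
      obtain ⟨hb, m, hm⟩ := exists_isTop hv hr
        ((map_ne_zero_iff _ ι_inj).2 (hy.aeval_ne_zero (hQ0 q hq))) ⟨n, hn n le_rfl⟩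
      exact ⟨m, fun _ => ⟨hb, hm⟩⟩
    · exact ⟨0, fun h => absurd h hq⟩
  choose n hn using htop
  have key : ∀ T : Finset (Poly d), T ⊆ Q →
      DBd (ext h) (dd y l) r (ι (aeval y (∏ q ∈ T, q))) ∧
      IsTop (ext h) (dd y l) r (ι (aeval y (∏ q ∈ T, q))) (∑ q ∈ T, n q) := by
    intro T
    induction T using Finset.induction_on with
    | empty =>
      intro _
      have h1 : dd y l (ι (aeval y (∏ q ∈ (∅ : Finset (Poly d)), q))) = 0 := by
        rw [Finset.prod_empty, map_one, map_one, Derivation.map_one_eq_zero]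
      obtain ⟨h2, h3⟩ := dsup_of_deriv_eq_zero (r := r) hv h1
      refine ⟨h2, ?_, fun k hk => ?_⟩
      · rw [Finset.sum_empty, pow_zero, mul_one, h3]
        rfl
      · rw [Finset.sum_empty] at hk
        obtain ⟨j, rfl⟩ := Nat.exists_eq_succ_of_ne_zero hk.ne'
        rw [Function.iterate_succ_apply, h1, iter_zero, hv.zero, zero_mul, h3,
          Finset.prod_empty, map_one, map_one]
        rw [hv.one]
        exact one_pos
    | insert a T ha ih =>
      intro hT
      obtain ⟨h1, h2⟩ := ih fun q hq => hT (Finset.mem_insert_of_mem hq)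
      obtain ⟨h3, h4⟩ := hn a (hT (Finset.mem_insert_self a T))
      rw [Finset.prod_insert ha, Finset.sum_insert ha, map_mul, map_mul]
      exact ⟨DBd.mul hv hr.le h3 h1, IsTop.mul hv hr h3 h1 h4 h2⟩
  obtain ⟨h1, h2⟩ := key Q (Finset.Subset.refl Q)
  refine IsTop.dsup_deriv hv hr h1 h2 ?_
  have h3 : 1 ≤ n q := by
    refine (hn q hq).2.pos hk ?_
    rw [heq]
    exact le_antisymm (hn q hq).1.self_le (dsup_le (hQ q hq))
  exact h3.trans (Finset.single_le_sum (f := n) (fun _ _ => Nat.zero_le _) hq)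

private lemma gaussB_subst (G : Poly d) (F : Poly d) :
    aeval (Function.update y l (aeval y G)) F =
      aeval y ((aeval (Function.update (fun j => (X j : Poly d)) l G) : Poly d →ₐ[ℂ] Poly d) F) := by
  have h1 : (aeval (Function.update y l (aeval y G)) : Poly d →ₐ[ℂ] Poly d) =
      (aeval y).comp (aeval (Function.update (fun j => (X j : Poly d)) l G)) := by
    apply MvPolynomial.algHom_ext
    intro j
    rw [aeval_X, AlgHom.comp_apply, aeval_X]
    by_cases hj : j = l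
    · subst hj
      rw [Function.update_self, Function.update_self]
    · rw [Function.update_of_ne hj, Function.update_of_ne hj, aeval_X]
  rw [h1, AlgHom.comp_apply]

private lemma gaussB_chain (G : Poly d) (F : Poly d) :
    pderiv l ((aeval (Function.update (fun j => (X j : Poly d)) l G) : Poly d →ₐ[ℂ] Poly d) F) =
      (aeval (Function.update (fun j => (X j : Poly d)) l G) : Poly d →ₐ[ℂ] Poly d)
        (pderiv l F) * pderiv l G := by
  induction F using MvPolynomial.induction_on with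
  | C a =>
    rw [aeval_C, algebraMap_eq, pderiv_C, map_zero, zero_mul]
  | add p q hp hq => rw [map_add, map_add, map_add, map_add, hp, hq, add_mul]
  | mul_X p j hp =>
    rw [map_mul, pderiv_mul, pderiv_mul, hp, map_add, map_mul, map_mul, aeval_X]
    by_cases hj : j = l
    · subst hj
      rw [Function.update_self, pderiv_X_self, map_one]
      ring
    · rw [Function.update_of_ne hj, pderiv_X_of_ne hj, map_zero]
      ring

/-- **the Gauss property in the new parameter** `g = ∏ q(y)` -/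
theorem gaussAt_new (hy : Frame y) (hh : IsVal h) (hr : 0 < r) (hs : StillJac y l r h)
    (Q : Finset (Poly d)) (hQ0 : ∀ q ∈ Q, q ≠ 0) (hQ : ∀ q ∈ Q, Still y l r h (aeval y q))
    {q : Poly d} (hq : q ∈ Q) {k : ℕ} (hk : 1 ≤ k)
    (heq : ext h ((⇑(dd y l))^[k] (ι (aeval y q))) * r ^ k = ext h (ι (aeval y q))) :
    GaussAt (Function.update y l (aeval y (∏ q ∈ Q, q))) l (stp y l r h) := by
  have hG : (∏ q ∈ Q, q) ≠ 0 := Finset.prod_ne_zero_iff.2 hQ0
  have h3 := dsup_deriv_prod hy hh hr Q hQ0 hQ hq hk heq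
  set G : Poly d := ∏ q ∈ Q, q with hGdef
  refine gaussAt_of_deriv (isVal_stp hy hh hr hs) ?_ hr (aeval y (pderiv l G)) (fun F => ?_) ?_
  · rw [Function.update_self]
    exact hy.aeval_ne_zero hG
  · rw [mv_stp hy hh hr hs, mv_stp hy hh hr hs]
    have h1 : (ι (aeval (Function.update y l (aeval y G)) (pderiv l F) *
        aeval y (pderiv l G)) : KK d) =
        dd y l (ι (aeval (Function.update y l (aeval y G)) F)) := by
      rw [gaussB_subst, gaussB_subst, dd_aeval hy, gaussB_chain, map_mul, map_mul, map_mul]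
    rw [h1]
    exact dsup_deriv_le hr (dbd_of_stillJac hy hh hr hs _)
  · rw [mv_stp hy hh hr hs, mv_stp hy hh hr hs, Function.update_self, ← h3, dd_aeval hy]

/-- the Gauss property in the old parameters `i > l` after the parameter `y_l` has been replaced
by a polynomial in `y_j`, `j ≤ l` -/
theorem gaussAt_old {i : Fin d} (hil : l < i) (hg : GaussAt y i h) {G : Poly d}
    (hG : G ∈ Low l) : GaussAt (Function.update y l (aeval y G)) i h := by
  have h1 := hg.subst (aeval (Function.update (fun j => (X j : Poly d)) l G)) ?_ ?_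
  · have h2 : (fun j => aeval y ((aeval (Function.update (fun j => (X j : Poly d)) l G) :
        Poly d →ₐ[ℂ] Poly d) (X j))) = Function.update y l (aeval y G) := by
      funext j
      rw [aeval_X]
      by_cases hj : j = l
      · subst hj
        rw [Function.update_self, Function.update_self]
      · rw [Function.update_of_ne hj, Function.update_of_ne hj, aeval_X]
    rw [h2] at h1
    exact h1
  · rw [aeval_X, Function.update_of_ne hil.ne']
  · intro j hj
    rw [aeval_X]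
    by_cases hjl : j = l
    · subst hjl
      rw [Function.update_self]
      exact supported_mono (fun a ha => (lt_of_le_of_lt ha hil).ne) hG
    · rw [Function.update_of_ne hjl]
      exact X_mem_supported.2 hj

private lemma gaussB_ext_pos (h : Poly d → ℝ) {x : KK d} (hx : x ≠ 0) : 0 < ext h x := by
  have h1 : x * ι ((IsLocalization.sec (nonZeroDivisors (Poly d)) x).2 : Poly d) =
      ι (IsLocalization.sec (nonZeroDivisors (Poly d)) x).1 := IsLocalization.sec_spec _ x
  have h2 : ((IsLocalization.sec (nonZeroDivisors (Poly d)) x).2 : Poly d) ≠ 0 :=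
    nonZeroDivisors.ne_zero (IsLocalization.sec (nonZeroDivisors (Poly d)) x).2.2
  have h3 : (IsLocalization.sec (nonZeroDivisors (Poly d)) x).1 ≠ 0 := by
    intro h4
    rw [h4, map_zero] at h1
    rcases mul_eq_zero.1 h1 with h5 | h5
    · exact hx h5
    · exact h2 ((map_eq_zero_iff _ ι_inj).1 h5)
  unfold ext
  rw [mv_of_ne h h2, mv_of_ne h h3]
  positivity

/-- **a continuous radius**: all elements of `Q` are still, one of them only just -/
theorem exists_radius (hy : Frame y) (l : Fin d) (Q : Finset (Poly d)) (hQ0 : ∀ q ∈ Q, q ≠ 0)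
    (hX : (X l : Poly d) ∈ Q) :
    ∃ ρ : (Poly d → ℝ) → ℝ, Continuous ρ ∧ (∀ h, 0 < ρ h) ∧ ∀ h, IsVal h →
      (∀ q ∈ Q, Still y l (ρ h) h (aeval y q)) ∧
      ∃ q ∈ Q, ∃ k : ℕ, 1 ≤ k ∧
        ext h ((⇑(dd y l))^[k] (ι (aeval y q))) * (ρ h) ^ k = ext h (ι (aeval y q)) := by
  classical
  choose N hN using fun q : Poly d => dd_nilpotent hy l q
  obtain ⟨I, hI⟩ : ∃ I : Finset (Poly d × ℕ), ∀ p : Poly d × ℕ, p ∈ I ↔
      p.1 ∈ Q ∧ 1 ≤ p.2 ∧ (⇑(dd y l))^[p.2] (ι (aeval y p.1)) ≠ 0 := by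
    refine ⟨(Q ×ˢ Finset.range (Q.sup N + 1)).filter fun p => 1 ≤ p.2 ∧
      (⇑(dd y l))^[p.2] (ι (aeval y p.1)) ≠ 0, fun p => ?_⟩
    rw [Finset.mem_filter, Finset.mem_product, Finset.mem_range]
    constructor
    · rintro ⟨⟨h1, -⟩, h2, h3⟩
      exact ⟨h1, h2, h3⟩
    · rintro ⟨h1, h2, h3⟩
      refine ⟨⟨h1, ?_⟩, h2, h3⟩
      by_contra h4
      apply h3
      have h5 : N p.1 ≤ Q.sup N := Finset.le_sup h1
      exact hN p.1 p.2 (by omega)
  have hne : I.Nonempty := by
    refine ⟨(X l, 1), (hI _).2 ⟨hX, le_rfl, ?_⟩⟩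
    rw [dd_iter_aeval hy, Function.iterate_one, pderiv_X_self, map_one, map_one]
    exact one_ne_zero
  have hpos1 : ∀ (h : Poly d → ℝ), ∀ p ∈ I, 0 < ext h (ι (aeval y p.1)) := by
    intro h p hp
    exact gaussB_ext_pos h
      ((map_ne_zero_iff _ ι_inj).2 (hy.aeval_ne_zero (hQ0 p.1 ((hI p).1 hp).1)))
  have hpos2 : ∀ (h : Poly d → ℝ), ∀ p ∈ I, 0 < ext h ((⇑(dd y l))^[p.2] (ι (aeval y p.1))) :=
    fun h p hp => gaussB_ext_pos h ((hI p).1 hp).2.2
  obtain ⟨φ, hφ⟩ : ∃ φ : Poly d × ℕ → (Poly d → ℝ) → ℝ, ∀ p h, φ p h =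
      (ext h (ι (aeval y p.1)) / ext h ((⇑(dd y l))^[p.2] (ι (aeval y p.1)))) ^
        ((p.2 : ℝ)⁻¹) := ⟨fun p h => _, fun p h => rfl⟩
  have hφ0 : ∀ h, ∀ p ∈ I, 0 < φ p h := by
    intro h p hp
    rw [hφ]
    exact Real.rpow_pos_of_pos (div_pos (hpos1 h p hp) (hpos2 h p hp)) _
  have hφk : ∀ h, ∀ p ∈ I, ext h ((⇑(dd y l))^[p.2] (ι (aeval y p.1))) * φ p h ^ p.2 =
      ext h (ι (aeval y p.1)) := by
    intro h p hp
    have h1 : p.2 ≠ 0 := by
      have := ((hI p).1 hp).2.1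
      omega
    rw [hφ, Real.rpow_inv_natCast_pow (div_pos (hpos1 h p hp) (hpos2 h p hp)).le h1,
      mul_div_cancel₀ _ (hpos2 h p hp).ne']
  refine ⟨fun h => I.inf' hne fun p => φ p h, ?_, ?_, ?_⟩
  · refine Continuous.finset_inf'_apply hne fun p hp => ?_
    have h1 : φ p = fun h => (ext h (ι (aeval y p.1)) /
        ext h ((⇑(dd y l))^[p.2] (ι (aeval y p.1)))) ^ ((p.2 : ℝ)⁻¹) := funext fun h => hφ p h
    rw [h1]
    refine Continuous.rpow_const ?_ fun h => Or.inr (by positivity)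
    exact (continuous_ext _).div (continuous_ext _) fun h => (hpos2 h p hp).ne'
  · intro h
    exact (Finset.lt_inf'_iff hne).2 fun p hp => hφ0 h p hp
  · intro h hh
    have hv := hh.nabs_ext
    have hρ0 : 0 < I.inf' hne fun p => φ p h :=
      (Finset.lt_inf'_iff hne).2 fun p hp => hφ0 h p hp
    refine ⟨fun q hq k => ?_, ?_⟩
    · rcases Nat.eq_zero_or_pos k with rfl | hk
      · rw [pow_zero, mul_one]
        exact le_rfl
      · by_cases h1 : (⇑(dd y l))^[k] (ι (aeval y q)) = 0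
        · rw [h1, hv.zero, zero_mul]
          exact hv.nonneg _
        · have h2 : (q, k) ∈ I := (hI _).2 ⟨hq, hk, h1⟩
          have h3 : (I.inf' hne fun p => φ p h) ≤ φ (q, k) h :=
            Finset.inf'_le (fun p => φ p h) h2
          rw [← hφk h (q, k) h2]
          exact mul_le_mul_of_nonneg_left (pow_le_pow_left₀ hρ0.le h3 k) (hv.nonneg _)
    · obtain ⟨p, hp, h1⟩ := Finset.exists_mem_eq_inf' hne fun p => φ p h
      refine ⟨p.1, ((hI p).1 hp).1, p.2, ((hI p).1 hp).2.1, ?_⟩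
      show ext h ((⇑(dd y l))^[p.2] (ι (aeval y p.1))) * (I.inf' hne fun p => φ p h) ^ p.2 = _
      rw [h1]
      exact hφk h p hp

private lemma gaussB_lsc {T : Type*} [TopologicalSpace T] {S : Set T} {ρ : T → ℝ}
    {R : T → (Poly d → ℝ)} (hρ : ContinuousOn ρ S) (hR : ContinuousOn R S) {x : KK d}
    (hb : ∀ t ∈ S, DBd (ext (R t)) (dd y l) (ρ t) x) {t₀ : T} (ht : t₀ ∈ S) {a : ℝ}
    (ha : a < dsup (ext (R t₀)) (dd y l) (ρ t₀) x) :
    ∀ᶠ t in nhdsWithin t₀ S, a < dsup (ext (R t)) (dd y l) (ρ t) x := by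
  obtain ⟨k, hk⟩ := exists_lt_of_lt_ciSup ha
  have h1 : ContinuousOn (fun t => ext (R t) ((⇑(dd y l))^[k] x) * ρ t ^ k) S :=
    ((continuous_ext _).comp_continuousOn hR).mul (hρ.pow k)
  have h2 := (h1 t₀ ht).eventually (lt_mem_nhds hk)
  filter_upwards [h2, self_mem_nhdsWithin] with t h3 h4
  exact h3.trans_le ((hb t h4).le_dsup k)

private lemma gaussB_usc {T : Type*} [TopologicalSpace T] {S : Set T} {ρ : T → ℝ}
    {R : T → (Poly d → ℝ)} (hρ : ContinuousOn ρ S) (hR : ContinuousOn R S)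
    (hpos : ∀ t ∈ S, 0 < ρ t) (hv : ∀ t ∈ S, IsVal (R t)) {x : KK d}
    (hn : ∃ n : ℕ, ∀ k, n ≤ k → (⇑(dd y l))^[k] x = 0)
    (hb : ∀ t ∈ S, DBd (ext (R t)) (dd y l) (ρ t) x) {t₀ : T} (ht : t₀ ∈ S) {a : ℝ}
    (ha : dsup (ext (R t₀)) (dd y l) (ρ t₀) x < a) :
    ∀ᶠ t in nhdsWithin t₀ S, dsup (ext (R t)) (dd y l) (ρ t) x < a := by
  obtain ⟨n, hn⟩ := hn
  obtain ⟨b, hb1, hb2⟩ := exists_between ha
  have hb0 : 0 < b := lt_of_le_of_lt (dsup_nonneg (hv t₀ ht).nabs_ext (hpos t₀ ht).le) hb1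
  have h1 : ∀ᶠ t in nhdsWithin t₀ S, ∀ k ∈ Finset.range n,
      ext (R t) ((⇑(dd y l))^[k] x) * ρ t ^ k < b := by
    rw [Filter.eventually_all_finset]
    intro k _
    have h2 : ContinuousOn (fun t => ext (R t) ((⇑(dd y l))^[k] x) * ρ t ^ k) S :=
      ((continuous_ext _).comp_continuousOn hR).mul (hρ.pow k)
    exact (h2 t₀ ht).eventually (gt_mem_nhds (((hb t₀ ht).le_dsup k).trans_lt hb1))
  filter_upwards [h1, self_mem_nhdsWithin] with t h3 h4
  refine lt_of_le_of_lt (dsup_le fun k => ?_) hb2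
  rcases lt_or_ge k n with h5 | h5
  · exact (h3 k (Finset.mem_range.2 h5)).le
  · rw [hn k h5, (hv t h4).nabs_ext.zero, zero_mul]
    exact hb0.le

/-- **continuity of the noise step** -/
theorem continuousOn_stp (hy : Frame y) {T : Type*} [TopologicalSpace T] {S : Set T} {ρ : T → ℝ}
    {R : T → (Poly d → ℝ)} (hρ : ContinuousOn ρ S) (hR : ContinuousOn R S)
    (hpos : ∀ t ∈ S, 0 < ρ t) (hv : ∀ t ∈ S, IsVal (R t))
    (hs : ∀ t ∈ S, StillJac y l (ρ t) (R t)) :
    ContinuousOn (fun t => stp y l (ρ t) (R t)) S := by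
  rw [continuousOn_pi]
  intro P
  rcases eq_or_ne P 0 with rfl | hP
  · refine (continuousOn_const (c := (0 : ℝ))).congr fun t ht => ?_
    show Real.log _ = 0
    rw [map_zero, dsup_zero (hv t ht).nabs_ext, Real.log_zero]
  obtain ⟨G, hG0, P', hP'⟩ := hy.exists_dvd hP
  have hP'0 : P' ≠ 0 := by
    rintro rfl
    rw [mul_zero] at hP'
    exact hG0 hP'
  have hbd : ∀ (F : Poly d), ∀ t ∈ S, DBd (ext (R t)) (dd y l) (ρ t) (ι F) := fun F t ht =>
    dbd_of_stillJac hy (hv t ht) (hpos t ht) (hs t ht) F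
  have hup : ∀ F : Poly d, F ≠ 0 → ∀ t ∈ S, 0 < dsup (ext (R t)) (dd y l) (ρ t) (ι F) := by
    intro F hF t ht
    exact lt_of_lt_of_le ((hv t ht).nabs_ext.pos ((map_ne_zero_iff _ ι_inj).2 hF))
      (hbd F t ht).self_le
  have hmul : ∀ t ∈ S, dsup (ext (R t)) (dd y l) (ρ t) (ι (aeval y G)) =
      dsup (ext (R t)) (dd y l) (ρ t) (ι P) * dsup (ext (R t)) (dd y l) (ρ t) (ι P') := by
    intro t ht
    rw [hP', map_mul]
    exact dsup_mul (hv t ht).nabs_ext (hpos t ht) (hbd P t ht) (hbd P' t ht)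
  have key : ContinuousOn (fun t => dsup (ext (R t)) (dd y l) (ρ t) (ι P)) S := by
    intro t₀ ht
    refine tendsto_order.2 ⟨fun a ha => gaussB_lsc hρ hR (hbd P) ht ha, fun a ha => ?_⟩
    have hu0 := hup P hP t₀ ht
    have hu1 := hup P' hP'0 t₀ ht
    have ha0 : 0 < a := hu0.trans ha
    have h1 : dsup (ext (R t₀)) (dd y l) (ρ t₀) (ι (aeval y G)) / a <
        dsup (ext (R t₀)) (dd y l) (ρ t₀) (ι P') := by
      rw [div_lt_iff₀ ha0, hmul t₀ ht, mul_comm]
      exact mul_lt_mul_of_pos_left ha hu1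
    obtain ⟨c, hc1, hc2⟩ := exists_between h1
    have hc0 : 0 < c := lt_trans (div_pos (hup _ hG0 t₀ ht) ha0) hc1
    rw [div_lt_iff₀ ha0] at hc1
    have h2 := gaussB_lsc hρ hR (hbd P') ht hc2
    have h3 := gaussB_usc hρ hR hpos hv (dd_nilpotent hy l G) (hbd (aeval y G)) ht hc1
    filter_upwards [h2, h3, self_mem_nhdsWithin] with t h4 h5 h6
    by_contra h7
    push Not at h7
    rw [hmul t h6] at h5
    have h8 : a * c ≤ dsup (ext (R t)) (dd y l) (ρ t) (ι P) *
        dsup (ext (R t)) (dd y l) (ρ t) (ι P') := mul_le_mul h7 h4.le hc0.le (ha0.le.trans h7)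
    linarith [mul_comm a c]
  exact key.log fun t ht => (hup P hP t ht).ne'

end Pool.Agent.DAE
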