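import Pool.Agent.DAE.R.GaussA

/-!
# The Gauss property in one parameter
-/

set_option autoImplicit false

namespace Pool.Agent.DAE

open MvPolynomial Pool.Agent.H17Dyn

variable {d : ℕ}

/-- the Gauss property in the `i`-th parameter -/
def GaussAt (y : Fin d → Poly d) (i : Fin d) (h : Poly d → ℝ) : Prop :=
  ∀ (F : Poly d) (m : ℕ), mv h (aeval y (compAt i m F)) ≤ mv h (aeval y F)

/-- the Gauss property after a substitution which does not touch the variable `i` -/
theorem GaussAt.subst {y : Fin d → Poly d} {i : Fin d} {h : Poly d → ℝ} (hg : GaussAt y i h)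
    (ψ : Poly d →ₐ[ℂ] Poly d) (hi : ψ (X i) = X i)
    (hj : ∀ j, j ≠ i → ψ (X j) ∈ supported ℂ {j | j ≠ i}) :
    GaussAt (fun j => aeval y (ψ (X j))) i h := by
  intro F m
  have key : ∀ G : Poly d, aeval (fun j => aeval y (ψ (X j))) G = aeval y (ψ G) := by
    intro G
    have h1 : (aeval (fun j => aeval y (ψ (X j))) : Poly d →ₐ[ℂ] Poly d) =
        (aeval y).comp ψ := by
      apply MvPolynomial.algHom_ext
      intro j
      rw [aeval_X, AlgHom.comp_apply]
    rw [h1, AlgHom.comp_apply]
  rw [key, key, ← compAt_comm i ψ hi hj m F]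
  exact hg (ψ F) m

/-- iterated components: the part of `F` with the exponents of `m` in the variables of `s` -/
private lemma gaussC_iter {g : Fin d → Poly d} {h : Poly d → ℝ} (hg : ∀ i, GaussAt g i h)
    (F : Poly d) (m : Fin d →₀ ℕ) (s : Finset (Fin d)) :
    ∃ G : Poly d, (∀ e, (∀ i ∈ s, e i = m i) → coeff e G = coeff e F) ∧
      (∀ e, (∃ i ∈ s, e i ≠ m i) → coeff e G = 0) ∧
      mv h (aeval g G) ≤ mv h (aeval g F) := by
  classical
  induction s using Finset.induction_on with
  | empty =>
    exact ⟨F, fun e _ => rfl, fun e ⟨i, hi, _⟩ => absurd hi (Finset.notMem_empty i), le_rfl⟩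
  | insert a s ha ih =>
    obtain ⟨G, hG1, hG2, hG3⟩ := ih
    refine ⟨compAt a (m a) G, fun e he => ?_, fun e he => ?_, (hg a G (m a)).trans hG3⟩
    · rw [coeff_compAt, if_pos (he a (Finset.mem_insert_self a s))]
      exact hG1 e fun i hi => he i (Finset.mem_insert_of_mem hi)
    · rw [coeff_compAt]
      split_ifs with h1
      · obtain ⟨i, hi, hne⟩ := he
        rcases Finset.mem_insert.1 hi with rfl | hi
        · exact absurd h1 hne
        · exact hG2 e ⟨i, hi, hne⟩
      · rfl

/-- the Gauss property in all parameters means monomial -/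
theorem isMono_of_gaussAt {g : Fin d → Poly d} {h : Poly d → ℝ} (hh : IsVal h)
    (hg0 : ∀ i, g i ≠ 0) (hF0 : ∀ F : Poly d, F ≠ 0 → aeval g F ≠ 0)
    (hg : ∀ i, GaussAt g i h) : IsMono g h := by
  intro F m hm
  have hc : coeff m F ≠ 0 := mem_support_iff.1 hm
  have hF : F ≠ 0 := by
    rintro rfl
    exact hc (coeff_zero m)
  obtain ⟨G, hG1, hG2, hG3⟩ := gaussC_iter hg F m Finset.univ
  have hG : G = monomial m (coeff m F) := by
    ext e
    rw [coeff_monomial]
    split_ifs with h1
    · subst h1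
      exact hG1 m fun i _ => rfl
    · refine hG2 e ?_
      by_contra h2
      push Not at h2
      exact h1 (Finsupp.ext fun i => (h2 i (Finset.mem_univ i)).symm)
  have hv := hh.nabs_mv
  rw [hG, aeval_monomial, hv.mul, algebraMap_eq, hh.mv_C hc, one_mul,
    Finsupp.prod_fintype _ _ (fun i => pow_zero _), hv.prod, mv_of_ne h (hF0 F hF)] at hG3
  have h3 : ∏ i, mv h (g i ^ m i) = Real.exp (∑ i, (m i : ℝ) * h (g i)) := by
    rw [Real.exp_sum]
    refine Finset.prod_congr rfl fun i _ => ?_
    rw [hv.pow, mv_of_ne h (hg0 i), Real.exp_nat_mul]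
  rw [h3] at hG3
  exact Real.exp_le_exp.1 hG3

/-- **derivation trick**: if a derivation of norm `≤ r⁻¹` is exactly of norm `r⁻¹` on the
parameter `y_l` and kills the others then the Gauss property holds in `y_l`. -/
theorem gaussAt_of_deriv {y : Fin d → Poly d} {l : Fin d} {h : Poly d → ℝ} (hh : IsVal h)
    (hy : y l ≠ 0) {r : ℝ} (hr : 0 < r) (g' : Poly d)
    (h1 : ∀ F : Poly d, mv h (aeval y (pderiv l F) * g') ≤ r⁻¹ * mv h (aeval y F))
    (h2 : mv h g' = r⁻¹ * mv h (y l)) : GaussAt y l h := by
  have hv := hh.nabs_mv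
  have hyl : 0 < mv h (y l) := hv.pos hy
  have hr' : 0 < r⁻¹ := inv_pos.2 hr
  -- the basic inequality
  have h3 : ∀ F : Poly d, mv h (y l) * mv h (aeval y (pderiv l F)) ≤ mv h (aeval y F) := by
    intro F
    have h4 := h1 F
    rw [hv.mul, h2] at h4
    have h5 : r⁻¹ * (mv h (y l) * mv h (aeval y (pderiv l F))) ≤ r⁻¹ * mv h (aeval y F) := by
      calc r⁻¹ * (mv h (y l) * mv h (aeval y (pderiv l F)))
          = mv h (aeval y (pderiv l F)) * (r⁻¹ * mv h (y l)) := by ring
        _ ≤ r⁻¹ * mv h (aeval y F) := h4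
    exact le_of_mul_le_mul_left h5 hr'
  -- from positive exponents to all exponents
  have h6 : ∀ F : Poly d, (∀ m, mv h (aeval y (compAt l (m + 1) F)) ≤ mv h (aeval y F)) →
      ∀ m, mv h (aeval y (compAt l m F)) ≤ mv h (aeval y F) := by
    intro F hF m
    rcases m with _ | m
    · have hs := sum_compAt l F (le_refl (degreeOf l F))
      rw [Finset.sum_range_succ'] at hs
      have h7 : compAt l 0 F = F - ∑ k ∈ Finset.range (degreeOf l F), compAt l (k + 1) F :=
        eq_sub_of_add_eq' hs
      rw [h7, map_sub, map_sum]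
      refine (hv.sub _ _).trans (max_le le_rfl ?_)
      exact hv.sum_le (hv.nonneg _) fun k _ => hF k
    · exact hF m
  have h8 : ∀ n : ℕ, ∀ F : Poly d, (∀ k, n < k → compAt l k F = 0) →
      ∀ m, mv h (aeval y (compAt l m F)) ≤ mv h (aeval y F) := by
    intro n
    induction n with
    | zero =>
      intro F hF
      refine h6 F fun m => ?_
      rw [hF (m + 1) (Nat.succ_pos m), map_zero, hv.zero]
      exact hv.nonneg _
    | succ n ih =>
      intro F hF
      refine h6 F fun m => ?_
      have h9 := ih (pderiv l F) (fun k hk => by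
        rw [← pderiv_compAt_self, hF (k + 1) (Nat.succ_lt_succ hk), map_zero]) m
      rw [← pderiv_compAt_self] at h9
      have h10 := congrArg (fun G => mv h (aeval y G)) (X_mul_pderiv_compAt l (m + 1) F)
      simp only [map_mul, aeval_X, map_natCast] at h10
      rw [hv.mul, hv.mul, hv.nat (m + 1) (Nat.succ_ne_zero m), one_mul] at h10
      rw [← h10]
      exact (mul_le_mul_of_nonneg_left h9 hyl.le).trans (h3 F)
  intro F m
  exact h8 (degreeOf l F) F (fun k hk => compAt_eq_zero l F hk) m

end Pool.Agent.DAE
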