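import Pool.Agent.DAE.R.GaussA
import Pool.Agent.DAE.R.FrameA

/-!
# Linear changes of coordinates making finitely many polynomials monic
-/

set_option autoImplicit false

namespace Pool.Agent.DAE

open MvPolynomial Pool.Agent.H17Dyn

variable {d : ℕ}

/-- `q` is, up to a constant, monic in `x_l` with coefficients in the variables `j < l` -/
def MonicIn (l : Fin d) (q : Poly d) : Prop :=
  ∃ (c : ℂ) (p : Polynomial (Poly d)), c ≠ 0 ∧ p.Monic ∧ (∀ i, p.coeff i ∈ Low' l) ∧
    C c * q = p.eval (X l)

private lemma Linear_C_mem (l : Fin d) (c : ℂ) : (C c : Poly d) ∈ Low l :=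
  (Low l).algebraMap_mem c

private lemma Linear_C_mem' (l : Fin d) (c : ℂ) : (C c : Poly d) ∈ Low' l :=
  (Low' l).algebraMap_mem c

private lemma Linear_low_le (l : Fin d) : Low' l ≤ Low l :=
  supported_mono fun j (hj : j < l) => show j ≤ l from le_of_lt hj

private lemma Linear_X_mem (l : Fin d) {j : Fin d} (hj : j ≤ l) : (X j : Poly d) ∈ Low l :=
  X_mem_supported.2 hj

private lemma Linear_X_mem' (l : Fin d) {j : Fin d} (hj : j < l) : (X j : Poly d) ∈ Low' l :=
  X_mem_supported.2 hj

private lemma Linear_inv_C {c : ℂ} (hc : c ≠ 0) (q : Poly d) : C c⁻¹ * (C c * q) = q := by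
  rw [← mul_assoc, ← C_mul, inv_mul_cancel₀ hc, C_1, one_mul]

theorem MonicIn.mem_low {l : Fin d} {q : Poly d} (h : MonicIn l q) : q ∈ Low l := by
  obtain ⟨c, p, hc, _, hcoeff, heq⟩ := h
  rw [← Linear_inv_C hc q, heq, Polynomial.eval_eq_sum_range]
  refine (Low l).mul_mem (Linear_C_mem l _) ((Low l).sum_mem fun i _ => ?_)
  exact (Low l).mul_mem (Linear_low_le l (hcoeff i)) ((Low l).pow_mem (Linear_X_mem l le_rfl) i)

private lemma Linear_coeff_mul {l : Fin d} {p q : Polynomial (Poly d)}
    (hp : ∀ i, p.coeff i ∈ Low' l) (hq : ∀ i, q.coeff i ∈ Low' l) (i : ℕ) :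
    (p * q).coeff i ∈ Low' l := by
  rw [Polynomial.coeff_mul]
  exact (Low' l).sum_mem fun x _ => (Low' l).mul_mem (hp _) (hq _)

theorem MonicIn.prod {l : Fin d} (Q : Finset (Poly d)) (h : ∀ q ∈ Q, MonicIn l q) :
    MonicIn l (∏ q ∈ Q, q) := by
  classical
  induction Q using Finset.induction_on with
  | empty =>
    refine ⟨1, 1, one_ne_zero, Polynomial.monic_one, fun i => ?_, ?_⟩
    · rw [Polynomial.coeff_one]
      split_ifs
      · exact (Low' l).one_mem
      · exact (Low' l).zero_mem
    · rw [Finset.prod_empty, Polynomial.eval_one, C_1, one_mul]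
  | insert a s ha ih =>
    obtain ⟨c, p, hc, hp, hpc, hpe⟩ := h a (Finset.mem_insert_self a s)
    obtain ⟨c', p', hc', hp', hpc', hpe'⟩ := ih fun q hq => h q (Finset.mem_insert_of_mem hq)
    refine ⟨c * c', p * p', mul_ne_zero hc hc', hp.mul hp', Linear_coeff_mul hpc hpc', ?_⟩
    rw [Finset.prod_insert ha, Polynomial.eval_mul, ← hpe, ← hpe', C_mul]
    ring

/-- the substitution `X_j ↦ X_j + v_j X_l` for `j < l` -/
private noncomputable def Linear_sub (l : Fin d) (v : Fin d → ℂ) : Poly d →ₐ[ℂ] Poly d :=
  aeval fun j => if j < l then X j + C (v j) * X l else X j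

private lemma Linear_sub_lt {l : Fin d} (v : Fin d → ℂ) {j : Fin d} (hj : j < l) :
    Linear_sub l v (X j) = X j + C (v j) * X l := by
  rw [Linear_sub, aeval_X, if_pos hj]

private lemma Linear_sub_ge {l : Fin d} (v : Fin d → ℂ) {j : Fin d} (hj : l ≤ j) :
    Linear_sub l v (X j) = X j := by
  rw [Linear_sub, aeval_X, if_neg (not_lt.2 hj)]

private lemma Linear_sub_C {l : Fin d} (v : Fin d → ℂ) (c : ℂ) :
    Linear_sub l v (C c) = C c := (Linear_sub l v).commutes c

private lemma Linear_sub_inv (l : Fin d) (v w : Fin d → ℂ) (h : ∀ j, v j + w j = 0) :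
    (Linear_sub l v).comp (Linear_sub l w) = AlgHom.id ℂ _ := by
  refine MvPolynomial.algHom_ext fun j => ?_
  rw [AlgHom.comp_apply, AlgHom.id_apply]
  rcases lt_or_ge j l with hj | hj
  · rw [Linear_sub_lt w hj, map_add, map_mul, Linear_sub_lt v hj, Linear_sub_C,
      Linear_sub_ge v le_rfl, add_assoc, ← add_mul, ← C_add, h j, C_0, zero_mul, add_zero]
  · rw [Linear_sub_ge w hj, Linear_sub_ge v hj]

private lemma Linear_sub_low (l : Fin d) (v : Fin d → ℂ) {F : Poly d} (hF : F ∈ Low l) :
    Linear_sub l v F ∈ Low l := by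
  have h1 : Low l ≤ (Low l).comap (Linear_sub l v) := by
    conv_lhs => rw [Low, supported_eq_adjoin_X]
    refine Algebra.adjoin_le ?_
    rintro _ ⟨j, hj, rfl⟩
    change Linear_sub l v (X j) ∈ Low l
    rcases lt_or_ge j l with hjl | hjl
    · rw [Linear_sub_lt v hjl]
      exact (Low l).add_mem (Linear_X_mem l hj)
        ((Low l).mul_mem (Linear_C_mem l _) (Linear_X_mem l le_rfl))
    · rw [Linear_sub_ge v hjl]
      exact Linear_X_mem l hj
  exact h1 hF

/-- the polynomial in `T = X_l` belonging to `τ q` -/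
private noncomputable def Linear_pol (l : Fin d) (v : Fin d → ℂ) :
    Poly d →ₐ[ℂ] Polynomial (Poly d) :=
  aeval fun j => Polynomial.C (if j < l then X j else 0) + Polynomial.C (C (v j)) * Polynomial.X

private lemma Linear_pol_X (l : Fin d) (v : Fin d → ℂ) (j : Fin d) :
    Linear_pol l v (X j) = Polynomial.C (if j < l then X j else 0) +
      Polynomial.C (C (v j)) * Polynomial.X := by
  rw [Linear_pol, aeval_X]

private lemma Linear_pol_C (l : Fin d) (v : Fin d → ℂ) (c : ℂ) :
    Linear_pol l v (C c) = Polynomial.C (C c) := (Linear_pol l v).commutes c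

private lemma Linear_pol_coeff (l : Fin d) (v : Fin d → ℂ) (q : Poly d) :
    ∀ i, (Linear_pol l v q).coeff i ∈ Low' l := by
  have hC : ∀ (r : Poly d), r ∈ Low' l → ∀ i, (Polynomial.C r).coeff i ∈ Low' l := by
    intro r hr i
    rw [Polynomial.coeff_C]
    split_ifs
    · exact hr
    · exact (Low' l).zero_mem
  induction q using MvPolynomial.induction_on with
  | C a =>
    rw [Linear_pol_C]
    exact hC _ (Linear_C_mem' l a)
  | add p q hp hq =>
    intro i
    rw [map_add, Polynomial.coeff_add]
    exact (Low' l).add_mem (hp i) (hq i)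
  | mul_X p j hp =>
    rw [map_mul]
    refine Linear_coeff_mul hp fun i => ?_
    rw [Linear_pol_X, Polynomial.coeff_add]
    refine (Low' l).add_mem (hC _ ?_ i) ?_
    · split_ifs with hj
      · exact Linear_X_mem' l hj
      · exact (Low' l).zero_mem
    · rw [Polynomial.coeff_C_mul, Polynomial.coeff_X]
      refine (Low' l).mul_mem (Linear_C_mem' l _) ?_
      split_ifs
      · exact (Low' l).one_mem
      · exact (Low' l).zero_mem

private lemma Linear_pol_eval (l : Fin d) (v : Fin d → ℂ) (hv : v l = 1) {q : Poly d}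
    (hq : q ∈ Low l) : (Linear_pol l v q).eval (X l) = Linear_sub l v q := by
  rw [Low, supported_eq_adjoin_X] at hq
  induction hq using Algebra.adjoin_induction with
  | mem x hx =>
    obtain ⟨j, hj, rfl⟩ := hx
    rw [Linear_pol_X, Polynomial.eval_add, Polynomial.eval_mul, Polynomial.eval_C,
      Polynomial.eval_C, Polynomial.eval_X]
    have hj' : j ≤ l := hj
    rcases hj'.lt_or_eq with hjl | rfl
    · rw [Linear_sub_lt v hjl, if_pos hjl]
    · rw [Linear_sub_ge v le_rfl, if_neg (lt_irrefl _), hv, C_1, one_mul, zero_add]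
  | algebraMap c =>
    rw [algebraMap_eq, Linear_pol_C, Linear_sub_C, Polynomial.eval_C]
  | add x y _ _ hx hy => rw [map_add, Polynomial.eval_add, hx, hy, map_add]
  | mul x y _ _ hx hy => rw [map_mul, Polynomial.eval_mul, hx, hy, map_mul]

private lemma Linear_pol_monomial (l : Fin d) (v : Fin d → ℂ) (e : Fin d →₀ ℕ) :
    (Linear_pol l v (monomial e 1)).natDegree ≤ e.degree ∧
      (Linear_pol l v (monomial e 1)).coeff e.degree = C (∏ j, v j ^ e j) := by
  induction e using Finsupp.induction_linear with
  | zero =>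
    have h1 : Linear_pol l v (monomial 0 1) = 1 := map_one _
    rw [h1]
    simp
  | add e f he hf =>
    have h1 : (monomial (e + f) 1 : Poly d) = monomial e 1 * monomial f 1 := by
      rw [monomial_mul, one_mul]
    rw [h1, map_mul, map_add Finsupp.degree]
    refine ⟨Polynomial.natDegree_mul_le_of_le he.1 hf.1, ?_⟩
    rw [Polynomial.coeff_mul_add_eq_of_natDegree_le he.1 hf.1, he.2, hf.2, ← C_mul,
      ← Finset.prod_mul_distrib]
    refine congrArg _ (Finset.prod_congr rfl fun j _ => ?_)
    rw [Finsupp.add_apply, pow_add]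
  | single j m =>
    have h1 : (monomial (Finsupp.single j m) 1 : Poly d) = X j ^ m := by
      rw [X_pow_eq_monomial]
    have h2 : (Linear_pol l v (X j)).natDegree ≤ 1 := by
      rw [Linear_pol_X]
      refine Polynomial.natDegree_add_le_of_degree_le ?_
        ((Polynomial.natDegree_C_mul_le _ _).trans Polynomial.natDegree_X_le)
      rw [Polynomial.natDegree_C]
      exact zero_le_one
    have h3 : (Linear_pol l v (X j)).coeff 1 = C (v j) := by
      rw [Linear_pol_X, Polynomial.coeff_add, Polynomial.coeff_C_of_ne_zero one_ne_zero,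
        Polynomial.coeff_C_mul, Polynomial.coeff_X_one, mul_one, zero_add]
    have h4 : (Finsupp.single j m).degree = m := Finsupp.degree_single j m
    rw [h1, map_pow, h4]
    constructor
    · have := Polynomial.natDegree_pow_le_of_le m h2
      rwa [mul_one] at this
    · have := Polynomial.coeff_pow_of_natDegree_le (m := m) h2
      rw [mul_one] at this
      rw [this, h3, ← C_pow]
      refine congrArg _ ?_
      rw [Finset.prod_eq_single j]
      · rw [Finsupp.single_eq_same]
      · intro i _ hi
        rw [Finsupp.single_eq_of_ne hi, pow_zero]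
      · intro h
        exact absurd (Finset.mem_univ j) h

private lemma Linear_pol_sum (l : Fin d) (v : Fin d → ℂ) (q : Poly d) :
    Linear_pol l v q = ∑ e ∈ q.support, Polynomial.C (C (coeff e q)) *
      Linear_pol l v (monomial e 1) := by
  conv_lhs => rw [q.as_sum]
  rw [map_sum]
  refine Finset.sum_congr rfl fun e _ => ?_
  rw [← Linear_pol_C l v, ← map_mul, C_mul_monomial, mul_one]

private lemma Linear_pol_lead (l : Fin d) (v : Fin d → ℂ) (q : Poly d) :
    (Linear_pol l v q).natDegree ≤ q.totalDegree ∧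
      (Linear_pol l v q).coeff q.totalDegree =
        C (eval v (homogeneousComponent q.totalDegree q)) := by
  have hdeg : ∀ e ∈ q.support, e.degree ≤ q.totalDegree := fun e he =>
    le_totalDegree he
  constructor
  · rw [Linear_pol_sum]
    refine Polynomial.natDegree_sum_le_of_forall_le _ _ fun e he => ?_
    refine (Polynomial.natDegree_C_mul_le _ _).trans ?_
    exact (Linear_pol_monomial l v e).1.trans (hdeg e he)
  · rw [Linear_pol_sum, Polynomial.finsetSum_coeff, homogeneousComponent_apply, map_sum,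
      map_sum, Finset.sum_filter]
    refine Finset.sum_congr rfl fun e he => ?_
    rw [Polynomial.coeff_C_mul]
    split_ifs with h
    · rw [← h, (Linear_pol_monomial l v e).2, ← C_mul, eval_monomial]
      refine congrArg _ (congrArg _ ?_)
      rw [Finsupp.prod_fintype]
      intro i
      exact pow_zero _
    · rw [Polynomial.coeff_eq_zero_of_natDegree_lt, mul_zero]
      exact lt_of_le_of_lt (Linear_pol_monomial l v e).1 (lt_of_le_of_ne (hdeg e he) h)

private lemma Linear_top_ne {q : Poly d} (hq : q ≠ 0) :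
    homogeneousComponent q.totalDegree q ≠ 0 := by
  obtain ⟨e, he, hdeg⟩ := Finset.exists_mem_eq_sup q.support (support_nonempty.2 hq)
    fun e => Finsupp.degree e
  intro h
  have h1 : q.totalDegree = e.degree := hdeg
  have h2 := congrArg (coeff e) h
  rw [coeff_homogeneousComponent, h1, if_pos rfl, coeff_zero] at h2
  exact mem_support_iff.1 he h2

private lemma Linear_eval_div (q : Poly d) (n : ℕ) (x : Fin d → ℂ) {t : ℂ}
    (h : eval x (homogeneousComponent n q) ≠ 0) (ht : t ≠ 0) :
    eval (fun j => x j / t) (homogeneousComponent n q) ≠ 0 := by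
  have h1 : eval x (homogeneousComponent n q) =
      t ^ n * eval (fun j => x j / t) (homogeneousComponent n q) := by
    rw [homogeneousComponent_apply, map_sum, map_sum, Finset.mul_sum]
    refine Finset.sum_congr rfl fun e he => ?_
    have he' : e.degree = n := (Finset.mem_filter.1 he).2
    rw [eval_monomial, eval_monomial, Finsupp.prod_fintype _ _ fun _ => pow_zero _,
      Finsupp.prod_fintype _ _ fun _ => pow_zero _, mul_left_comm]
    congr 1
    rw [← he', Finsupp.degree_eq_sum, ← Finset.prod_pow_eq_pow_sum, ← Finset.prod_mul_distrib]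
    refine Finset.prod_congr rfl fun j _ => ?_
    rw [← mul_pow, mul_div_cancel₀ _ ht]
  intro h0
  exact h (by rw [h1, h0, mul_zero])

/-- **linear change of coordinates** -/
theorem exists_linear (l : Fin d) (Q : Finset (Poly d)) (hQ : ∀ q ∈ Q, q ≠ 0 ∧ q ∈ Low l) :
    ∃ τ : Poly d ≃ₐ[ℂ] Poly d, (∀ j, l ≤ j → τ (X j) = X j) ∧
      (∀ j, l ≤ j → τ.symm (X j) = X j) ∧
      (∀ F, F ∈ Low l → τ F ∈ Low l) ∧ (∀ F, F ∈ Low l → τ.symm F ∈ Low l) ∧
      ∀ q ∈ Q, MonicIn l (τ q) := by
  have hne : (X l * ∏ q ∈ Q, homogeneousComponent q.totalDegree q : Poly d) ≠ 0 :=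
    mul_ne_zero (X_ne_zero l) (Finset.prod_ne_zero_iff.2 fun q hq => Linear_top_ne (hQ q hq).1)
  obtain ⟨x, hx⟩ : ∃ x : Fin d → ℂ,
      eval x (X l * ∏ q ∈ Q, homogeneousComponent q.totalDegree q : Poly d) ≠ 0 := by
    by_contra hcon
    push Not at hcon
    exact hne (MvPolynomial.funext fun x => by rw [hcon x, map_zero])
  rw [map_mul, eval_X, map_prod] at hx
  have hxl : x l ≠ 0 := left_ne_zero_of_mul hx
  have hxq := Finset.prod_ne_zero_iff.1 (right_ne_zero_of_mul hx)
  set v : Fin d → ℂ := fun j => x j / x l with hv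
  refine ⟨AlgEquiv.ofAlgHom (Linear_sub l v) (Linear_sub l fun j => -v j)
    (Linear_sub_inv l _ _ fun j => add_neg_cancel _) (Linear_sub_inv l _ _ fun j =>
      neg_add_cancel _), fun j hj => Linear_sub_ge v hj, fun j hj => Linear_sub_ge _ hj,
    fun F hF => Linear_sub_low l v hF, fun F hF => Linear_sub_low l _ hF, fun q hq => ?_⟩
  set a : ℂ := eval v (homogeneousComponent q.totalDegree q) with ha
  have ha0 : a ≠ 0 := Linear_eval_div q q.totalDegree x (hxq q hq) hxl
  obtain ⟨h1, h2⟩ := Linear_pol_lead l v q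
  refine ⟨a⁻¹, Polynomial.C (C a⁻¹) * Linear_pol l v q, inv_ne_zero ha0, ?_, ?_, ?_⟩
  · refine Polynomial.monic_of_natDegree_le_of_coeff_eq_one q.totalDegree
      ((Polynomial.natDegree_C_mul_le _ _).trans h1) ?_
    rw [Polynomial.coeff_C_mul, h2, ← ha, ← C_mul, inv_mul_cancel₀ ha0, C_1]
  · intro i
    rw [Polynomial.coeff_C_mul]
    exact (Low' l).mul_mem (Linear_C_mem' l _) (Linear_pol_coeff l v q i)
  · rw [Polynomial.eval_mul, Polynomial.eval_C, Linear_pol_eval l v (div_self hxl) (hQ q hq).2]
    rfl

private lemma Linear_aeval_low' {l : Fin d} (G : Poly d) {F : Poly d} (hF : F ∈ Low' l) :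
    aeval (Function.update (X : Fin d → Poly d) l G) F = F := by
  rw [Low', supported_eq_adjoin_X] at hF
  induction hF using Algebra.adjoin_induction with
  | mem x hx =>
    obtain ⟨j, hj, rfl⟩ := hx
    have hj' : j < l := hj
    rw [aeval_X, Function.update_of_ne hj'.ne]
  | algebraMap c => exact AlgHom.commutes _ c
  | add x y _ _ hx hy => rw [map_add, hx, hy]
  | mul x y _ _ hx hy => rw [map_mul, hx, hy]

private lemma Linear_isIntegral {l : Fin d} {G : Poly d} (hG : MonicIn l G)
    (hdeg : 1 ≤ degreeOf l G) :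
    (aeval (Function.update (X : Fin d → Poly d) l G) :
      Poly d →ₐ[ℂ] Poly d).toRingHom.IsIntegral := by
  set φ : Poly d →ₐ[ℂ] Poly d := aeval (Function.update (X : Fin d → Poly d) l G) with hφ
  have hφC : ∀ c : ℂ, φ (C c) = C c := fun c => φ.commutes c
  have hl : φ.toRingHom.IsIntegralElem (X l) := by
    obtain ⟨c, p, hc, hp, hpc, hpe⟩ := hG
    have hnd : 0 < p.natDegree := by
      by_contra h0
      have h1 : p = 1 := by
        refine (Polynomial.Monic.natDegree_eq_zero hp).1 ?_
        omega
      rw [h1, Polynomial.eval_one] at hpe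
      have h2 : G = C c⁻¹ := by
        rw [← Linear_inv_C hc G, hpe, mul_one]
      rw [h2, degreeOf_C] at hdeg
      omega
    refine ⟨p - Polynomial.C (C c * X l), hp.sub_of_left ?_, ?_⟩
    · refine lt_of_le_of_lt Polynomial.degree_C_le ?_
      exact Polynomial.natDegree_pos_iff_degree_pos.1 hnd
    · rw [Polynomial.eval₂_sub, Polynomial.eval₂_C]
      have h3 : Polynomial.eval₂ φ.toRingHom (X l) p = p.eval (X l) := by
        rw [Polynomial.eval₂_eq_sum_range, Polynomial.eval_eq_sum_range]
        refine Finset.sum_congr rfl fun i _ => ?_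
        have h4 : φ.toRingHom (p.coeff i) = p.coeff i := Linear_aeval_low' G (hpc i)
        rw [h4]
      have h5 : φ.toRingHom (C c * X l) = C c * G := by
        change φ (C c * X l) = C c * G
        rw [map_mul, hφC, hφ, aeval_X, Function.update_self]
      rw [h3, h5, hpe, sub_self]
  intro F
  induction F using MvPolynomial.induction_on with
  | C a =>
    have h := φ.toRingHom.isIntegralElem_map (x := C a)
    rwa [show φ.toRingHom (C a) = C a from hφC a] at h
  | add p q hp hq => exact hp.add _ hq
  | mul_X p j hp =>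
    refine hp.mul _ ?_
    rcases eq_or_ne j l with rfl | hj
    · exact hl
    · have h := φ.toRingHom.isIntegralElem_map (x := X j)
      rwa [show φ.toRingHom (X j) = X j by
        change φ (X j) = X j
        rw [hφ, aeval_X, Function.update_of_ne hj]] at h

/-- replacing the parameter `y_l` by `G(y)` with `G` monic in `x_l` gives parameters -/
theorem frame_update {y : Fin d → Poly d} (hy : Frame y) {l : Fin d} {G : Poly d}
    (hG : MonicIn l G) (hdeg : 1 ≤ degreeOf l G) :
    Frame (Function.update y l (aeval y G)) := by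
  have h1 : (aeval (Function.update y l (aeval y G)) : Poly d →ₐ[ℂ] Poly d) =
      (aeval y : Poly d →ₐ[ℂ] Poly d).comp
        (aeval (Function.update (X : Fin d → Poly d) l G) : Poly d →ₐ[ℂ] Poly d) := by
    refine MvPolynomial.algHom_ext fun j => ?_
    rw [AlgHom.comp_apply, aeval_X, aeval_X]
    rcases eq_or_ne j l with rfl | hj
    · rw [Function.update_self, Function.update_self]
    · rw [Function.update_of_ne hj, Function.update_of_ne hj, aeval_X]
  unfold Frame
  rw [h1]
  exact RingHom.IsIntegral.trans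
    (aeval (Function.update (X : Fin d → Poly d) l G) : Poly d →ₐ[ℂ] Poly d).toRingHom
    (aeval y : Poly d →ₐ[ℂ] Poly d).toRingHom (Linear_isIntegral hG hdeg) hy

end Pool.Agent.DAE
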