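import Pool.Agent.DAE.R.Compact
import Pool.Agent.DAE.R.GaussB

/-!
# Coordinate noise contracts `J_1` to the degree valuation
-/

set_option autoImplicit false

namespace Pool.Agent.DAE

open MvPolynomial Pool.Agent.H17Dyn

variable {d : ℕ}

private lemma noise_apply (y : Fin d → Poly d) (l : Fin d) (x : KK d) :
    dd y l x = ∑ i, (jmat y)⁻¹ l i * pdK i x := by
  have h1 : ∀ s : Finset (Fin d), (∑ i ∈ s, (jmat y)⁻¹ l i • pdK i : Derivation ℤ (KK d) (KK d)) x =
      ∑ i ∈ s, (jmat y)⁻¹ l i * pdK i x := by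
    intro s
    induction s using Finset.induction_on with
    | empty => simp
    | insert a s ha ih =>
      rw [Finset.sum_insert ha, Finset.sum_insert ha, Derivation.add_apply, ih,
        Derivation.smul_apply, smul_eq_mul]
  exact h1 Finset.univ

private lemma noise_jmat : jmat (fun j => (X j : Poly d)) = 1 := by
  ext i j
  change ι (pderiv i (X j : Poly d)) = _
  rw [pderiv_X, Matrix.one_apply]
  by_cases h : i = j
  · subst h
    rw [Pi.single_eq_same, if_pos rfl, map_one]
  · rw [Pi.single_eq_of_ne (fun h' => h h'.symm), if_neg h, map_zero]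

private lemma noise_jac : jac (fun j => (X j : Poly d)) = 1 := by
  apply ι_inj
  rw [← det_jmat, noise_jmat, Matrix.det_one, map_one]

/-- the coordinate derivations -/
theorem dd_X (l : Fin d) (x : KK d) : dd (fun j => (X j : Poly d)) l x = pdK l x := by
  rw [noise_apply, noise_jmat, inv_one, Finset.sum_eq_single l]
  · rw [Matrix.one_apply_eq, one_mul]
  · intro j _ hj
    rw [Matrix.one_apply_ne hj.symm, zero_mul]
  · intro h
    exact absurd (Finset.mem_univ l) h

private lemma noise_iter (l : Fin d) (P : Poly d) (k : ℕ) :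
    (⇑(dd (fun j => (X j : Poly d)) l))^[k] (ι P) = ι ((⇑(pderiv l))^[k] P) := by
  have h1 := dd_iter_aeval (y := fun j => (X j : Poly d)) frame_X l P k
  have h2 : ∀ Q : Poly d, (aeval (fun j => (X j : Poly d)) Q : Poly d) = Q :=
    fun Q => aeval_X_left_apply Q
  rwa [h2, h2] at h1

theorem stillJac_X (l : Fin d) (r : ℝ) {h : Poly d → ℝ} (hh : IsVal h) (hr : 0 < r) :
    StillJac (fun j => (X j : Poly d)) l r h := by
  refine ⟨1, ?_, ?_, ?_⟩
  · rw [map_one]
    exact one_ne_zero
  · rw [noise_jac]
    exact one_dvd _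
  · intro k
    rw [map_one, map_one]
    cases k with
    | zero => simp
    | succ k =>
      rw [Function.iterate_succ_apply, Derivation.map_one_eq_zero, iter_zero, hh.nabs_ext.zero,
        zero_mul]
      exact hh.nabs_ext.nonneg _

private lemma noise_dbd (l : Fin d) {r : ℝ} {h : Poly d → ℝ} (hh : IsVal h) (hr : 0 < r)
    (P : Poly d) : DBd (ext h) (dd (fun j => (X j : Poly d)) l) r (ι P) :=
  dbd_of_stillJac frame_X hh hr (stillJac_X l r hh hr) P

private lemma noise_ext (l : Fin d) {h : Poly d → ℝ} (hh : IsVal h) (P : Poly d) (k : ℕ) :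
    ext h ((⇑(dd (fun j => (X j : Poly d)) l))^[k] (ι P)) = mv h ((⇑(pderiv l))^[k] P) := by
  rw [noise_iter, ext_ι hh]

private lemma noise_pos (l : Fin d) {r : ℝ} {h : Poly d → ℝ} (hh : IsVal h) (hr : 0 < r)
    {P : Poly d} (hP : P ≠ 0) : 0 < dsup (ext h) (dd (fun j => (X j : Poly d)) l) r (ι P) := by
  have h1 := (noise_dbd l hh hr P).self_le
  have h2 : 0 < ext h (ι P) := hh.nabs_ext.pos ((map_ne_zero_iff _ ι_inj).2 hP)
  exact h2.trans_le h1

/-- monotonicity in the valuation and in the radius -/
theorem stp_X_mono (l : Fin d) {h h' : Poly d → ℝ} (hh : IsVal h) (hh' : IsVal h')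
    (hle : ∀ P, h P ≤ h' P) {r r' : ℝ} (hr : 0 < r) (hr' : r ≤ r') (P : Poly d) :
    stp (fun j => (X j : Poly d)) l r h P ≤ stp (fun j => (X j : Poly d)) l r' h' P := by
  unfold stp
  rcases eq_or_ne P 0 with rfl | hP
  · rw [map_zero, dsup_zero hh.nabs_ext, dsup_zero hh'.nabs_ext]
  · refine Real.log_le_log (noise_pos l hh hr hP) (dsup_le fun k => ?_)
    refine le_trans ?_ ((noise_dbd l hh' (hr.trans_le hr') P).le_dsup k)
    rw [noise_ext l hh, noise_ext l hh']
    have h1 : mv h ((⇑(pderiv l))^[k] P) ≤ mv h' ((⇑(pderiv l))^[k] P) := by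
      unfold mv
      split_ifs
      · exact le_rfl
      · exact Real.exp_le_exp.2 (hle _)
    exact mul_le_mul h1 (pow_le_pow_left₀ hr.le hr' k) (pow_nonneg hr.le k) (mv_nonneg _ _)

/-- derivatives and noise -/
theorem le_stp_X_pderiv (l : Fin d) {h : Poly d → ℝ} (hh : IsVal h) {r : ℝ} (hr : 0 < r)
    (P : Poly d) (k : ℕ) (hP : (⇑(pderiv l))^[k] P ≠ 0) :
    h ((⇑(pderiv l))^[k] P) + k * Real.log r ≤ stp (fun j => (X j : Poly d)) l r h P := by
  have h1 := (noise_dbd l hh hr P).le_dsup k
  rw [noise_ext l hh, mv_of_ne h hP] at h1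
  have h2 := Real.log_le_log (mul_pos (Real.exp_pos _) (pow_pos hr k)) h1
  rw [Real.log_mul (Real.exp_pos _).ne' (pow_pos hr k).ne', Real.log_exp, Real.log_pow] at h2
  exact h2

/-- values on the coordinates -/
theorem stp_X_X (l i : Fin d) {h : Poly d → ℝ} (hh : IsVal h) {r : ℝ} (hr : 0 < r) :
    stp (fun j => (X j : Poly d)) l r h (X i) =
      if i = l then max (h (X l)) (Real.log r) else h (X i) := by
  have hX : ∀ j : Fin d, (X j : Poly d) ≠ 0 := fun j => X_ne_zero j
  have hz : ∀ k : ℕ, (⇑(pderiv l))^[k] (0 : Poly d) = 0 := by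
    intro k
    induction k with
    | zero => rfl
    | succ k ih => rw [Function.iterate_succ_apply, map_zero, ih]
  unfold stp
  by_cases hil : i = l
  · subst hil
    rw [if_pos rfl]
    have h1 : dsup (ext h) (dd (fun j => (X j : Poly d)) i) r (ι (X i)) =
        max (Real.exp (h (X i))) r := by
      apply le_antisymm
      · refine dsup_le fun k => ?_
        rw [noise_ext i hh]
        rcases k with _ | _ | k
        · rw [Function.iterate_zero_apply, pow_zero, mul_one, mv_of_ne h (hX i)]
          exact le_max_left _ _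
        · rw [zero_add, Function.iterate_one, pderiv_X_self, pow_one, hh.nabs_mv.one, one_mul]
          exact le_max_right _ _
        · rw [Function.iterate_succ_apply, Function.iterate_succ_apply, pderiv_X_self,
            Derivation.map_one_eq_zero, hz, mv_zero, zero_mul]
          exact le_max_of_le_right hr.le
      · refine max_le ?_ ?_
        · have h2 := (noise_dbd i hh hr (X i)).le_dsup 0
          rwa [noise_ext i hh, Function.iterate_zero_apply, pow_zero, mul_one,
            mv_of_ne h (hX i)] at h2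
        · have h2 := (noise_dbd i hh hr (X i)).le_dsup 1
          rwa [noise_ext i hh, Function.iterate_one, pderiv_X_self, pow_one, hh.nabs_mv.one,
            one_mul] at h2
    rw [h1]
    rcases le_total (Real.exp (h (X i))) r with h2 | h2
    · rw [max_eq_right h2, max_eq_right]
      rw [← Real.log_exp (h (X i))]
      exact Real.log_le_log (Real.exp_pos _) h2
    · rw [max_eq_left h2, Real.log_exp, max_eq_left]
      rw [← Real.log_exp (h (X i))]
      exact Real.log_le_log hr h2
  · rw [if_neg hil]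
    have h1 : dd (fun j => (X j : Poly d)) l (ι (X i)) = 0 := by
      have h2 := noise_iter l (X i) 1
      rw [Function.iterate_one, Function.iterate_one, pderiv_X,
        Pi.single_eq_of_ne hil, map_zero] at h2
      exact h2
    rw [(dsup_of_deriv_eq_zero hh.nabs_ext h1).2, ext_ι hh, hh.log_mv]

/-- small noise is invisible on `J_1` -/
theorem stp_X_of_mem [NeZero d] (l : Fin d) {h : Poly d → ℝ} (hh : h ∈ J1 d) :
    stp (fun j => (X j : Poly d)) l (Real.exp (-((d : ℝ) - 1))) h = h := by
  have hv : IsVal h := hh.1.1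
  funext P
  refine stp_of_still hv fun k => ?_
  rw [noise_ext l hv, ext_ι hv]
  induction k with
  | zero => simp
  | succ k ih =>
    rw [Function.iterate_succ_apply']
    rcases eq_or_ne (pderiv l ((⇑(pderiv l))^[k] P)) 0 with h0 | h0
    · rw [h0, mv_zero, zero_mul]
      exact mv_nonneg h P
    · have h1 : (⇑(pderiv l))^[k] P ≠ 0 := by
        intro h2
        rw [h2, map_zero] at h0
        exact h0 rfl
      refine le_trans ?_ ih
      rw [mv_of_ne h h0, mv_of_ne h h1, pow_succ', ← mul_assoc]
      refine mul_le_mul_of_nonneg_right ?_ (pow_nonneg (Real.exp_pos _).le k)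
      rw [← Real.exp_add]
      apply Real.exp_le_exp.2
      have := J1.pderiv_le hh l h0
      linarith

/-! ### The noise in the first coordinates -/

/-- noise in the first `n` coordinates -/
private noncomputable def noiseN (s : ℝ) (h : Poly d → ℝ) : ℕ → (Poly d → ℝ)
  | 0 => h
  | n + 1 => if hn : n < d then
      stp (fun j => (X j : Poly d)) ⟨n, hn⟩ (Real.exp s) (noiseN s h n) else noiseN s h n

private lemma noiseN_succ (s : ℝ) (h : Poly d → ℝ) {n : ℕ} (hn : n < d) :
    noiseN s h (n + 1) = stp (fun j => (X j : Poly d)) ⟨n, hn⟩ (Real.exp s) (noiseN s h n) := by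
  rw [noiseN, dif_pos hn]

private lemma noiseN_J {s : ℝ} {h : Poly d → ℝ} (hh : h ∈ J d) {n : ℕ} (hn : n ≤ d) :
    noiseN s h n ∈ J d := by
  induction n with
  | zero => exact hh
  | succ n ih =>
    obtain ⟨h1, h2⟩ := ih (by omega)
    rw [noiseN_succ s h (by omega)]
    have h3 := stillJac_X ⟨n, by omega⟩ (Real.exp s) h1 (Real.exp_pos s)
    exact ⟨isVal_stp frame_X h1 (Real.exp_pos s) h3, isFat_stp frame_X h1 h2 (Real.exp_pos s) h3⟩

private lemma noiseN_le {s : ℝ} {h : Poly d → ℝ} (hh : h ∈ J d) {n : ℕ} (hn : n ≤ d)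
    (P : Poly d) : h P ≤ noiseN s h n P := by
  induction n with
  | zero => exact le_rfl
  | succ n ih =>
    have h1 := (noiseN_J (s := s) hh (n := n) (by omega)).1
    rw [noiseN_succ s h (by omega)]
    exact (ih (by omega)).trans (le_stp frame_X h1 (Real.exp_pos s)
      (stillJac_X ⟨n, by omega⟩ (Real.exp s) h1 (Real.exp_pos s)) P)

private lemma noiseN_X_le {s c : ℝ} (hs : s ≤ c) {h : Poly d → ℝ} (hh : h ∈ J d)
    (hc : ∀ i, h (X i) ≤ c) {n : ℕ} (hn : n ≤ d) (i : Fin d) : noiseN s h n (X i) ≤ c := by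
  induction n with
  | zero => exact hc i
  | succ n ih =>
    have h1 := (noiseN_J (s := s) hh (n := n) (by omega)).1
    rw [noiseN_succ s h (by omega), stp_X_X _ _ h1 (Real.exp_pos s), Real.log_exp]
    split_ifs with h2
    · refine max_le ?_ hs
      rw [← h2]
      exact ih (by omega)
    · exact ih (by omega)

private lemma noiseN_mono {s t : ℝ} (hst : s ≤ t) {h : Poly d → ℝ} (hh : h ∈ J d) {n : ℕ}
    (hn : n ≤ d) (P : Poly d) : noiseN s h n P ≤ noiseN t h n P := by
  induction n generalizing P with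
  | zero => exact le_rfl
  | succ n ih =>
    rw [noiseN_succ s h (by omega), noiseN_succ t h (by omega)]
    exact stp_X_mono _ (noiseN_J hh (by omega)).1 (noiseN_J hh (by omega)).1
      (fun Q => ih (by omega) Q) (Real.exp_pos s) (Real.exp_le_exp.2 hst) P

private lemma noiseN_cont (S : Set (ℝ × (Poly d → ℝ))) (hS : ∀ p ∈ S, p.2 ∈ J d) {n : ℕ}
    (hn : n ≤ d) : ContinuousOn (fun p : ℝ × (Poly d → ℝ) => noiseN p.1 p.2 n) S := by
  induction n with
  | zero => exact continuous_snd.continuousOn
  | succ n ih =>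
    have h1 : (fun p : ℝ × (Poly d → ℝ) => noiseN p.1 p.2 (n + 1)) = fun p =>
        stp (fun j => (X j : Poly d)) ⟨n, by omega⟩ (Real.exp p.1) (noiseN p.1 p.2 n) := by
      funext p
      exact noiseN_succ p.1 p.2 (by omega)
    rw [h1]
    refine continuousOn_stp frame_X (ρ := fun p : ℝ × (Poly d → ℝ) => Real.exp p.1)
      (R := fun p => noiseN p.1 p.2 n) ?_ (ih (by omega)) (fun p _ => Real.exp_pos _)
      (fun p hp => (noiseN_J (hS p hp) (by omega)).1)
      (fun p hp => stillJac_X _ _ (noiseN_J (hS p hp) (by omega)).1 (Real.exp_pos _))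
    exact (Real.continuous_exp.comp continuous_fst).continuousOn

/-! ### Iterated derivatives -/

private noncomputable def noiseD (e : Fin d →₀ ℕ) : ℕ → Poly d → Poly d
  | 0, P => P
  | n + 1, P => if hn : n < d then
      noiseD e n ((⇑(pderiv (⟨n, hn⟩ : Fin d)))^[e ⟨n, hn⟩] P) else noiseD e n P

private lemma noiseD_succ (e : Fin d →₀ ℕ) {n : ℕ} (hn : n < d) (P : Poly d) :
    noiseD e (n + 1) P = noiseD e n ((⇑(pderiv (⟨n, hn⟩ : Fin d)))^[e ⟨n, hn⟩] P) := by
  rw [noiseD, dif_pos hn]

private lemma noise_iter_add (l : Fin d) (k : ℕ) (p q : Poly d) :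
    (⇑(pderiv l))^[k] (p + q) = (⇑(pderiv l))^[k] p + (⇑(pderiv l))^[k] q := by
  induction k generalizing p q with
  | zero => rfl
  | succ k ih => rw [Function.iterate_succ_apply, Function.iterate_succ_apply,
      Function.iterate_succ_apply, map_add, ih]

private lemma noiseD_add (e : Fin d →₀ ℕ) {n : ℕ} (hn : n ≤ d) (P Q : Poly d) :
    noiseD e n (P + Q) = noiseD e n P + noiseD e n Q := by
  induction n generalizing P Q with
  | zero => rfl
  | succ n ih =>
    rw [noiseD_succ e (by omega), noiseD_succ e (by omega), noiseD_succ e (by omega),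
      noise_iter_add, ih (by omega)]

private lemma noiseD_zero (e : Fin d →₀ ℕ) {n : ℕ} (hn : n ≤ d) : noiseD e n (0 : Poly d) = 0 := by
  have h1 := noiseD_add e hn 0 0
  rw [add_zero] at h1
  exact left_eq_add.1 h1

private lemma noiseD_sum (e : Fin d →₀ ℕ) {n : ℕ} (hn : n ≤ d) {ι' : Type*} (s : Finset ι')
    (f : ι' → Poly d) : noiseD e n (∑ i ∈ s, f i) = ∑ i ∈ s, noiseD e n (f i) := by
  classical
  induction s using Finset.induction_on with
  | empty => rw [Finset.sum_empty, Finset.sum_empty, noiseD_zero e hn]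
  | insert a s ha ih => rw [Finset.sum_insert ha, Finset.sum_insert ha, noiseD_add e hn, ih]

private lemma noise_iter_monomial (l : Fin d) (k : ℕ) (m : Fin d →₀ ℕ) (a : ℂ) :
    (⇑(pderiv l))^[k] (monomial m a : Poly d) =
      monomial (m - Finsupp.single l k) (a * ((m l).descFactorial k : ℂ)) := by
  induction k with
  | zero => simp
  | succ k ih =>
    rw [Function.iterate_succ_apply', ih, pderiv_monomial]
    have h1 : m - Finsupp.single l k - Finsupp.single l 1 = m - Finsupp.single l (k + 1) := by
      rw [tsub_tsub, ← Finsupp.single_add]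
    rw [h1, Finsupp.tsub_apply, Finsupp.single_eq_same, Nat.descFactorial_succ]
    congr 1
    push_cast
    ring

private lemma noiseD_monomial (e : Fin d →₀ ℕ) {n : ℕ} (hn : n ≤ d) (m : Fin d →₀ ℕ) (a : ℂ) :
    noiseD e n (monomial m a : Poly d) =
      monomial (m - e.filter fun i : Fin d => (i : ℕ) < n)
        (a * ∏ i ∈ Finset.univ.filter (fun i : Fin d => (i : ℕ) < n),
          ((m i).descFactorial (e i) : ℂ)) := by
  induction n generalizing m a with
  | zero =>
    have h1 : (Finset.univ.filter fun i : Fin d => (i : ℕ) < 0) = ∅ := by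
      ext i
      simp
    have h2 : (e.filter fun i : Fin d => (i : ℕ) < 0) = 0 := by
      ext i
      simp
    rw [h1, h2, Finset.prod_empty, mul_one, tsub_zero]
    rfl
  | succ n ih =>
    have hn' : n < d := by omega
    rw [noiseD_succ e hn', noise_iter_monomial, ih (by omega)]
    have h1 : (Finset.univ.filter fun i : Fin d => (i : ℕ) < n + 1) =
        insert (⟨n, hn'⟩ : Fin d) (Finset.univ.filter fun i : Fin d => (i : ℕ) < n) := by
      ext i
      simp only [Finset.mem_filter, Finset.mem_univ, true_and, Finset.mem_insert, Fin.ext_iff]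
      omega
    have h2 : (⟨n, hn'⟩ : Fin d) ∉ Finset.univ.filter fun i : Fin d => (i : ℕ) < n := by
      simp
    have h3 : (e.filter fun i : Fin d => (i : ℕ) < n + 1) =
        Finsupp.single (⟨n, hn'⟩ : Fin d) (e ⟨n, hn'⟩) + e.filter fun i : Fin d => (i : ℕ) < n := by
      ext i
      rw [Finsupp.add_apply, Finsupp.filter_apply, Finsupp.filter_apply, Finsupp.single_apply]
      by_cases h4 : (⟨n, hn'⟩ : Fin d) = i
      · subst h4
        simp
      · have h5 : (i : ℕ) ≠ n := fun h => h4 (Fin.ext h.symm)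
        rw [if_neg h4]
        by_cases h6 : (i : ℕ) < n
        · rw [if_pos h6, if_pos (by omega), zero_add]
        · rw [if_neg h6, if_neg (by omega), add_zero]
    rw [h1, Finset.prod_insert h2, h3, tsub_tsub, mul_assoc]
    congr 2
    congr 1
    refine Finset.prod_congr rfl fun i hi => ?_
    have h4 : (⟨n, hn'⟩ : Fin d) ≠ i := fun h => h2 (h ▸ hi)
    rw [Finsupp.tsub_apply, Finsupp.single_eq_of_ne h4.symm, tsub_zero]

/-- the full derivative of a polynomial of degree `|e|` -/
private lemma noiseD_full (e : Fin d →₀ ℕ) (P : Poly d) (he : e ∈ P.support)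
    (hdeg : P.totalDegree = e.sum fun _ n => n) :
    ∃ c : ℂ, c ≠ 0 ∧ noiseD e d P = C c := by
  have hfil : (e.filter fun i : Fin d => (i : ℕ) < d) = e := by
    ext i
    rw [Finsupp.filter_apply, if_pos i.2]
  have h1 : ∀ m ∈ P.support, m ≠ e → noiseD e d (monomial m (coeff m P)) = 0 := by
    intro m hm hne
    rw [noiseD_monomial e le_rfl]
    have h2 : ∃ i : Fin d, m i < e i := by
      by_contra hcon
      push Not at hcon
      have h3 : e ≤ m := fun i => hcon i
      have h4 : (m.sum fun _ n => n) ≤ e.sum fun _ n => n := by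
        rw [← hdeg]
        exact le_totalDegree hm
      apply hne
      have h5 : m = e + (m - e) := (add_tsub_cancel_of_le h3).symm
      have h6 : (m.sum fun _ n => n) = (e.sum fun _ n => n) + ((m - e).sum fun _ n => n) := by
        conv_lhs => rw [h5]
        exact Finsupp.sum_add_index' (fun _ => rfl) (fun _ _ _ => rfl)
      have h7 : ((m - e).sum fun _ n => n) = 0 := by omega
      have h8 : m - e = 0 := by
        ext i
        by_contra h9
        have h10 : i ∈ (m - e).support := Finsupp.mem_support_iff.2 h9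
        have h11 := Finset.sum_eq_zero_iff.1 h7 i h10
        exact h9 h11
      rw [h5, h8, add_zero]
    obtain ⟨i, hi⟩ := h2
    have h3 : ∏ i ∈ Finset.univ.filter (fun i : Fin d => (i : ℕ) < d),
        ((m i).descFactorial (e i) : ℂ) = 0 := by
      refine Finset.prod_eq_zero (i := i) ?_ ?_
      · rw [Finset.mem_filter]
        exact ⟨Finset.mem_univ _, i.2⟩
      · rw [Nat.descFactorial_eq_zero_iff_lt.2 hi, Nat.cast_zero]
    rw [h3, mul_zero, monomial_zero]
  have h2 : noiseD e d P = noiseD e d (monomial e (coeff e P)) := by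
    conv_lhs => rw [P.as_sum, noiseD_sum e le_rfl]
    refine Finset.sum_eq_single e (fun m hm hne => h1 m hm hne) fun h => absurd he h
  refine ⟨coeff e P * ∏ i ∈ Finset.univ.filter (fun i : Fin d => (i : ℕ) < d),
    ((e i).descFactorial (e i) : ℂ), ?_, ?_⟩
  · refine mul_ne_zero (mem_support_iff.1 he) (Finset.prod_ne_zero_iff.2 fun i _ => ?_)
    rw [Nat.descFactorial_self]
    exact_mod_cast (Nat.factorial_pos _).ne'
  · rw [h2, noiseD_monomial e le_rfl, hfil, tsub_self]
    rfl

private lemma noiseN_lower {h : Poly d → ℝ} (hh : h ∈ J d) (e : Fin d →₀ ℕ) {n : ℕ}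
    (hn : n ≤ d) (P : Poly d) (hP : noiseD e n P ≠ 0) :
    h (noiseD e n P) + ∑ i ∈ Finset.univ.filter (fun i : Fin d => (i : ℕ) < n), (e i : ℝ) ≤
      noiseN 1 h n P := by
  induction n generalizing P with
  | zero =>
    have h1 : (Finset.univ.filter fun i : Fin d => (i : ℕ) < 0) = ∅ := by
      ext i
      simp
    rw [h1, Finset.sum_empty, add_zero]
    exact le_rfl
  | succ n ih =>
    have hn' : n < d := by omega
    rw [noiseD_succ e hn'] at hP ⊢
    rw [noiseN_succ 1 h hn']
    have h0 : (⇑(pderiv (⟨n, hn'⟩ : Fin d)))^[e ⟨n, hn'⟩] P ≠ 0 := by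
      intro h0
      rw [h0, noiseD_zero e (by omega)] at hP
      exact hP rfl
    have h1 := ih (by omega) _ hP
    have h2 := le_stp_X_pderiv ⟨n, hn'⟩ (noiseN_J (s := 1) hh (n := n) (by omega)).1
      (Real.exp_pos 1) P (e ⟨n, hn'⟩) h0
    rw [Real.log_exp, mul_one] at h2
    have h3 : (Finset.univ.filter fun i : Fin d => (i : ℕ) < n + 1) =
        insert (⟨n, hn'⟩ : Fin d) (Finset.univ.filter fun i : Fin d => (i : ℕ) < n) := by
      ext i
      simp only [Finset.mem_filter, Finset.mem_univ, true_and, Finset.mem_insert, Fin.ext_iff]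
      omega
    have h4 : (⟨n, hn'⟩ : Fin d) ∉ Finset.univ.filter fun i : Fin d => (i : ℕ) < n := by
      simp
    rw [h3, Finset.sum_insert h4]
    linarith

/-- **noise statement** -/
theorem noiseStatement (d : ℕ) [NeZero d] : NoiseStatement d := by
  have hHH : ∀ {h : Poly d → ℝ}, (∀ i, h (X i) ≤ 1) → HH h ≤ 1 := fun {h} hc =>
    Finset.sup'_le _ _ fun i _ => hc i
  have hX : ∀ {h : Poly d → ℝ}, h ∈ J1 d → ∀ i, h (X i) ≤ 1 := fun {h} hh i => by
    have h1 : h (X i) ≤ HH h := Finset.le_sup' (fun i : Fin d => h (X i)) (Finset.mem_univ i)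
    exact h1.trans hh.2.le
  refine ⟨fun s h => noiseN s h d, ?_, ?_, ?_, ?_, ?_⟩
  · exact noiseN_cont _ (fun p hp => hp.2.1) le_rfl
  · intro s hs h hh
    refine ⟨⟨noiseN_J hh.1 le_rfl, ?_⟩, noiseN_le hh.1 le_rfl⟩
    apply le_antisymm
    · exact hHH fun i => noiseN_X_le hs.2 hh.1 (hX hh) le_rfl i
    · rw [← hh.2]
      refine Finset.sup'_le _ _ fun i _ => ?_
      exact (noiseN_le (s := s) hh.1 le_rfl (X i)).trans
        (Finset.le_sup' (fun i : Fin d => noiseN s h d (X i)) (Finset.mem_univ i))
  · intro h hh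
    have h1 : ∀ n ≤ d, noiseN (-((d : ℝ) - 1)) h n = h := by
      intro n hn
      induction n with
      | zero => rfl
      | succ n ih =>
        rw [noiseN_succ _ _ (by omega), ih (by omega)]
        exact stp_X_of_mem _ hh
    exact h1 d le_rfl
  · intro h hh
    funext P
    have hJ := noiseN_J (s := 1) hh.1 (n := d) le_rfl
    apply le_antisymm
    · exact hJ.1.le_totalDegree (hHH fun i => noiseN_X_le le_rfl hh.1 (hX hh) le_rfl i) P
    · rcases eq_or_ne P 0 with rfl | hP
      · have h1 := hJ.1.zero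
        simp only [totalDegree_zero, Nat.cast_zero]
        exact h1.ge
      · have h1 : P.support.Nonempty := support_nonempty.2 hP
        obtain ⟨e, he, hdeg⟩ := Finset.exists_mem_eq_sup P.support h1
          (fun m => m.sum fun _ n => n)
        obtain ⟨c, hc, hD⟩ := noiseD_full e P he hdeg
        have h2 := noiseN_lower hh.1 e le_rfl P (by
          rw [hD]
          exact (map_ne_zero_iff _ (C_injective _ _)).2 hc)
        rw [hD, hh.1.1.const c hc, zero_add] at h2
        refine le_trans (le_of_eq ?_) h2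
        have h3 : (Finset.univ.filter fun i : Fin d => (i : ℕ) < d) = Finset.univ := by
          ext i
          simp
        have h4 : P.totalDegree = ∑ i, e i := by
          refine hdeg.trans ?_
          exact Finsupp.sum_fintype _ _ fun _ => rfl
        rw [h3, h4]
        push_cast
        rfl
  · intro s _ t _ hst h hh P
    exact noiseN_mono hst hh.1 le_rfl P

end Pool.Agent.DAE
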