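import Pool.Agent.DAE.R.Stage

/-!
# The retraction `R_g : J_1 → Σ_g`
-/

set_option autoImplicit false

namespace Pool.Agent.DAE

open MvPolynomial Pool.Agent.H17Dyn

/-- **The retraction statement** -/
theorem retractionStatement (d : ℕ) [NeZero d] : RetractionStatement d := by
  intro D0
  classical
  set D1 : Finset (Poly d) := D0 ∪ Finset.univ.image (fun i : Fin d => (X i : Poly d)) with hD1
  have hX : ∀ i, (X i : Poly d) ∈ D1 := fun i =>
    Finset.mem_union_right _ (Finset.mem_image_of_mem _ (Finset.mem_univ i))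
  have h1 : ∀ n, n ≤ d → ∃ y R, Stage D1 (d - n) y R := by
    intro n
    induction n with
    | zero => intro _; exact ⟨_, _, stage_top D1⟩
    | succ n ih =>
      intro hn
      obtain ⟨y, R, hs⟩ := ih (by omega)
      have h2 : d - n = (d - (n + 1)) + 1 := by omega
      rw [h2] at hs
      exact Stage.step hX (by omega) hs
  obtain ⟨g, R, hs⟩ := h1 d le_rfl
  rw [Nat.sub_self] at hs
  have hfin : Finer 0 g g := ⟨fun _ _ => rfl, fun i hi => absurd hi (by omega)⟩
  refine ⟨g, hs.frame, R, hs.cont, fun h hh => ⟨⟨hs.mem h hh, ?_⟩, hs.le h hh, fun P hP =>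
    hs.eq h hh P (Finset.mem_union_left _ hP)⟩, fun h hh => hs.retr g hs.frame hfin h hh.1 hh.2⟩
  refine isMono_of_gaussAt (hs.mem h hh).1.1 (fun i => ?_)
    (fun F hF => hs.frame.aeval_ne_zero hF) fun i => hs.gauss h hh i (Nat.zero_le _)
  have := hs.frame.aeval_ne_zero (X_ne_zero (R := ℂ) i)
  rwa [aeval_X] at this

end Pool.Agent.DAE
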