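import Pool.Agent.DAE.R.GaussB
import Pool.Agent.DAE.R.Linear

/-!
# The tower: one stage of the retraction
-/

set_option autoImplicit false

namespace Pool.Agent.DAE

open MvPolynomial Pool.Agent.H17Dyn

variable {d : ℕ}

/-- `g` arises from `y` by later stages: `g_i = y_i` for `i ≥ l`, `g_i ∈ ℂ[y_j : j < l]` for
`i < l` -/
def Finer (l : ℕ) (y g : Fin d → Poly d) : Prop :=
  (∀ i : Fin d, l ≤ (i : ℕ) → g i = y i) ∧
    ∀ i : Fin d, (i : ℕ) < l → ∃ F ∈ supported ℂ {j : Fin d | (j : ℕ) < l}, g i = aeval y F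

/-- the state of the construction after the stages `d - 1, ..., l` -/
structure Stage [NeZero d] (D0 : Finset (Poly d)) (l : ℕ) (y : Fin d → Poly d)
    (R : (Poly d → ℝ) → (Poly d → ℝ)) : Prop where
  frame : Frame y
  cont : ContinuousOn R (J1 d)
  mem : ∀ h ∈ J1 d, R h ∈ J1 d
  le : ∀ h ∈ J1 d, ∀ P, h P ≤ R h P
  eq : ∀ h ∈ J1 d, ∀ P ∈ D0, R h P = h P
  gauss : ∀ h ∈ J1 d, ∀ i : Fin d, l ≤ (i : ℕ) → GaussAt y i (R h)
  retr : ∀ g, Frame g → Finer l y g → ∀ h ∈ J1 d, IsMono g h → R h = h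

theorem stage_top [NeZero d] (D0 : Finset (Poly d)) :
    Stage D0 d (fun j => (X j : Poly d)) id where
  frame := frame_X
  cont := continuousOn_id
  mem h hh := hh
  le h _ P := le_rfl
  eq h _ P _ := rfl
  gauss h _ i hi := absurd i.2 (by omega)
  retr g _ _ h _ _ := rfl

namespace StageAux

/-- the Jacobian determinant after an automorphism of the parameters -/
lemma jac_comp_dvd (y : Fin d → Poly d) (ψ : Poly d ≃ₐ[ℂ] Poly d) :
    jac (fun j => aeval y (ψ (X j))) ∣ jac y := by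
  have h1 : ∀ (y : Fin d → Poly d) (P : Fin d → Poly d),
      jac (fun j => aeval y (P j)) = aeval y (jac P) * jac y := by
    intro y P
    have := det_chain (fun i => pderiv i) (aeval y : Poly d →ₐ[ℂ] Poly d) P
    simp only [aeval_X] at this
    exact this
  have h2 := h1 (fun j => ψ (X j)) (fun j => ψ.symm (X j))
  have h3 : (fun j => aeval (fun j => ψ (X j)) (ψ.symm (X j)) : Fin d → Poly d) =
      fun j => X j := by
    funext j
    have h4 : (aeval (fun j => ψ (X j)) : Poly d →ₐ[ℂ] Poly d) = (ψ : Poly d →ₐ[ℂ] Poly d) := by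
      apply algHom_ext
      intro i
      rw [aeval_X]
      rfl
    rw [h4]
    exact ψ.apply_symm_apply _
  have h5 : jac (fun j => (X j : Poly d)) = 1 := by
    have h : (Matrix.of fun i j : Fin d => pderiv i (X j : Poly d)) = 1 := by
      ext i j : 2
      rw [Matrix.of_apply, pderiv_X, Matrix.one_apply, Pi.single_apply]
      simp only [eq_comm]
    rw [jac, h, Matrix.det_one]
  rw [h3, h5] at h2
  have hu : IsUnit (jac (fun j => ψ (X j))) := IsUnit.of_mul_eq_one _ ((mul_comm _ _).trans h2.symm)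
  rw [h1 y (fun j => ψ (X j))]
  obtain ⟨u, hu⟩ := (hu.map (aeval y : Poly d →ₐ[ℂ] Poly d))
  rw [← hu]
  refine ⟨((u⁻¹ : (Poly d)ˣ) : Poly d), ?_⟩
  rw [mul_right_comm, Units.mul_inv, one_mul]

lemma supported_mono' {s t : Set (Fin d)} (h : s ⊆ t) {F : Poly d} (hF : F ∈ supported ℂ s) :
    F ∈ supported ℂ t := supported_mono h hF

lemma pderiv_eq_zero {s : Set (Fin d)} {L : Fin d} (h : L ∉ s) {F : Poly d}
    (hF : F ∈ supported ℂ s) : pderiv L F = 0 := by
  apply pderiv_eq_zero_of_notMem_vars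
  intro h1
  exact h (mem_supported.1 hF h1)

lemma still_of_dd {y : Fin d → Poly d} {l : Fin d} {r : ℝ} {h : Poly d → ℝ} (hh : IsVal h)
    {P : Poly d} (h0 : dd y l (ι P) = 0) : Still y l r h P := by
  intro k
  cases k with
  | zero => simp
  | succ k =>
    rw [Function.iterate_succ_apply, h0, iter_zero, hh.nabs_ext.zero, zero_mul]
    exact hh.nabs_ext.nonneg _

/-- aeval only depends on the values at the variables occurring -/
lemma aeval_congr {y y' : Fin d → Poly d} {s : Set (Fin d)} (h : ∀ j ∈ s, y j = y' j)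
    {F : Poly d} (hF : F ∈ supported ℂ s) : aeval y F = aeval y' F := by
  apply eval₂Hom_congr' rfl _ rfl
  intro i hi _
  exact h i (mem_supported.1 hF hi)

end StageAux

open StageAux

/-- **one stage** -/
theorem Stage.step [NeZero d] {D0 : Finset (Poly d)} (hX : ∀ i, (X i : Poly d) ∈ D0) {l : ℕ}
    (hl : l < d) {y : Fin d → Poly d} {R : (Poly d → ℝ) → (Poly d → ℝ)}
    (hs : Stage D0 (l + 1) y R) : ∃ y' R', Stage D0 l y' R' := by
  classical
  set L : Fin d := ⟨l, hl⟩ with hL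
  -- multiples in `ℂ[y]`
  have hex : ∀ P : Poly d, ∃ G : Poly d, P ≠ 0 → aeval y G ≠ 0 ∧ P ∣ aeval y G := by
    intro P
    rcases eq_or_ne P 0 with h0 | h0
    · exact ⟨0, fun h => absurd h0 h⟩
    · obtain ⟨G, hG⟩ := hs.frame.exists_dvd h0
      exact ⟨G, fun _ => hG⟩
  choose GP hGP using hex
  choose QF hQF using fun F : Poly d => exists_decomp L F
  set 𝓕 : Finset (Poly d) := insert (GP (jac y)) (D0.image GP) with h𝓕
  set Q0 : Finset (Poly d) := insert (X L) (𝓕.biUnion QF) with hQ0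
  have hQ0' : ∀ q ∈ Q0, q ≠ 0 ∧ q ∈ Low L := by
    intro q hq
    rcases Finset.mem_insert.1 hq with rfl | hq
    · refine ⟨X_ne_zero _, ?_⟩
      rw [Low, mem_supported, vars_X]
      intro j hj
      rw [Finset.mem_coe, Finset.mem_singleton] at hj
      exact hj.le
    · obtain ⟨F, -, hF⟩ := Finset.mem_biUnion.1 hq
      exact ⟨((hQF F).1 q hF).2, ((hQF F).1 q hF).1⟩
  obtain ⟨τ, hτ1, hτ2, hτ3, hτ4, hτ5⟩ := exists_linear L Q0 hQ0'
  set y1 : Fin d → Poly d := fun j => aeval y (τ.symm (X j)) with hy1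
  have hfr1 : Frame y1 := hs.frame.comp τ.symm
  have haev : ∀ F : Poly d, aeval y1 F = aeval y (τ.symm F) := by
    intro F
    have h1 : (aeval y1 : Poly d →ₐ[ℂ] Poly d) =
        (aeval y : Poly d →ₐ[ℂ] Poly d).comp (τ.symm : Poly d →ₐ[ℂ] Poly d) := by
      apply algHom_ext
      intro i
      rw [aeval_X]
      rfl
    rw [h1]
    rfl
  set Q1 : Finset (Poly d) := Q0.image τ with hQ1
  have hQ1m : ∀ q ∈ Q1, MonicIn L q := by
    intro q hq
    obtain ⟨q', hq', rfl⟩ := Finset.mem_image.1 hq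
    exact hτ5 q' hq'
  have hQ1n : ∀ q ∈ Q1, q ≠ 0 := by
    intro q hq
    obtain ⟨q', hq', rfl⟩ := Finset.mem_image.1 hq
    exact (map_ne_zero_iff _ τ.injective).2 (hQ0' q' hq').1
  have hXL : (X L : Poly d) ∈ Q1 := by
    rw [hQ1, Finset.mem_image]
    exact ⟨X L, Finset.mem_insert_self _ _, hτ1 L le_rfl⟩
  have hdec : ∀ F ∈ 𝓕, Decomp L (Q1 : Set (Poly d)) (τ F) := by
    intro F hF
    refine ((hQF F).2.map (τ : Poly d →ₐ[ℂ] Poly d) (fun j hj => hτ1 j hj.le) hτ3).mono ?_
    rintro _ ⟨q, hq, rfl⟩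
    rw [hQ1, Finset.mem_coe, Finset.mem_image]
    exact ⟨q, Finset.mem_insert_of_mem (Finset.mem_biUnion.2 ⟨F, hF, hq⟩), rfl⟩
  have hgauss : ∀ h ∈ J1 d, ∀ i : Fin d, L < i → GaussAt y1 i (R h) := by
    intro h hh i hi
    refine (hs.gauss h hh i (Nat.succ_le_of_lt (Fin.lt_def.1 hi))).subst (τ.symm : Poly d →ₐ[ℂ] Poly d)
      (hτ2 i hi.le) ?_
    intro j hj
    rcases le_or_gt j L with h1 | h1
    · refine supported_mono' ?_ (hτ4 (X j) ?_)
      · intro k hk
        exact (lt_of_le_of_lt hk hi).ne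
      · rw [Low, mem_supported, vars_X]
        intro k hk
        rw [Finset.mem_coe, Finset.mem_singleton] at hk
        exact hk ▸ h1
    · have h2 : (τ.symm : Poly d →ₐ[ℂ] Poly d) (X j) = X j := hτ2 j h1.le
      rw [h2, mem_supported, vars_X]
      intro k hk
      rw [Finset.mem_coe, Finset.mem_singleton] at hk
      exact hk ▸ hj
  obtain ⟨ρ, hρc, hρ0, hρ⟩ := exists_radius hfr1 L Q1 hQ1n hXL
  have hstQ : ∀ h ∈ J1 d, ∀ q ∈ Q1, Still y1 L (ρ (R h)) (R h) (aeval y1 q) := fun h hh =>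
    (hρ (R h) (hs.mem h hh).1.1).1
  have hst : ∀ h ∈ J1 d, ∀ F ∈ 𝓕, Still y1 L (ρ (R h)) (R h) (aeval y F) := by
    intro h hh F hF
    have h1 := still_of_decomp hfr1 (hs.mem h hh).1.1 (hρ0 (R h)) (hgauss h hh) (hdec F hF)
      (hstQ h hh)
    rwa [haev, AlgEquiv.symm_apply_apply] at h1
  have hjy : jac y ≠ 0 := hs.frame.jac_ne_zero
  have hsj : ∀ h ∈ J1 d, StillJac y1 L (ρ (R h)) (R h) := by
    intro h hh
    refine ⟨τ (GP (jac y)), ?_, ?_, ?_⟩
    · rw [haev, AlgEquiv.symm_apply_apply]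
      exact (hGP _ hjy).1
    · rw [haev, AlgEquiv.symm_apply_apply]
      exact (jac_comp_dvd y τ.symm).trans (hGP _ hjy).2
    · rw [haev, AlgEquiv.symm_apply_apply]
      exact hst h hh _ (Finset.mem_insert_self _ _)
  set R' : (Poly d → ℝ) → (Poly d → ℝ) := fun h => Pool.Agent.DAE.stp y1 L (ρ (R h)) (R h)
    with hR'
  have hval : ∀ h ∈ J1 d, IsVal (R' h) := fun h hh =>
    isVal_stp hfr1 (hs.mem h hh).1.1 (hρ0 _) (hsj h hh)
  have hRD : ∀ h ∈ J1 d, ∀ P ∈ D0, R' h P = R h P := by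
    intro h hh P hP
    rcases eq_or_ne P 0 with rfl | h0
    · rw [(hval h hh).zero, (hs.mem h hh).1.1.zero]
    · exact stp_of_dvd hfr1 (hs.mem h hh).1.1 (hρ0 _) (hsj h hh) (hGP P h0).1 (hGP P h0).2
        (hst h hh _ (Finset.mem_insert_of_mem (Finset.mem_image_of_mem _ hP)))
  set G : Poly d := ∏ q ∈ Q1, q with hG
  have hGm : MonicIn L G := MonicIn.prod Q1 hQ1m
  have hGdeg : 1 ≤ degreeOf L G := by
    have h1 : G = X L * ∏ q ∈ Q1.erase (X L), q := by
      rw [hG, Finset.mul_prod_erase Q1 (fun q => q) hXL]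
    have h2 : (∏ q ∈ Q1.erase (X L), q) ≠ 0 :=
      Finset.prod_ne_zero_iff.2 fun q hq => hQ1n q (Finset.mem_of_mem_erase hq)
    rw [h1, degreeOf_mul_eq (X_ne_zero _) h2, degreeOf_X, if_pos rfl]
    omega
  set y' : Fin d → Poly d := Function.update y1 L (aeval y1 G) with hy'
  have hlt : ∀ i : Fin d, l ≤ (i : ℕ) → i ≠ L → L < i := by
    intro i hi hne
    refine lt_of_le_of_ne (Fin.le_def.2 hi) (Ne.symm hne)
  refine ⟨y', R', ?_⟩
  refine
    { frame := frame_update hfr1 hGm hGdeg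
      cont := continuousOn_stp hfr1 (hρc.comp_continuousOn hs.cont) hs.cont (fun h _ => hρ0 _)
        (fun h hh => (hs.mem h hh).1.1) hsj
      mem := ?_
      le := fun h hh P => (hs.le h hh P).trans
        (le_stp hfr1 (hs.mem h hh).1.1 (hρ0 _) (hsj h hh) P)
      eq := fun h hh P hP => (hRD h hh P hP).trans (hs.eq h hh P hP)
      gauss := ?_
      retr := ?_ }
  · intro h hh
    refine ⟨⟨hval h hh, isFat_stp hfr1 (hs.mem h hh).1.1 (hs.mem h hh).1.2 (hρ0 _)
      (hsj h hh)⟩, ?_⟩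
    have h1 : HH (R' h) = HH (R h) := by
      unfold HH
      congr 1
      funext i
      exact hRD h hh _ (hX i)
    rw [h1]
    exact (hs.mem h hh).2
  · intro h hh i hi
    by_cases hiL : i = L
    · subst hiL
      obtain ⟨q, hq, k, hk, heq⟩ := (hρ (R h) (hs.mem h hh).1.1).2
      exact gaussAt_new hfr1 (hs.mem h hh).1.1 (hρ0 _) (hsj h hh) Q1 hQ1n (hstQ h hh) hq hk heq
    · have h1 := hlt i hi hiL
      exact gaussAt_old h1 (GaussAt.stp hfr1 (hs.mem h hh).1.1 (hρ0 _) (hsj h hh)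
        (Ne.symm hiL) (hgauss h hh i h1)) hGm.mem_low
  · intro g hg hfin h hh hm
    have hy'L : y' L = aeval y1 G := by rw [hy', Function.update_self]
    have hy'n : ∀ j, j ≠ L → y' j = y1 j := fun j hj => by
      rw [hy', Function.update_of_ne hj]
    have hsub : ({j : Fin d | (j : ℕ) < l} : Set (Fin d)) ⊆ {j | j ≤ L} := by
      intro j hj
      exact (Fin.lt_def.2 (show (j : ℕ) < (L : ℕ) from hj)).le
    have hfin' : Finer (l + 1) y g := by
      refine ⟨fun i hi => ?_, fun i hi => ?_⟩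
      · have hiL : i ≠ L := by
          rintro rfl
          simp [hL] at hi
        rw [hfin.1 i (by omega), hy'n i hiL, hy1]
        change aeval y (τ.symm (X i)) = y i
        rw [hτ2 i (hlt i (by omega) hiL).le, aeval_X]
      · have hset : ({j : Fin d | (j : ℕ) < l + 1} : Set (Fin d)) = {j | j ≤ L} := by
          ext j
          simp only [Set.mem_ofPred_eq, hL, Fin.le_def]
          omega
        rw [hset]
        by_cases hiL : i = L
        · subst hiL
          refine ⟨τ.symm G, hτ4 G hGm.mem_low, ?_⟩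
          rw [hfin.1 L le_rfl, hy'L, haev]
        · have h1 : (i : ℕ) < l := by
            have : (i : ℕ) ≠ l := fun h => hiL (Fin.ext h)
            omega
          obtain ⟨F, hF, hgi⟩ := hfin.2 i h1
          refine ⟨τ.symm F, hτ4 F (supported_mono' hsub hF), ?_⟩
          rw [hgi, ← haev]
          refine aeval_congr (fun j hj => hy'n j ?_) hF
          rintro rfl
          exact absurd hj (lt_irrefl l)
    have hRh : R h = h := hs.retr g hg hfin' h hh hm
    have hsj' := hsj h hh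
    have hstQ' := hstQ h hh
    rw [hRh] at hsj' hstQ'
    have hval' := hval h hh
    simp only [hR'] at hval' ⊢
    rw [hRh] at hval' ⊢
    have hmv := mv_stp hfr1 hh.1.1 (hρ0 h) hsj'
    refine eq_of_isMono hg hh.1.1 hval' hm (le_stp hfr1 hh.1.1 (hρ0 h) hsj') fun i => ?_
    by_cases hiL : i = L
    · subst hiL
      rw [hfin.1 L le_rfl, hy'L, ← hval'.log_mv, ← hh.1.1.log_mv (aeval y1 G)]
      congr 1
      rw [hG, map_prod, hval'.nabs_mv.prod, hh.1.1.nabs_mv.prod]
      refine Finset.prod_congr rfl fun q hq => ?_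
      have h1 := stp_of_still hh.1.1 (hstQ' q hq)
      have h2 : aeval y1 q ≠ 0 := hfr1.aeval_ne_zero (hQ1n q hq)
      rw [mv_of_ne _ h2, mv_of_ne _ h2, h1]
    · refine stp_of_still hh.1.1 (still_of_dd hh.1.1 ?_)
      rcases lt_or_ge (i : ℕ) l with h1 | h1
      · obtain ⟨F, hF, hgi⟩ := hfin.2 i h1
        have h2 : aeval y' F = aeval y1 F := by
          refine aeval_congr (fun j hj => hy'n j ?_) hF
          rintro rfl
          exact absurd hj (lt_irrefl l)
        rw [hgi, h2, dd_aeval hfr1, pderiv_eq_zero (L := L) (fun hj => lt_irrefl l hj) hF,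
          map_zero, map_zero]
      · have h2 : g i = aeval y1 (X i : Poly d) := by
          rw [hfin.1 i h1, hy'n i hiL, aeval_X]
        have h3 : pderiv L (X i : Poly d) = 0 := pderiv_X_of_ne hiL
        rw [h2, dd_aeval hfr1, h3, map_zero, map_zero]

end Pool.Agent.DAE
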